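import Pool.Agent.Lib.MP_adc574_ag_EN.Int
import Pool.Agent.Lib.MP_adc574_ag_GP.Lifts
import Pool.Agent.Lib.MP_adc574_ag_GP.BCe

/-!
# Block B: base change of geometric data to a field
-/

set_option autoImplicit false
set_option linter.unusedSectionVars false

namespace MPadcGP

universe u v w x y

open TensorProduct

section gen

variable {A : Type u} {κ : Type v} [CommRing A] [CommRing κ] [Algebra A κ] {R : Type w} {R' : Type x} [CommRing R]
  [CommRing R'] [Algebra A R] [Algebra κ R'] {h : R →+* R'} {S : Type y} [CommRing S] [Algebra A S]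

/-- The homomorphism to the base change. -/
private noncomputable def BC_in (A : Type u) (κ : Type v) [CommRing A] [CommRing κ] [Algebra A κ] (S : Type y)
    [CommRing S] [Algebra A S] : S →+* κ ⊗[A] S :=
  ((Algebra.TensorProduct.includeRight : S →ₐ[A] κ ⊗[A] S) : S →+* κ ⊗[A] S)

private theorem BC_in_apply (s : S) : BC_in A κ S s = (1 : κ) ⊗ₜ[A] s := rfl

private theorem BC_in_hb : HB A κ (BC_in A κ S) := by
  intro a
  rw [BC_in_apply, Algebra.algebraMap_eq_smul_one (A := S), ← TensorProduct.smul_tmul, Algebra.smul_def, mul_one]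
  rfl

private theorem BC_in_bij : Function.Bijective (bcr (BC_in_hb (A := A) (κ := κ) (S := S))) := by
  have h1 : ∀ t, bcr (BC_in_hb (A := A) (κ := κ) (S := S)) t = t := by
    intro t
    induction t using TensorProduct.induction_on with
    | zero => rw [map_zero]
    | tmul b s =>
      rw [bcr_tmul, BC_in_apply, TensorProduct.smul_tmul', smul_eq_mul, mul_one]
    | add x y hx hy => rw [map_add, hx, hy]
  exact ⟨fun x y hxy => by rw [← h1 x, ← h1 y, hxy], fun y => ⟨y, h1 y⟩⟩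

private theorem BC_ext (hb : HB A κ h) (hbij : Function.Bijective (bcr hb)) (χ : R →ₐ[A] S) :
    ∃ χ' : R' →ₐ[κ] κ ⊗[A] S, ∀ r, χ' (h r) = BC_in A κ S (χ r) := by
  let E : (κ ⊗[A] R) ≃ₗ[κ] R' := LinearEquiv.ofBijective (bcr hb) hbij
  have hE : ∀ x, E x = bcr hb x := fun x => rfl
  have hE1 : ∀ x y, E.symm (x * y) = E.symm x * E.symm y := by
    intro x y
    apply E.injective
    rw [LinearEquiv.apply_symm_apply, hE, bcr_mul, ← hE, ← hE, LinearEquiv.apply_symm_apply,
      LinearEquiv.apply_symm_apply]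
  have hE2 : ∀ r, E.symm (h r) = (1 : κ) ⊗ₜ[A] r := by
    intro r
    apply E.injective
    rw [LinearEquiv.apply_symm_apply, hE, bcr_tmul, one_smul]
  have hE3 : E.symm 1 = (1 : κ ⊗[A] R) := by
    rw [← map_one h, hE2]
    rfl
  refine ⟨AlgHom.ofLinearMap ((Algebra.TensorProduct.map (AlgHom.id κ κ) χ).toLinearMap ∘ₗ E.symm.toLinearMap)
    ?_ ?_, fun r => ?_⟩
  · show Algebra.TensorProduct.map (AlgHom.id κ κ) χ (E.symm 1) = 1
    rw [hE3, map_one]
  · intro x y
    show Algebra.TensorProduct.map (AlgHom.id κ κ) χ (E.symm (x * y)) =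
      Algebra.TensorProduct.map (AlgHom.id κ κ) χ (E.symm x) * Algebra.TensorProduct.map (AlgHom.id κ κ) χ (E.symm y)
    rw [hE1, map_mul]
  · show Algebra.TensorProduct.map (AlgHom.id κ κ) χ (E.symm (h r)) = _
    rw [hE2, Algebra.TensorProduct.map_tmul, BC_in_apply]
    rfl

private theorem BC_plf (hb : HB A κ h) {χ : R →ₐ[A] S} {χ' : R' →ₐ[κ] κ ⊗[A] S}
    (hχ : ∀ r, χ' (h r) = BC_in A κ S (χ r)) (e : Fm A R) :
    plf χ' (mp h hb.cc e) = mp (BC_in A κ S) BC_in_hb.cc (plf χ e) := by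
  have h1 : (plf χ').comp (mp h hb.cc) = (mp (BC_in A κ S) BC_in_hb.cc).comp (plf χ) := hom_ext'
    (fun r => by
      rw [RingHom.comp_apply (plf χ') (mp h hb.cc), RingHom.comp_apply (mp (BC_in A κ S) BC_in_hb.cc) (plf χ),
        mp_fz, plf_fz, plf_fz, mp_fz, hχ])
    (fun r => by
      rw [RingHom.comp_apply (plf χ') (mp h hb.cc), RingHom.comp_apply (mp (BC_in A κ S) BC_in_hb.cc) (plf χ),
        mp_df, plf_df, plf_df, mp_df, hχ])
  exact congrArg (fun g : Fm A R →+* Fm κ (κ ⊗[A] S) => g e) h1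

end gen


/-- BLOCK B. Base change of geometric data.

Proof. `S' = κ ⊗[A] S` (`κ` an `A`-algebra by `φ`), smooth over `κ`; `(prC (bI φ I)).R {j}` is `κ ⊗[A] (prC I).R {j}`
(`cb_bcr_bijective`), so homomorphisms of `A`-algebras from `(prC I).R {j}` to `S` extend; the component `{j}` of
`(prH φ I).push c` is `mp (cb φ I {j}) (c {j})`. The relations `GeoR` are mapped by `mp` of `S → S'`. Independence: by
`bcf_bijective` `Fm κ S'` is `κ ⊗[A] Fm A S`, so the functionals `g.τ b` extend to `κ`-linear functionals of `Fm κ S'`,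
and the matrix of their values on the `ι'^* (z b')` is the image of the matrix with the determinant `g.dt`. -/
theorem GeoD.to_field {A : Type u} [CommRing A] {n : ℕ} {I : Ideal (MvPolynomial (Fin n) A)} (hI : IsHomog I)
    {B : Type} [Fintype B] [DecidableEq B] {lev : B → ℕ} {z : B → (prC I).Ch} {Λ : Set A} {a : B → B → A}
    (g : GeoD (prC I) lev z Λ a) {κ : Type u} [Field κ] (φ : A →+* κ) (hd : φ g.dt ≠ 0) :
    ∃ (S : Type u) (_ : CommRing S) (_ : Algebra κ S) (_ : Algebra.Smooth κ S)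
      (ψ : Fin g.N → ((prC (bI φ I)).R {g.j} →ₐ[κ] S)) (ι : (prC (bI φ I)).R {g.j} →ₐ[κ] S),
      GeoR (prC (bI φ I)) lev (fun b => (prH φ I).push (z b)) g.j S (fun l => φ (g.m l)) ψ ι (fun b b' => φ (a b b')) ∧
        GeoI (prC (bI φ I)) lev (fun b => (prH φ I).push (z b)) g.j ι := by
  classical
  let _ : Algebra A κ := φ.toAlgebra
  have hφ : ∀ x, algebraMap A κ x = φ x := fun x => rfl
  have hbj : HB A κ ((prH φ I).h {g.j}) := (prH φ I).base {g.j}
  have hbij : Function.Bijective (bcr hbj) :=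
    cb_bcr_bijective (B := κ) hI (Finset.singleton_nonempty g.j) hbj
  choose χ' hχ' using fun χ : (prC I).R {g.j} →ₐ[A] g.S => BC_ext (S := g.S) hbj hbij χ
  have hsm : Algebra.Smooth κ (κ ⊗[A] g.S) := inferInstance
  have hpl : ∀ (χ : (prC I).R {g.j} →ₐ[A] g.S) (b : B),
      plf (χ' χ) ((prH φ I).push (z b) {g.j}) = mp (BC_in A κ g.S) BC_in_hb.cc (plf χ (z b {g.j})) := by
    intro χ b
    exact BC_plf hbj (hχ' χ) (z b {g.j})
  have hsmul : ∀ (x : A) (e : Fm A g.S), mp (BC_in A κ g.S) BC_in_hb.cc (x • e) =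
      φ x • mp (BC_in A κ g.S) BC_in_hb.cc e := fun x e => BC_in_hb.mp_smul x e
  refine ⟨κ ⊗[A] g.S, inferInstance, inferInstance, hsm, fun l => χ' (g.ψ l), χ' g.ι, ⟨?_, ?_, ?_⟩, ?_⟩
  · intro b
    obtain ⟨f, hf⟩ := g.rel.rel b
    refine ⟨BC_in A κ g.S f, ?_⟩
    have h1 := congrArg (mp (BC_in A κ g.S) BC_in_hb.cc) hf
    rw [map_sum, map_add, map_sum, mp_df] at h1
    simp only [hsmul] at h1
    simp only [hpl]
    exact h1
  · intro b hb
    have h1 := congrArg (mp (BC_in A κ g.S) BC_in_hb.cc) (g.rel.relF b hb)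
    rw [map_sum, map_sum] at h1
    simp only [hsmul] at h1
    simp only [hpl]
    exact h1
  · intro b b' hb hb'
    rw [g.rel.fil b b' hb hb', map_zero]
  · intro c hc hsum
    simp only [hpl] at hsum
    have h1 : bcf BC_in_hb (∑ b, c b ⊗ₜ[A] plf g.ι (z b {g.j})) = 0 := by
      rw [map_sum, ← hsum]
      exact Finset.sum_congr rfl fun b _ => bcf_tmul _ _ _
    have h2 : (∑ b, c b ⊗ₜ[A] plf g.ι (z b {g.j}) : κ ⊗[A] Fm A g.S) = 0 :=
      (bcf_bijective (BC_in_hb (A := A) (κ := κ) (S := g.S)) BC_in_bij).1 (by rw [h1, map_zero])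
    have h3 : ∀ b0 : {b : B // 1 ≤ lev b}, ∑ b, φ (g.τ b0 (plf g.ι (z b {g.j}))) * c b = 0 := by
      intro b0
      have h4 := congrArg (TensorProduct.rid A κ) (congrArg ((g.τ b0).lTensor κ) h2)
      rw [map_sum, map_sum, map_zero, map_zero] at h4
      rw [← h4]
      refine Finset.sum_congr rfl fun b _ => ?_
      rw [LinearMap.lTensor_tmul, TensorProduct.rid_tmul, Algebra.smul_def, hφ]
    have h5 : ∀ b0 : {b : B // 1 ≤ lev b},
        ∑ b : {b : B // 1 ≤ lev b}, φ (g.τ b0 (plf g.ι (z b.1 {g.j}))) * c b.1 = 0 := by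
      intro b0
      rw [← h3 b0, ← Finset.sum_subtype (Finset.univ.filter fun b => 1 ≤ lev b)
        (fun b => by rw [Finset.mem_filter]; exact ⟨fun h => h.2, fun h => ⟨Finset.mem_univ b, h⟩⟩)
        (fun b => φ (g.τ b0 (plf g.ι (z b {g.j}))) * c b)]
      refine Finset.sum_subset (Finset.filter_subset _ _) fun b _ hb => ?_
      rw [Finset.mem_filter] at hb
      rw [hc b (by
        by_contra h
        exact hb ⟨Finset.mem_univ b, by omega⟩), mul_zero]
    have h6 : (fun b : {b : B // 1 ≤ lev b} => c b.1) = 0 := by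
      refine Matrix.eq_zero_of_mulVec_eq_zero
        (M := (Matrix.of fun b b' : {b : B // 1 ≤ lev b} => g.τ b (plf g.ι (z b'.1 {g.j}))).map φ) ?_ ?_
      · rw [← RingHom.mapMatrix_apply, ← RingHom.map_det]
        exact hd
      · funext b0
        exact h5 b0
    funext b
    by_cases hb : lev b < 1
    · exact hc b hb
    · exact congrFun h6 ⟨b, by omega⟩

end MPadcGP
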