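import Mathlib

/-!
# Block D, leaf D1

Proof through a Groebner basis instead of Krull's theorem: a finitely generated algebra over `k` which is defined over
`A₀` has the standard monomials of a monomial order as a basis; the division algorithm runs over the finitely generated
ring `A'` which contains the coefficients of the monic Groebner basis, so the coordinates of `1 ⊗ x` are in `A'`. A module
`N` sits in the square zero extension `B₀ ⊕ N`.
-/

set_option autoImplicit false

namespace MPadcGP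

open TensorProduct Polynomial

universe u v w

private lemma END_lin {k : Type*} [Field k] {F : Type} [Fintype F] [DecidableEq F] {S : Type*} (c : F → (S → k))
    (hc : LinearIndependent k c) : ∃ s : F → S, (Matrix.of fun f f' => c f' (s f)).det ≠ 0 := by
  classical
  set v : S → (F → k) := fun s f => c f s with hv
  have hspan : Submodule.span k (Set.range v) = ⊤ := by
    by_contra hne
    obtain ⟨φ, hφ0, hφ⟩ := Submodule.exists_le_ker_of_lt_top _ (lt_top_iff_ne_top.2 hne)
    apply hφ0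
    have h1 : ∑ f, φ (Pi.single f 1) • c f = 0 := by
      ext s
      have h2 : φ (v s) = 0 := hφ (Submodule.subset_span ⟨s, rfl⟩)
      rw [LinearMap.pi_apply_eq_sum_univ φ (v s)] at h2
      rw [Finset.sum_apply, Pi.zero_apply, ← h2]
      refine Finset.sum_congr rfl fun f _ => ?_
      have h3 : (Pi.single f (1 : k) : F → k) = fun j => if f = j then 1 else 0 := by
        ext j
        rw [Pi.single_apply]
        simp only [eq_comm]
      rw [Pi.smul_apply, smul_eq_mul, smul_eq_mul, mul_comm, h3]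
    have h4 := Fintype.linearIndependent_iff.1 hc _ h1
    refine LinearMap.pi_ext' fun f => ?_
    ext
    simpa using h4 f
  obtain ⟨b, hb, hbs, hbi⟩ := exists_linearIndependent k (Set.range v)
  rw [hspan] at hbs
  let B : Module.Basis b k (F → k) := Module.Basis.mk hbi (by rw [Subtype.range_coe, hbs])
  have : Fintype b := FiniteDimensional.fintypeBasisIndex B
  have hcard : Fintype.card F = Fintype.card b := by
    rw [← Module.finrank_eq_card_basis B, Module.finrank_fintype_fun_eq_card]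
  let e : F ≃ b := Fintype.equivOfCardEq hcard
  have hs : ∀ f : F, ∃ s : S, v s = (e f : F → k) := fun f => hb (e f).2
  choose s hs using hs
  refine ⟨s, ?_⟩
  have hli : LinearIndependent k (fun f => v (s f)) := by
    rw [show (fun f => v (s f)) = fun f => ((e f : b) : F → k) from funext hs]
    exact hbi.comp e e.injective
  have hu := (Matrix.linearIndependent_rows_iff_isUnit (A := (Matrix.of fun f f' => c f' (s f)))).1 hli
  exact ((Matrix.isUnit_iff_isUnit_det _).1 hu).ne_zero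

private lemma END_std {k : Type u} [Field k] {r : ℕ} (m : MonomialOrder (Fin r)) (I : Ideal (MvPolynomial (Fin r) k)) :
    ∃ G : Set (MvPolynomial (Fin r) k), G.Finite ∧ (∀ g ∈ G, g ∈ I) ∧ (∀ g ∈ G, m.leadingCoeff g = 1) ∧
      ∀ f ∈ I, f ≠ 0 → ∃ g ∈ G, m.degree g ≤ m.degree f := by
  classical
  have hpwo := Set.isPWO_of_wellQuasiOrderedLE {d : Fin r →₀ ℕ | ∃ f ∈ I, f ≠ 0 ∧ m.degree f = d}
  have hfin := (setOfPred_minimal_antichain (· ∈ {d : Fin r →₀ ℕ | ∃ f ∈ I, f ≠ 0 ∧ m.degree f = d})).finite_of_partiallyWellOrderedOn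
    (hpwo.mono (setOfPred_minimal_subset _))
  have hch : ∀ d : Fin r →₀ ℕ, d ∈ {d : Fin r →₀ ℕ | ∃ f ∈ I, f ≠ 0 ∧ m.degree f = d} →
      ∃ g ∈ I, m.leadingCoeff g = 1 ∧ m.degree g = d := by
    rintro d ⟨f, hf, hf0, rfl⟩
    have hl : m.leadingCoeff f ≠ 0 := m.leadingCoeff_ne_zero_iff.2 hf0
    have hdeg : m.degree ((m.leadingCoeff f)⁻¹ • f) = m.degree f :=
      m.degree_smul_of_isRegular (IsRegular.of_ne_zero (inv_ne_zero hl))
    refine ⟨(m.leadingCoeff f)⁻¹ • f, ?_, ?_, hdeg⟩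
    · rw [MvPolynomial.smul_eq_C_mul]
      exact I.mul_mem_left _ hf
    · rw [MonomialOrder.leadingCoeff, hdeg, MvPolynomial.coeff_smul, smul_eq_mul]
      exact inv_mul_cancel₀ hl
  choose! g hgI hg1 hgd using hch
  refine ⟨g '' {d | Minimal (· ∈ {d : Fin r →₀ ℕ | ∃ f ∈ I, f ≠ 0 ∧ m.degree f = d}) d}, hfin.image _, ?_, ?_, ?_⟩
  · rintro _ ⟨d, hd, rfl⟩
    exact hgI d hd.1
  · rintro _ ⟨d, hd, rfl⟩
    exact hg1 d hd.1
  · intro f hf hf0
    obtain ⟨d, hd, hd'⟩ := hpwo.exists_le_minimal (⟨f, hf, hf0, rfl⟩ : m.degree f ∈ {d : Fin r →₀ ℕ | ∃ f ∈ I, f ≠ 0 ∧ m.degree f = d})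
    exact ⟨g d, ⟨d, hd', rfl⟩, by rw [hgd d hd'.1]; exact hd⟩

private lemma END_rem {k : Type*} [Field k] {A : Type*} [CommRing A] (φ : A →+* k) (hφ : Function.Injective φ) {r : ℕ}
    (m : MonomialOrder (Fin r)) (G : Set (MvPolynomial (Fin r) k)) (hG1 : ∀ g ∈ G, m.leadingCoeff g = 1)
    (hGA : ∀ g ∈ G, ∃ g', MvPolynomial.map φ g' = g) (P : MvPolynomial (Fin r) A) :
    ∃ R : MvPolynomial (Fin r) A, MvPolynomial.map φ P - MvPolynomial.map φ R ∈ Ideal.span G ∧
      ∀ c ∈ R.support, ∀ g ∈ G, ¬ m.degree g ≤ c := by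
  classical
  choose! l hl using hGA
  have hdeg : ∀ g ∈ G, m.degree (l g) = m.degree g := by
    intro g hg
    have : (l g).support = g.support := by
      conv_rhs => rw [← hl g hg]
      rw [MvPolynomial.support_map_of_injective _ hφ]
    rw [MonomialOrder.degree, MonomialOrder.degree, this]
  have hlc : ∀ g : G, m.leadingCoeff (l g) = 1 := by
    intro g
    apply hφ
    rw [MonomialOrder.leadingCoeff, ← MvPolynomial.coeff_map, hl g g.2, hdeg g g.2, map_one]
    exact hG1 g g.2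
  obtain ⟨q, R, h1, -, h3⟩ := m.div (b := fun g : G => l g) (fun g => by rw [hlc g]; exact isUnit_one) P
  refine ⟨R, ?_, fun c hc g hg => by rw [← hdeg g hg]; exact h3 c hc ⟨g, hg⟩⟩
  rw [← map_sub, h1, add_sub_cancel_right, Finsupp.linearCombination_apply, Finsupp.sum, map_sum]
  refine Ideal.sum_mem _ fun g _ => ?_
  rw [smul_eq_mul, map_mul, hl g g.2]
  exact Ideal.mul_mem_left _ _ (Ideal.subset_span g.2)

private lemma END_lift {k : Type*} [Field k] (A' : Subalgebra ℤ k) {r : ℕ} (g : MvPolynomial (Fin r) k)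
    (hg : ∀ s, g.coeff s ∈ A') : ∃ g' : MvPolynomial (Fin r) A', MvPolynomial.map (algebraMap A' k) g' = g := by
  refine ⟨∑ s ∈ g.support, MvPolynomial.monomial s ⟨g.coeff s, hg s⟩, ?_⟩
  rw [map_sum]
  conv_rhs => rw [← MvPolynomial.support_sum_monomial_coeff g]
  refine Finset.sum_congr rfl fun s _ => ?_
  rw [MvPolynomial.map_monomial]
  rfl

private lemma END_alg {k : Type u} [Field k] {A₀ : Subalgebra ℤ k} (hA₀ : A₀.FG) {C₀ : Type u} [CommRing C₀]
    [Algebra A₀ C₀] [Algebra.FiniteType A₀ C₀] :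
    ∃ (A' : Subalgebra ℤ k) (S : Type) (c : k ⊗[A₀] C₀ →ₗ[k] (S → k)), A'.FG ∧ A₀ ≤ A' ∧ Function.Injective c ∧
      ∀ x s, c ((1 : k) ⊗ₜ[A₀] x) s ∈ A' := by
  classical
  obtain ⟨r, π₀, hπ₀⟩ := Algebra.FiniteType.iff_quotient_mvPolynomial''.1 (inferInstance : Algebra.FiniteType A₀ C₀)
  let m : MonomialOrder (Fin r) := MonomialOrder.lex
  let π : MvPolynomial (Fin r) k →ₐ[k] k ⊗[A₀] C₀ := MvPolynomial.aeval fun i => (1 : k) ⊗ₜ[A₀] π₀ (MvPolynomial.X i)
  have hπ : ∀ P : MvPolynomial (Fin r) A₀, π (MvPolynomial.map (algebraMap A₀ k) P) = (1 : k) ⊗ₜ[A₀] π₀ P := by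
    intro P
    have h1 : π (MvPolynomial.map (algebraMap A₀ k) P) =
        MvPolynomial.aeval (fun i => (1 : k) ⊗ₜ[A₀] π₀ (MvPolynomial.X i)) P :=
      MvPolynomial.aeval_map_algebraMap k _ P
    have h2 : (MvPolynomial.aeval (fun i => (1 : k) ⊗ₜ[A₀] π₀ (MvPolynomial.X i)) : MvPolynomial (Fin r) A₀ →ₐ[A₀] k ⊗[A₀] C₀)
        = (Algebra.TensorProduct.includeRight : C₀ →ₐ[A₀] k ⊗[A₀] C₀).comp π₀ := by
      refine MvPolynomial.algHom_ext fun i => ?_
      rw [MvPolynomial.aeval_X]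
      rfl
    rw [h1, h2]
    rfl
  have hsurj : Function.Surjective π := by
    intro t
    induction t using TensorProduct.induction_on with
    | zero => exact ⟨0, map_zero _⟩
    | tmul a x =>
      obtain ⟨P, rfl⟩ := hπ₀ x
      refine ⟨a • MvPolynomial.map (algebraMap A₀ k) P, ?_⟩
      rw [map_smul, hπ P, TensorProduct.smul_tmul', smul_eq_mul, mul_one]
    | add x y hx hy =>
      obtain ⟨P, rfl⟩ := hx
      obtain ⟨Q, rfl⟩ := hy
      exact ⟨P + Q, map_add _ _ _⟩
  obtain ⟨G, hGf, hGI, hG1, hG⟩ := END_std m (RingHom.ker π)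
  let T : Finset k := hGf.toFinset.biUnion fun g => g.support.image g.coeff
  let A' : Subalgebra ℤ k := A₀ ⊔ Algebra.adjoin ℤ (T : Set k)
  have hA0 : A₀ ≤ A' := le_sup_left
  have hA1 : ∀ g ∈ G, ∀ s, g.coeff s ∈ A' := by
    intro g hg s
    by_cases hs : s ∈ g.support
    · refine (le_sup_right : Algebra.adjoin ℤ (T : Set k) ≤ A') (Algebra.subset_adjoin ?_)
      exact Finset.mem_coe.2 (Finset.mem_biUnion.2 ⟨g, hGf.mem_toFinset.2 hg, Finset.mem_image_of_mem _ hs⟩)
    · rw [MvPolynomial.notMem_support_iff.1 hs]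
      exact A'.zero_mem
  let W : Submodule k (MvPolynomial (Fin r) k) :=
    MvPolynomial.restrictSupport k {c : Fin r →₀ ℕ | ∀ g ∈ G, ¬ m.degree g ≤ c}
  have hW : ∀ f, f ∈ W ↔ ∀ c ∈ f.support, ∀ g ∈ G, ¬ m.degree g ≤ c := by
    intro f
    rfl
  let ρ : W →ₗ[k] k ⊗[A₀] C₀ := π.toLinearMap.comp W.subtype
  have hρi : Function.Injective ρ := by
    rw [← LinearMap.ker_eq_bot, LinearMap.ker_eq_bot']
    rintro ⟨f, hf⟩ h0
    by_contra hne
    have hf0 : f ≠ 0 := fun h => hne (Subtype.ext h)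
    obtain ⟨g, hg, hle⟩ := hG f (RingHom.mem_ker.2 h0) hf0
    exact (hW f).1 hf _ (m.degree_mem_support hf0) g hg hle
  have hρs : Function.Surjective ρ := by
    intro t
    obtain ⟨f, rfl⟩ := hsurj t
    obtain ⟨R, hR1, hR2⟩ := END_rem (RingHom.id k) Function.injective_id m G hG1 (fun g _ => ⟨g, MvPolynomial.map_id g⟩) f
    rw [MvPolynomial.map_id, MvPolynomial.map_id] at hR1
    refine ⟨⟨R, (hW R).2 hR2⟩, ?_⟩
    have h4 : f - R ∈ RingHom.ker π := (Ideal.span_le.2 hGI) hR1
    rw [RingHom.mem_ker, map_sub, sub_eq_zero] at h4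
    exact h4.symm
  let e : W ≃ₗ[k] k ⊗[A₀] C₀ := LinearEquiv.ofBijective ρ ⟨hρi, hρs⟩
  refine ⟨A', Fin r →₀ ℕ, (LinearMap.pi fun s => (MvPolynomial.lcoeff k s).comp W.subtype).comp e.symm.toLinearMap, ?_, hA0, ?_, ?_⟩
  · exact hA₀.sup (Subalgebra.fg_adjoin_finset T)
  · intro x y hxy
    refine e.symm.injective (Subtype.ext (MvPolynomial.ext _ _ fun s => ?_))
    exact congrFun hxy s
  · intro x s
    obtain ⟨P, rfl⟩ := hπ₀ x
    have hmap : MvPolynomial.map (algebraMap A₀ k) P = MvPolynomial.map (algebraMap A' k) (MvPolynomial.map (Subalgebra.inclusion hA0).toRingHom P) := by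
      rw [MvPolynomial.map_map]
      rfl
    obtain ⟨R, hR1, hR2⟩ := END_rem (algebraMap A' k) Subtype.val_injective m G hG1
      (fun g hg => END_lift A' g (hA1 g hg)) (MvPolynomial.map (Subalgebra.inclusion hA0).toRingHom P)
    rw [← hmap] at hR1
    have hRW : MvPolynomial.map (algebraMap A' k) R ∈ W := by
      rw [hW]
      intro c hc
      exact hR2 c (MvPolynomial.support_map_subset _ _ hc)
    have h5 : e ⟨_, hRW⟩ = (1 : k) ⊗ₜ[A₀] π₀ P := by
      rw [← hπ]
      have h4 : MvPolynomial.map (algebraMap A₀ k) P - MvPolynomial.map (algebraMap A' k) R ∈ RingHom.ker π :=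
        (Ideal.span_le.2 hGI) hR1
      rw [RingHom.mem_ker, map_sub, sub_eq_zero] at h4
      exact h4.symm
    rw [← h5]
    have h6 : ((LinearMap.pi fun s => (MvPolynomial.lcoeff k s).comp W.subtype).comp e.symm.toLinearMap) (e ⟨_, hRW⟩) s
        = MvPolynomial.coeff s (MvPolynomial.map (algebraMap A' k) R) := by
      rw [LinearMap.comp_apply, LinearEquiv.coe_coe, LinearEquiv.symm_apply_apply]
      rfl
    rw [h6, MvPolynomial.coeff_map]
    exact (MvPolynomial.coeff s R).2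

/-- BLOCK D1. Functionals which detect finitely many elements of a module, integral over a finitely generated ring.

Proof. (a) One element `ω ≠ 0`: `B = k ⊗ B₀` is a finitely generated `k`-algebra, `V = k ⊗ N` a finite `B`-module; by
Krull's intersection theorem there are a maximal ideal `𝔪` of `B` and `s` with `ω ∉ 𝔪 ^ s • ⊤` (localize at a maximal
ideal which contains the annihilator of `ω`). `B / 𝔪 = k` (Nullstellensatz), so `V / 𝔪 ^ s V` is finite over `k`
(induction on `s`) and there is a functional `τ` of `V` which kills `𝔪 ^ s V` with `τ ω ≠ 0`. Let `s_1, …, s_N` generate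
`B₀` over `A₀`, `x_i ∈ k` with `1 ⊗ s_i - x_i ∈ 𝔪`, `e_1, …, e_M` generate `N` over `B₀`. `N` is spanned over `A₀` by the
`s^α e_j`; over the ring `A' ⊇ A₀` generated by the `x_i` and the finitely many values
`τ (∏ (s_i - x_i)^(α_i) e_j)`, `|α| < s`, all values of `τ` on `1 ⊗ N` are in `A'` (expand `s_i = x_i + (s_i - x_i)`; the
products with `|α| ≥ s` are killed).
(b) Finitely many independent `ω_f`: the functionals of (a) have no common kernel on the span of the `ω_f`, so finitely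
many of them give a matrix with determinant `≠ 0` (choose a basis of the dual space among them). -/
theorem en_det {k : Type u} [Field k] [IsAlgClosed k] {A₀ : Subalgebra ℤ k} (hA₀ : A₀.FG) {B₀ : Type u} [CommRing B₀]
    [Algebra A₀ B₀] [Algebra.FiniteType A₀ B₀] {N : Type u} [AddCommGroup N] [Module A₀ N] [Module B₀ N]
    [IsScalarTower A₀ B₀ N] [Module.Finite B₀ N] {F : Type} [Fintype F] [DecidableEq F] (ω : F → k ⊗[A₀] N)
    (hω : LinearIndependent k ω) :
    ∃ (A' : Subalgebra ℤ k) (τ : F → (k ⊗[A₀] N →ₗ[k] k)), A'.FG ∧ A₀ ≤ A' ∧ (∀ f x, τ f ((1 : k) ⊗ₜ[A₀] x) ∈ A') ∧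
      (Matrix.of fun f f' => τ f (ω f')).det ≠ 0 := by
  classical
  let _ : Module B₀ᵐᵒᵖ N := Module.compHom N ((RingHom.id B₀).fromOpposite fun a b => mul_comm a b)
  have : IsCentralScalar B₀ N := ⟨fun r n => rfl⟩
  have : Module.Finite B₀ (TrivSqZeroExt B₀ N) := (inferInstance : Module.Finite B₀ (B₀ × N))
  have : IsScalarTower A₀ B₀ᵐᵒᵖ N := ⟨fun a b n => smul_assoc a b.unop n⟩
  have : Algebra.FiniteType A₀ (TrivSqZeroExt B₀ N) :=
    Algebra.FiniteType.trans (inferInstance : Algebra.FiniteType A₀ B₀) inferInstance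
  obtain ⟨A', S, c, hA', hle, hc, hcA⟩ := END_alg hA₀ (C₀ := TrivSqZeroExt B₀ N)
  let inr' : N →ₗ[A₀] TrivSqZeroExt B₀ N := (TrivSqZeroExt.inrHom B₀ N).restrictScalars A₀
  let snd' : TrivSqZeroExt B₀ N →ₗ[A₀] N := (TrivSqZeroExt.sndHom B₀ N).restrictScalars A₀
  let i : k ⊗[A₀] N →ₗ[k] k ⊗[A₀] TrivSqZeroExt B₀ N := inr'.baseChange k
  let j : k ⊗[A₀] TrivSqZeroExt B₀ N →ₗ[k] k ⊗[A₀] N := snd'.baseChange k
  have hji : ∀ t, j (i t) = t := by
    intro t
    have h2 : j.comp i = LinearMap.id := by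
      rw [← LinearMap.baseChange_comp, show snd'.comp inr' = LinearMap.id from LinearMap.ext fun x => rfl, LinearMap.baseChange_id]
    exact LinearMap.congr_fun h2 t
  have hi : Function.Injective i := Function.LeftInverse.injective hji
  have hli : LinearIndependent k fun f => c (i (ω f)) :=
    (hω.map' i (LinearMap.ker_eq_bot.2 hi)).map' c (LinearMap.ker_eq_bot.2 hc)
  obtain ⟨s, hs⟩ := END_lin _ hli
  refine ⟨A', fun f => (LinearMap.proj (s f)).comp (c.comp i), hA', hle, ?_, hs⟩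
  intro f x
  exact hcA (inr' x) (s f)

end MPadcGP
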