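import Mathlib

/-!
# Block D, leaf D2: primes modulo which a polynomial splits
-/

set_option autoImplicit false

namespace MPadcGP

open TensorProduct Polynomial

universe u v w

/-- a nonconstant polynomial has values divisible by arbitrarily large primes -/
private theorem D2_values (g : ℤ[X]) (hg : 0 < g.natDegree) (M : ℕ) :
    ∃ p : ℕ, M < p ∧ p.Prime ∧ ∃ n : ℤ, (p : ℤ) ∣ g.eval n := by
  by_cases h0 : g.eval 0 = 0
  · obtain ⟨p, hp1, hp2⟩ := Nat.exists_infinite_primes (M + 1)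
    exact ⟨p, by omega, hp2, 0, by rw [h0]; exact dvd_zero _⟩
  · obtain ⟨a, ha⟩ : ∃ a, a = g.eval 0 := ⟨_, rfl⟩
    rw [← ha] at h0
    have hK : ((M.factorial : ℕ) : ℤ) ≠ 0 := by exact_mod_cast M.factorial_ne_zero
    have h1 : g - C a ≠ 0 := by
      intro h
      rw [sub_eq_zero.1 h, natDegree_C] at hg
      omega
    have h2 : g + C a ≠ 0 := by
      intro h
      rw [eq_neg_of_add_eq_zero_left h, natDegree_neg, natDegree_C] at hg
      omega
    have h3 : (g - C a) * (g + C a) ≠ 0 := mul_ne_zero h1 h2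
    obtain ⟨t, ht⟩ : ∃ t : ℤ, a * (M.factorial : ℤ) * t ∉ ((g - C a) * (g + C a)).roots.toFinset := by
      have hinj : Function.Injective (fun t : ℤ => a * (M.factorial : ℤ) * t) := mul_right_injective₀ (mul_ne_zero h0 hK)
      obtain ⟨t, ht⟩ := Infinite.exists_notMem_finset
        (((g - C a) * (g + C a)).roots.toFinset.preimage _ hinj.injOn)
      exact ⟨t, fun h => ht (Finset.mem_preimage.2 h)⟩
    obtain ⟨s, hs⟩ := sub_dvd_eval_sub (a * (M.factorial : ℤ) * t) 0 g
    rw [sub_zero, ← ha] at hs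
    have hval : g.eval (a * (M.factorial : ℤ) * t) = a * (1 + (M.factorial : ℤ) * t * s) := by
      linear_combination hs
    have hne : (1 + (M.factorial : ℤ) * t * s).natAbs ≠ 1 := by
      intro h
      apply ht
      rw [Multiset.mem_toFinset, mem_roots h3, IsRoot.def, eval_mul, eval_sub, eval_add, eval_C, hval]
      rcases Int.natAbs_eq_iff.1 h with h4 | h4
      · rw [h4]
        push_cast
        ring
      · rw [h4]
        push_cast
        ring
    obtain ⟨p, hp, hd⟩ := Nat.exists_prime_and_dvd hne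
    have hd' : (p : ℤ) ∣ 1 + (M.factorial : ℤ) * t * s := Int.natCast_dvd.2 hd
    refine ⟨p, ?_, hp, a * (M.factorial : ℤ) * t, ?_⟩
    · by_contra hle
      have h5 : p ∣ M.factorial := (hp.dvd_factorial).2 (by omega)
      have h6 : (p : ℤ) ∣ (M.factorial : ℤ) * t * s :=
        Dvd.dvd.mul_right (Dvd.dvd.mul_right (Int.natCast_dvd_natCast.2 h5) t) s
      have h7 : (p : ℤ) ∣ 1 := (dvd_add_left h6).1 hd'
      have h8 : p ∣ 1 := by exact_mod_cast h7
      exact hp.one_lt.ne' (Nat.dvd_one.1 h8)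
    · rw [hval]
      exact Dvd.dvd.mul_left hd' a

/-- lifting a product of linear factors to `ℤ[Y][X]` -/
private theorem D2_lift {E : Type} [Field E] (θ : E) (D : ℤ) {p : ℕ} [Fact p.Prime] (s : Multiset E) :
    (∀ r ∈ s, ∃ Q : ℤ[X], (D : E) * r = aeval θ Q) →
    ∃ G : ℤ[X][X], G.map (aeval θ : ℤ[X] →ₐ[ℤ] E).toRingHom =
        C ((D : E) ^ s.card) * (s.map fun r => X - C r).prod ∧
      ∀ χ : ℤ[X] →+* ZMod p, (G.map χ).Splits := by
  induction s using Multiset.induction with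
  | empty =>
    intro _
    refine ⟨1, ?_, fun χ => ?_⟩
    · simp
    · rw [Polynomial.map_one]
      exact Splits.one
  | cons r s ih =>
    intro h
    obtain ⟨G, hG, hGs⟩ := ih fun r' hr' => h r' (Multiset.mem_cons_of_mem hr')
    obtain ⟨Q, hQ⟩ := h r (Multiset.mem_cons_self r s)
    refine ⟨(C (C D) * X - C Q) * G, ?_, fun χ => ?_⟩
    · rw [Polynomial.map_mul, hG, Multiset.card_cons, Multiset.map_cons, Multiset.prod_cons, Polynomial.map_sub,
        Polynomial.map_mul, map_C, map_C, map_X]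
      have h1 : (aeval θ : ℤ[X] →ₐ[ℤ] E).toRingHom (C D) = (D : E) := by
        change aeval θ (C D) = (D : E)
        rw [aeval_C]
        simp
      have h2 : (aeval θ : ℤ[X] →ₐ[ℤ] E).toRingHom Q = (D : E) * r := hQ.symm
      rw [h1, h2, pow_succ, C_mul, C_mul]
      ring
    · rw [Polynomial.map_mul]
      refine Splits.mul ?_ (hGs χ)
      rw [Polynomial.map_sub, Polynomial.map_mul, map_C, map_C, map_X]
      refine Splits.of_natDegree_le_one ?_
      compute_degree

/-- if `F` splits over a field with `D r` in `ℤ[θ]` for all roots `r` then it splits modulo the primes which divide a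
value of the minimal polynomial of `θ` -/
private theorem D2_transfer {E : Type} [Field E] [CharZero E] (θ : E) (hθ : IsIntegral ℤ θ) (D : ℤ) (F : ℤ[X])
    (hF : (F.map (Int.castRingHom E)).Splits)
    (hs : ∀ r ∈ (F.map (Int.castRingHom E)).roots, ∃ Q : ℤ[X], (D : E) * r = aeval θ Q) {p : ℕ} [Fact p.Prime]
    (hp : ((D : ℤ) : ZMod p) ≠ 0) {n : ℤ} (hn : (p : ℤ) ∣ (minpoly ℤ θ).eval n) :
    (F.map (Int.castRingHom (ZMod p))).Splits := by
  obtain ⟨G, hG, hGs⟩ := D2_lift (p := p) θ D _ hs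
  have hlc : (F.map (Int.castRingHom E)).leadingCoeff = (F.leadingCoeff : E) := by
    rw [leadingCoeff_map_of_injective (RingHom.injective_int _)]
    rfl
  obtain ⟨m, hm⟩ : ∃ m, m = (F.map (Int.castRingHom E)).roots.card := ⟨_, rfl⟩
  have hroots := hF.eq_prod_roots
  rw [hlc] at hroots
  obtain ⟨Pr, hPr⟩ : ∃ Pr, Pr = ((F.map (Int.castRingHom E)).roots.map fun r => X - C r).prod := ⟨_, rfl⟩
  rw [← hm, ← hPr] at hG
  rw [← hPr] at hroots
  obtain ⟨ψ, hψ⟩ : ∃ ψ : ℤ[X] →+* E, ψ = (aeval θ : ℤ[X] →ₐ[ℤ] E).toRingHom := ⟨_, rfl⟩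
  obtain ⟨χ, hχ⟩ : ∃ χ : ℤ[X] →+* ZMod p, χ = (Polynomial.eval₂RingHom (Int.castRingHom (ZMod p)) (n : ZMod p)) := ⟨_, rfl⟩
  rw [← hψ] at hG
  have hψC : ∀ a : ℤ, ψ (C a) = (a : E) := by
    intro a
    rw [hψ]
    change aeval θ (C a) = (a : E)
    rw [aeval_C]
    simp
  have hχC : ∀ a : ℤ, χ (C a) = (a : ZMod p) := by
    intro a
    rw [hχ]
    simp
  have hzero : (C (C (D ^ m)) * F.map C - C (C F.leadingCoeff) * G).map ψ = 0 := by
    rw [Polynomial.map_sub, Polynomial.map_mul, Polynomial.map_mul, map_C, map_C, hψC, hψC, hG, Polynomial.map_map]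
    have h1 : ψ.comp C = Int.castRingHom E := RingHom.ext_int _ _
    rw [h1]
    rw [hroots]
    push_cast
    ring
  have hzero' : (C (C (D ^ m)) * F.map C - C (C F.leadingCoeff) * G).map χ = 0 := by
    ext i
    rw [coeff_map, coeff_zero]
    have h1 : ψ ((C (C (D ^ m)) * F.map C - C (C F.leadingCoeff) * G).coeff i) = 0 := by
      rw [← coeff_map, hzero, coeff_zero]
    have h2 : minpoly ℤ θ ∣ (C (C (D ^ m)) * F.map C - C (C F.leadingCoeff) * G).coeff i := by
      rw [← minpoly.isIntegrallyClosed_dvd_iff hθ]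
      rw [hψ] at h1
      exact h1
    obtain ⟨c, hc⟩ := h2
    rw [hc, map_mul]
    have h3 : χ (minpoly ℤ θ) = 0 := by
      rw [hχ, coe_eval₂RingHom, eval₂_at_intCast]
      exact (ZMod.intCast_zmod_eq_zero_iff_dvd _ p).2 hn
    rw [h3, zero_mul]
  rw [Polynomial.map_sub, Polynomial.map_mul, Polynomial.map_mul, map_C, map_C, hχC, hχC, Polynomial.map_map, sub_eq_zero] at hzero'
  have h4 : χ.comp C = Int.castRingHom (ZMod p) := RingHom.ext_int _ _
  rw [h4] at hzero'
  have h5 : (C (((D ^ m : ℤ) : ℤ) : ZMod p) * F.map (Int.castRingHom (ZMod p))).Splits := by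
    rw [hzero']
    exact (hGs χ).C_mul _
  have h6 : F.map (Int.castRingHom (ZMod p)) =
      C ((((D ^ m : ℤ) : ℤ) : ZMod p)⁻¹) * (C (((D ^ m : ℤ) : ℤ) : ZMod p) * F.map (Int.castRingHom (ZMod p))) := by
    rw [← mul_assoc, ← C_mul, inv_mul_cancel₀, C_1, one_mul]
    push_cast
    exact pow_ne_zero _ hp
  rw [h6]
  exact h5.C_mul _

/-- an integral generator with denominators -/
private theorem D2_gen (E : Type) [Field E] [Algebra ℚ E] [FiniteDimensional ℚ E] :
    ∃ θ : E, IsIntegral ℤ θ ∧ ∀ x : E, ∃ D : ℤ, D ≠ 0 ∧ ∃ Q : ℤ[X], (D : E) * x = aeval θ Q := by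
  have : CharZero E := algebraRat.charZero E
  let pb := Field.powerBasisOfFiniteOfSeparable ℚ E
  have halg : IsAlgebraic ℤ pb.gen := (IsFractionRing.isAlgebraic_iff ℤ ℚ E).2 (Algebra.IsAlgebraic.isAlgebraic pb.gen)
  obtain ⟨y, hy0, hy⟩ := halg.exists_integral_multiple
  refine ⟨y • pb.gen, hy, fun x => ?_⟩
  obtain ⟨P, hP⟩ := pb.exists_eq_aeval' x
  have hyE : ((y : ℤ) : E) ≠ 0 := Int.cast_ne_zero.2 hy0
  obtain ⟨P', hP'⟩ : ∃ P' : ℚ[X], x = aeval (y • pb.gen) P' := by
    refine ⟨P.comp (C ((y : ℚ)⁻¹) * X), ?_⟩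
    rw [aeval_comp, map_mul, aeval_X, aeval_C, hP]
    congr 1
    rw [zsmul_eq_mul, ← mul_assoc]
    have h1 : (algebraMap ℚ E) ((y : ℚ)⁻¹) * (y : E) = 1 := by
      rw [map_inv₀, map_intCast, inv_mul_cancel₀ hyE]
    rw [h1, one_mul]
  obtain ⟨b, hb0, hb⟩ := IsLocalization.integerNormalization_spec (nonZeroDivisors ℤ) P'
  refine ⟨b, nonZeroDivisors.ne_zero hb0, IsLocalization.integerNormalization (nonZeroDivisors ℤ) P', ?_⟩
  have h2 : aeval (y • pb.gen) ((IsLocalization.integerNormalization (nonZeroDivisors ℤ) P').map (algebraMap ℤ ℚ)) =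
      aeval (y • pb.gen) (IsLocalization.integerNormalization (nonZeroDivisors ℤ) P') := aeval_map_algebraMap _ _ _
  rw [← h2, hb, map_zsmul, ← hP', zsmul_eq_mul]

/-- a common denominator -/
private theorem D2_common {E : Type} [Field E] (θ : E)
    (h : ∀ x : E, ∃ D : ℤ, D ≠ 0 ∧ ∃ Q : ℤ[X], (D : E) * x = aeval θ Q) (s : Multiset E) :
    ∃ D : ℤ, D ≠ 0 ∧ ∀ r ∈ s, ∃ Q : ℤ[X], (D : E) * r = aeval θ Q := by
  induction s using Multiset.induction with
  | empty => exact ⟨1, one_ne_zero, fun r hr => absurd hr (Multiset.notMem_zero r)⟩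
  | cons a s ih =>
    obtain ⟨D, hD, h1⟩ := ih
    obtain ⟨D', hD', Q', h2⟩ := h a
    refine ⟨D * D', mul_ne_zero hD hD', fun r hr => ?_⟩
    rcases Multiset.mem_cons.1 hr with rfl | hr
    · refine ⟨C D * Q', ?_⟩
      rw [map_mul, ← h2, aeval_C]
      push_cast
      simp only [algebraMap_int_eq, eq_intCast]
      ring
    · obtain ⟨Q, hQ⟩ := h1 r hr
      refine ⟨C D' * Q, ?_⟩
      rw [map_mul, ← hQ, aeval_C]
      push_cast
      simp only [algebraMap_int_eq, eq_intCast]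
      ring

/-- BLOCK D2. Infinitely many primes `p` with `p = 1` modulo `e` for which `F` splits modulo `p`.

Proof. Let `c` be the leading coefficient of `F`, `F' = F * (X ^ e - 1)`, `E` a splitting field over `ℚ`, `θ` an integral
element of `E` such that all roots of `F'` are in `ℤ[θ][1/d]`, `c ∣ d` (primitive element theorem), `g` its minimal polynomial; infinitely many `p` divide a value
of `g` (`p ∣ g(n)`: the usual argument with `g (g(0) N! x) / g(0)`); such a `p > N, d` gives a homomorphism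
`ℤ[θ][1/d] → 𝔽_p`, `θ ↦ n`, so `F'` has all its roots in `𝔽_p`; `X ^ e - 1` splits with `e` different roots, so
`e ∣ p - 1`. (Or: a homomorphism from the finitely generated domain `ℤ[roots]` to a finite field, plus the
norm / residue degree one argument, whatever is in Mathlib or in the library of the project.) -/
theorem en_primes (F : ℤ[X]) (hF : F ≠ 0) (e : ℕ) (he : 0 < e) (N : ℕ) :
    ∃ p : ℕ, N < p ∧ p.Prime ∧ p ≡ 1 [MOD e] ∧ (F.map (Int.castRingHom (ZMod p))).Splits := by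
  obtain ⟨F', hF'⟩ : ∃ F' : ℤ[X], F' = F * cyclotomic e ℤ := ⟨_, rfl⟩
  have hF0 : F' ≠ 0 := by
    rw [hF']
    exact mul_ne_zero hF (cyclotomic_ne_zero e ℤ)
  let E := SplittingField (F'.map (Int.castRingHom ℚ))
  obtain ⟨θ, hθ, hgen⟩ := D2_gen E
  have : CharZero E := algebraRat.charZero E
  have hsp : (F'.map (Int.castRingHom E)).Splits := by
    have h1 := SplittingField.splits (F'.map (Int.castRingHom ℚ))
    have h2 : ∀ f : ℤ →+* E, f = Int.castRingHom E := fun f => RingHom.ext_int _ _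
    rw [Polynomial.map_map, h2 (RingHom.comp _ _)] at h1
    exact h1
  obtain ⟨D, hD, hs⟩ := D2_common θ hgen (F'.map (Int.castRingHom E)).roots
  have hdeg : 0 < (minpoly ℤ θ).natDegree := minpoly.natDegree_pos hθ
  obtain ⟨p, hpM, hp, n, hn⟩ := D2_values (minpoly ℤ θ) hdeg (N + e + D.natAbs + F'.leadingCoeff.natAbs)
  have : Fact p.Prime := ⟨hp⟩
  have hnz : ∀ z : ℤ, z ≠ 0 → z.natAbs < p → ((z : ℤ) : ZMod p) ≠ 0 := by
    intro z hz hlt h
    have h1 := (ZMod.intCast_zmod_eq_zero_iff_dvd z p).1 h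
    have h2 : p ∣ z.natAbs := Int.natCast_dvd.1 h1
    have h3 := Nat.le_of_dvd (Int.natAbs_pos.2 hz) h2
    omega
  have hDp : ((D : ℤ) : ZMod p) ≠ 0 := hnz D hD (by omega)
  have hsplit := D2_transfer θ hθ D F' hsp hs hDp hn
  have hne : F'.map (Int.castRingHom (ZMod p)) ≠ 0 := by
    intro h
    have h1 := congrArg (fun P => coeff P F'.natDegree) h
    simp only [coeff_map, coeff_zero, coeff_natDegree] at h1
    exact hnz F'.leadingCoeff (leadingCoeff_ne_zero.2 hF0) (by omega) h1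
  have hmap : F'.map (Int.castRingHom (ZMod p)) =
      F.map (Int.castRingHom (ZMod p)) * cyclotomic e (ZMod p) := by
    rw [hF', Polynomial.map_mul, map_cyclotomic]
  have hsF : (F.map (Int.castRingHom (ZMod p))).Splits :=
    hsplit.of_dvd hne (by rw [hmap]; exact dvd_mul_right _ _)
  have hsC : (cyclotomic e (ZMod p)).Splits :=
    hsplit.of_dvd hne (by rw [hmap]; exact dvd_mul_left _ _)
  refine ⟨p, by omega, hp, ?_, hsF⟩
  have hdegC : (cyclotomic e (ZMod p)).degree ≠ 0 := by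
    rw [degree_cyclotomic]
    have h1 : 0 < e.totient := Nat.totient_pos.2 he
    exact_mod_cast h1.ne'
  obtain ⟨ζ, hζ⟩ := hsC.exists_eval_eq_zero hdegC
  have : NeZero ((e : ℕ) : ZMod p) := ⟨by
    have h1 := hnz (e : ℤ) (by exact_mod_cast he.ne') (by rw [Int.natAbs_natCast]; omega)
    exact_mod_cast h1⟩
  have hprim : IsPrimitiveRoot ζ e := isRoot_cyclotomic_iff.1 hζ
  have hζ0 : ζ ≠ 0 := hprim.ne_zero he.ne'
  have h1 : e ∣ p - 1 := by
    rw [hprim.eq_orderOf]
    exact ZMod.orderOf_dvd_card_sub_one hζ0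
  exact ((Nat.modEq_iff_dvd' hp.one_lt.le).2 h1).symm

end MPadcGP
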