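import Mathlib

/-!
# Block D3: the rank of a projector
-/

set_option autoImplicit false

namespace MPadcGP

open TensorProduct Polynomial

universe u v w

private theorem D3_charpoly {K : Type u} [Field K] {B : Type} [Fintype B] [DecidableEq B]
    (E : Matrix B B K) (hE : E * E = E) :
    ∃ s : ℕ, E.charpoly = (X - 1) ^ (Module.finrank K ↥(LinearMap.range E.mulVecLin)) * X ^ s := by
  have h1 : IsIdempotentElem E.mulVecLin := by
    change E.mulVecLin ∘ₗ E.mulVecLin = E.mulVecLin
    rw [← Matrix.mulVecLin_mul, hE]
  have h2 := LinearMap.IsIdempotentElem.isProj_range E.mulVecLin h1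
  have h3 := congrArg LinearMap.charpoly h2.eq_conj_prodMap
  have h4 : E.mulVecLin.charpoly = E.charpoly := Matrix.charpoly_toLin' E
  rw [h4, LinearEquiv.charpoly_conj, LinearMap.charpoly_prodMap] at h3
  refine ⟨Module.finrank K ↥(LinearMap.ker E.mulVecLin), ?_⟩
  rw [h3, LinearMap.charpoly_zero]
  congr 1
  exact LinearMap.charpoly_one

/-- BLOCK D3. The rank of a projector over a domain does not change under a ring homomorphism to a field.

Proof. `det (1 + (X - 1) e) = X ^ rank` over every field (a projector is similar to a diagonal matrix with entries `0`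
and `1`); so in `A[X]` by the injectivity of `j`, so over `κ`. -/
theorem en_rank {A : Type u} [CommRing A] {k : Type u} [Field k] {j : A →+* k} (hj : Function.Injective j)
    {κ : Type u} [Field κ] (φ : A →+* κ) {B : Type} [Fintype B] [DecidableEq B] (e : Matrix B B A) (he : e * e = e) :
    Module.finrank k ↥(LinearMap.range (e.map j).mulVecLin) = Module.finrank κ ↥(LinearMap.range (e.map φ).mulVecLin) := by
  have hej : e.map j * e.map j = e.map j := by
    rw [← Matrix.map_mul, he]
  have heφ : e.map φ * e.map φ = e.map φ := by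
    rw [← Matrix.map_mul, he]
  obtain ⟨s, hs⟩ := D3_charpoly (e.map j) hej
  obtain ⟨t, ht⟩ := D3_charpoly (e.map φ) heφ
  rw [Matrix.charpoly_map] at hs ht
  have h1 : e.charpoly = (X - 1) ^ (Module.finrank k ↥(LinearMap.range (e.map j).mulVecLin)) * X ^ s := by
    apply Polynomial.map_injective j hj
    rw [hs, Polynomial.map_mul, Polynomial.map_pow, Polynomial.map_pow, Polynomial.map_sub,
      Polynomial.map_X, Polynomial.map_one]
  rw [h1, Polynomial.map_mul, Polynomial.map_pow, Polynomial.map_pow, Polynomial.map_sub,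
    Polynomial.map_X, Polynomial.map_one] at ht
  have key : ∀ r n : ℕ, rootMultiplicity 1 ((X - 1 : κ[X]) ^ r * X ^ n) = r := by
    intro r n
    have h2 : (X - 1 : κ[X]) = X - C 1 := by rw [C_1]
    have h3 : (X - 1 : κ[X]) ^ r ≠ 0 := by
      rw [h2]
      exact pow_ne_zero _ (X_sub_C_ne_zero 1)
    have h4 : (X : κ[X]) ^ n ≠ 0 := pow_ne_zero _ X_ne_zero
    rw [rootMultiplicity_mul (mul_ne_zero h3 h4)]
    rw [h2, rootMultiplicity_X_sub_C_pow, rootMultiplicity_eq_zero, add_zero]
    rw [IsRoot.def, eval_pow, eval_X, one_pow]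
    exact one_ne_zero
  have h5 := congrArg (rootMultiplicity 1) ht
  rw [key, key] at h5
  exact h5

end MPadcGP
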