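import Pool.Agent.Lib.MP_adc574_ag_EN.Int
import Pool.Agent.Lib.MP_adc574_ag_EN.D3

/-!
# The rank of a projector on the Hodge filtration
-/

set_option autoImplicit false

namespace MPadcGP

universe u v w

/-- Extension by zero. -/
private noncomputable def d4ext {B : Type} (lev : B → ℕ) (E : Type u) [Field E] :
    ({b : B // 1 ≤ lev b} → E) →ₗ[E] (B → E) where
  toFun y b := if h : 1 ≤ lev b then y ⟨b, h⟩ else 0
  map_add' x y := by
    funext b
    by_cases h : 1 ≤ lev b <;> simp [h]
  map_smul' c x := by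
    funext b
    by_cases h : 1 ≤ lev b <;> simp [h]

private theorem d4ext_pos {B : Type} (lev : B → ℕ) {E : Type u} [Field E] (y : {b : B // 1 ≤ lev b} → E) (b : B)
    (h : 1 ≤ lev b) : d4ext lev E y b = y ⟨b, h⟩ := dif_pos h

private theorem d4ext_neg {B : Type} (lev : B → ℕ) {E : Type u} [Field E] (y : {b : B // 1 ≤ lev b} → E) (b : B)
    (h : ¬ 1 ≤ lev b) : d4ext lev E y b = 0 := dif_neg h

private theorem d4ext_inj {B : Type} (lev : B → ℕ) {E : Type u} [Field E] : Function.Injective (d4ext lev E) := by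
  intro x y hxy
  funext b
  have h := congrFun hxy b.1
  rw [d4ext_pos lev x b.1 b.2, d4ext_pos lev y b.1 b.2] at h
  exact h

private theorem d4key {A : Type u} [CommRing A] {E : Type u} [Field E] (ψ : A →+* E) {B : Type} [Fintype B]
    (lev : B → ℕ) (e : Matrix B B A) (hfil : ∀ b b', 1 ≤ lev b → lev b' < 1 → e b' b = 0)
    (z : {b : B // 1 ≤ lev b} → E) :
    (e.map ψ).mulVec (d4ext lev E z) = d4ext lev E (((e.submatrix Subtype.val Subtype.val).map ψ).mulVec z) := by
  funext b
  have h1 : (e.map ψ).mulVec (d4ext lev E z) b = ∑ c : {b : B // 1 ≤ lev b}, ψ (e b c.1) * z c := by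
    show ∑ c, (e.map ψ) b c * d4ext lev E z c = _
    rw [← Fintype.sum_subtype_add_sum_subtype (fun c => 1 ≤ lev c) (fun c => (e.map ψ) b c * d4ext lev E z c)]
    have h2 : ∑ i : {x // ¬ 1 ≤ lev x}, (e.map ψ) b i.1 * d4ext lev E z i.1 = 0 := by
      refine Finset.sum_eq_zero fun i _ => ?_
      rw [d4ext_neg lev z i.1 i.2, mul_zero]
    rw [h2, add_zero]
    refine Finset.sum_congr rfl fun c _ => ?_
    rw [d4ext_pos lev z c.1 c.2]
    rfl
  rw [h1]
  by_cases hb : 1 ≤ lev b
  · rw [d4ext_pos lev _ b hb]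
    rfl
  · rw [d4ext_neg lev _ b hb]
    refine Finset.sum_eq_zero fun c _ => ?_
    rw [hfil c.1 b c.2 (not_le.1 hb), map_zero, zero_mul]

private theorem d4rank {A : Type u} [CommRing A] {E : Type u} [Field E] (ψ : A →+* E) {B : Type} [Fintype B]
    [DecidableEq B] (lev : B → ℕ) (e : Matrix B B A) (he : e * e = e)
    (hfil : ∀ b b', 1 ≤ lev b → lev b' < 1 → e b' b = 0) :
    Module.finrank E ↥(flt lev E 1 ⊓ LinearMap.range (e.map ψ).mulVecLin) =
      Module.finrank E ↥(LinearMap.range ((e.submatrix Subtype.val Subtype.val :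
        Matrix {b : B // 1 ≤ lev b} {b : B // 1 ≤ lev b} A).map ψ).mulVecLin) := by
  have hee : (e.map ψ) * (e.map ψ) = e.map ψ := by
    rw [← Matrix.map_mul, he]
  have hmap : (LinearMap.range ((e.submatrix Subtype.val Subtype.val :
        Matrix {b : B // 1 ≤ lev b} {b : B // 1 ≤ lev b} A).map ψ).mulVecLin).map (d4ext lev E) =
      flt lev E 1 ⊓ LinearMap.range (e.map ψ).mulVecLin := by
    ext x
    constructor
    · rintro ⟨y, ⟨z, rfl⟩, rfl⟩
      refine Submodule.mem_inf.2 ⟨?_, ?_⟩
      · intro b hb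
        exact d4ext_neg lev _ b (not_le.2 hb)
      · refine ⟨d4ext lev E z, ?_⟩
        exact d4key ψ lev e hfil z
    · intro hx
      obtain ⟨hx1, w, hw⟩ := Submodule.mem_inf.1 hx
      have hw' : (e.map ψ).mulVec w = x := hw
      have h1 : (e.map ψ).mulVec x = x := by
        rw [← hw', Matrix.mulVec_mulVec, hee]
      have h2 : d4ext lev E (fun b => x b.1) = x := by
        funext b
        by_cases hb : 1 ≤ lev b
        · rw [d4ext_pos lev _ b hb]
        · rw [d4ext_neg lev _ b hb]
          exact (hx1 b (not_le.1 hb)).symm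
      refine ⟨((e.submatrix Subtype.val Subtype.val :
        Matrix {b : B // 1 ≤ lev b} {b : B // 1 ≤ lev b} A).map ψ).mulVec (fun b => x b.1), ⟨_, rfl⟩, ?_⟩
      rw [← d4key ψ lev e hfil, h2, h1]
  rw [← hmap]
  exact ((Submodule.equivMapOfInjective (d4ext lev E) (d4ext_inj lev) _).finrank_eq).symm

/-- BLOCK D4. The same for the intersection of the image with the span of a part of the basis which is preserved.

Proof. The intersection is the image of the restriction of the projector to the vectors supported on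
`{b | 1 ≤ lev b}`, which is again given by a projector matrix, `en_rank`. -/
theorem en_rank_flt {A : Type u} [CommRing A] {k : Type u} [Field k] {j : A →+* k} (hj : Function.Injective j)
    {κ : Type u} [Field κ] (φ : A →+* κ) {B : Type} [Fintype B] [DecidableEq B] (lev : B → ℕ) (e : Matrix B B A)
    (he : e * e = e) (hfil : ∀ b b', 1 ≤ lev b → lev b' < 1 → e b' b = 0) :
    Module.finrank k ↥(flt lev k 1 ⊓ LinearMap.range (e.map j).mulVecLin) =
      Module.finrank κ ↥(flt lev κ 1 ⊓ LinearMap.range (e.map φ).mulVecLin) := by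
  rw [d4rank j lev e he hfil, d4rank φ lev e he hfil]
  refine en_rank hj φ _ ?_
  ext b b'
  show ∑ c : {b : B // 1 ≤ lev b}, e b.1 c.1 * e c.1 b'.1 = e b.1 b'.1
  have h1 : ∑ c : B, e b.1 c * e c b'.1 = e b.1 b'.1 := congrFun (congrFun he b.1) b'.1
  rw [← Fintype.sum_subtype_add_sum_subtype (fun c => 1 ≤ lev c) (fun c => e b.1 c * e c b'.1)] at h1
  have h2 : ∑ i : {x // ¬ 1 ≤ lev x}, e b.1 i.1 * e i.1 b'.1 = 0 := by
    refine Finset.sum_eq_zero fun i _ => ?_
    rw [hfil b'.1 i.1 b'.2 (not_le.1 i.2), mul_zero]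
  rw [h2, add_zero] at h1
  exact h1

end MPadcGP
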