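import Pool.Agent.Lib.MP_adc574_ag_GP.Def

/-!
# Ordinary reduction: the definitions for the version with endomorphisms of `H^1`
-/

set_option autoImplicit false

namespace OrdRed

universe u v w

section

variable {k : Type u} [Field k]

/-- The form `φ^* ω` for a homomorphism `φ` of `k`-algebras. -/
noncomputable def back {R S : Type u} [CommRing R] [CommRing S] [Algebra k R] [Algebra k S] (φ : R →ₐ[k] S) (ω : Om k R) :
    Om k S :=
  pull (φ : R →+* S) (fun a => ⟨a, φ.commutes a⟩) ω

variable {n : ℕ} (X : Cover.{u, u} k n)

/-- The cochain consists of global forms: its components on the intersections of two or more of the `U_j` vanish. -/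
def IsGlobal (c : X.Cochain) : Prop := ∀ J : Finset (Fin n), 1 < J.card → c J = 0

/-- The endomorphism `α` of `H^1_dR(X)` is geometric, with coefficients in `Λ`: it maps `F^1` to itself, and there are
an open set `U_j`, a smooth `k`-algebra `S`, homomorphisms `ψ_1, …, ψ_N, ι` from the functions on `U_j` to `S` and
`a_1, …, a_N` in `Λ` such that `∑ a_l ψ_l^* = ι^* α`: for all cocycles `c` of `x` and `c'` of `α x` the form
`∑ a_l ψ_l^* (c j) - ι^* (c' j)` is the differential of a function, and it is zero if `c` and `c'` are global forms;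
moreover `ι^*` is injective on the classes of global forms. -/
def Geometric (Λ : Set k) (α : Module.End k (X.DR 1)) : Prop :=
  (∀ x ∈ X.hodge 1 1, α x ∈ X.hodge 1 1) ∧
    ∃ (j : Fin n) (S : Type u) (_ : CommRing S) (_ : Algebra k S) (_ : Algebra.Smooth k S) (N : ℕ) (a : Fin N → k)
      (ψ : Fin N → (X.R {j} →ₐ[k] S)) (ι : X.R {j} →ₐ[k] S), (∀ l, a l ∈ Λ) ∧
      (∀ (c c' : X.Cochain) (x : X.DR 1), X.HasClass 1 c x → X.HasClass 1 c' (α x) →
        (∃ h : S, ∑ l, a l • back (ψ l) (c {j}) = back ι (c' {j}) + dif k h) ∧
        (IsGlobal X c → IsGlobal X c' → ∑ l, a l • back (ψ l) (c {j}) = back ι (c' {j}))) ∧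
      ∀ (c : X.Cochain) (x : X.DR 1), X.HasClass 1 c x → IsGlobal X c → back ι (c {j}) = 0 → x = 0

/-- `P` is stable under the endomorphism `β` of `H^1_dR(X)`, and if `β` is a projector then `P` has in its image the
dimension complementary to that of `F^1`. -/
def Compatible (P : Submodule k (X.DR 1)) (β : Module.End k (X.DR 1)) : Prop :=
  (∀ x ∈ P, β x ∈ P) ∧
    ((∀ x, β (β x) = β x) → Module.finrank k ↥(P ⊓ LinearMap.range β) +
      Module.finrank k ↥(X.hodge 1 1 ⊓ LinearMap.range β) = Module.finrank k ↥(LinearMap.range β))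

variable {M : Type w} (H : ∀ m : ℕ, M → Submodule k (X.DR m)) {r : ℕ} (α : Fin r → Module.End k (X.DR 1))

/-- The filtration `P` is in general position to the Hodge filtration: the conclusion of `General` for `P`. -/
def InPosition (P : ∀ m : ℕ, ℕ → Submodule k (X.DR m)) : Prop :=
  ∀ (m i : ℕ) (μ : M),
    Position (fun D (x y : H m μ) => X.nabla m D x y) (Module.finrank k ↥(X.hodge m (i + 1) ⊓ H m μ))
      {x | (x : X.DR m) ∈ X.hodge m (i + 1)} {x | (x : X.DR m) ∈ P m i}

/-- General position, relative to the endomorphisms `α l` of `H^1_dR(X)`: the condition `General` is only demanded for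
the filtrations `P` of conjugate type for which `P 1 0` is stable under all the `α l` and has in the image of every
`α l` which is a projector the dimension complementary to that of `F^1`. -/
def GeneralEnd : Prop :=
  ∀ P : ∀ m : ℕ, ℕ → Submodule k (X.DR m), ConjugateType X H P → (∀ l, Compatible X (P 1 0) (α l)) → InPosition X H P

end

end OrdRed
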