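import Pool.Agent.Lib.MP_adc574_ag_GP.Parts2
import Pool.Agent.Lib.MP_adc574_ag_GP.DatWb

/-!
# Leaf F1: base change of adapted bases of the graded cohomology
-/

set_option autoImplicit false
set_option linter.unusedSectionVars false

namespace MPadcGP

universe u v w

variable {M : Type} [AddCommGroup M] [Fintype M] [DecidableEq M]

section F1h

variable {A : Type u} [CommRing A] {n : ℕ} {I : Ideal (MvPolynomial (Fin n) A)} {wt : Fin n → M}
  {β : ℕ × M → Type} [∀ a, Fintype (β a)] {lev : ∀ a, β a → ℕ} {z : ∀ a, β a → (prC I).Ch}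

private theorem F1_isAd {B : Type v} [CommRing B] (φ : A →+* B)
    {I' : Ideal (MvPolynomial (Fin n) B)} (hI' : I' = bI φ I) (hI : IsHomog (bI φ I))
    (hw : IsWHomog wt (bI φ I)) (hI1 : IsHomog I') (hw1 : IsWHomog wt I')
    (hm : ∀ f ∈ I, MvPolynomial.map φ f ∈ I')
    (hz : IsAdW (grP hI hw) lev (fun a b => (prH φ I).push (z a b))) :
    IsAdW (grP hI1 hw1) lev (fun a b => (prM φ hm).push (z a b)) := by
  subst hI'
  exact hz

private theorem F1_isAd_comp {B : Type v} {C : Type w} [CommRing B] [CommRing C] (φ : A →+* B)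
    (ψ : B →+* C) (hI : IsHomog (bI (ψ.comp φ) I)) (hw : IsWHomog wt (bI (ψ.comp φ) I))
    (hI1 : IsHomog (bI ψ (bI φ I))) (hw1 : IsWHomog wt (bI ψ (bI φ I)))
    (hz : IsAdW (grP hI hw) lev (fun a b => (prH (ψ.comp φ) I).push (z a b))) :
    IsAdW (grP hI1 hw1) lev (fun a b => (prH ψ (bI φ I)).push ((prH φ I).push (z a b))) := by
  have hm : ∀ f ∈ I, MvPolynomial.map (ψ.comp φ) f ∈ bI ψ (bI φ I) := by
    intro f hf
    rw [bI_bI]
    exact bI_mem _ _ f hf
  have h1 := F1_isAd (ψ.comp φ) (bI_bI φ ψ I) hI hw hI1 hw1 hm hz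
  have h2 : (fun a (b : β a) => (prM (ψ.comp φ) hm).push (z a b)) =
      fun a b => (prH ψ (bI φ I)).push ((prH φ I).push (z a b)) := by
    funext a b
    exact (prM_push_comp φ ψ _ rfl (bI_mem φ I) (bI_mem ψ _) hm (z a b)).symm
  rw [h2] at h1
  exact h1

end F1h

/-- LEAF F1. The adapted bases of the graded cohomology are stable under base change.

Proof. As `Dat.map` (DatWb.lean) with the private lemmas `dw_isAd`, `dw_isAd_comp` for `IsAdW` instead of `IsAd`: for
`I' = bI (ψ.comp φ) I` (substitute) and `prM_push_comp`; the structures `grP` on equal ideals agree (proof irrelevance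
after the substitution). -/
theorem DatW.map {A : Type u} [CommRing A] {n : ℕ} {I : Ideal (MvPolynomial (Fin n) A)} {wt : Fin n → M}
    {hI : IsHomog I} {hw : IsWHomog wt I} {β : ℕ × M → Type} [∀ a, Fintype (β a)] [∀ a, DecidableEq (β a)]
    {lev : ∀ a, β a → ℕ} {z : ∀ a, β a → (prC I).Ch} {h : ℕ → ℕ → ℕ} (hD : DatW hI hw lev z h) {A' : Type u}
    [CommRing A'] (φ : A →+* A') :
    DatW (hI.map φ) (hw.map φ) lev (fun a b => (prH φ I).push (z a b)) h where
  self := hD.ad A' φ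
  ad B _ ψ := F1_isAd_comp φ ψ _ _ _ _ (hD.ad B (ψ.comp φ))
  hodge κ _ ψ q m := by
    rw [bI_bI]
    exact hD.hodge κ (ψ.comp φ) q m
  ad0 κ _ ψ := F1_isAd_comp φ ψ _ _ _ _ (hD.ad0 κ (ψ.comp φ))
  hodge0 κ _ ψ q m := by
    rw [bI_bI]
    exact hD.hodge0 κ (ψ.comp φ) q m
  bound := hD.bound

end MPadcGP
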