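import Pool.Agent.Lib.MP_adc574_ag_EN.Int

/-!
# Leaf SC: homomorphisms to a model
-/

set_option autoImplicit false

namespace MPadcGP

universe u v w

/-- LEAF SC. A homomorphism from the functions on a chart to `S` with the generators mapped to the subring `S₃` is a
homomorphism to `S₃`.

Proof. By `chart_ind` every `g x` is in the range of `h`; choose the (unique) preimages. -/
theorem exists_hom3 {A : Type u} [CommRing A] {S₃ : Type u} [CommRing S₃] [Algebra A S₃] {S : Type u} [CommRing S]
    {h : S₃ →+* S} (hi : Function.Injective h) {n : ℕ} (I : Ideal (MvPolynomial (Fin n) A)) (j : Fin n)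
    (g : (prC I).R {j} →+* S) (hg : ∀ a : A, g (algebraMap A _ a) = h (algebraMap A S₃ a))
    (hq : ∀ l : Fin n, ∃ s, h s = g (cq I {j} l (Finset.mem_singleton_self j))) :
    ∃ ψ : (prC I).R {j} →ₐ[A] S₃, ∀ x, h (ψ x) = g x := by
  have key : ∀ x : (prC I).R {j}, ∃ s, h s = g x := by
    intro x
    refine chart_ind (I := I) (J := {j}) (P := fun x => ∃ s, h s = g x) (fun a => ⟨algebraMap A S₃ a, (hg a).symm⟩)
      (fun l m hm => ?_) (fun x y hx hy => ?_) (fun x y hx hy => ?_) x
    · have hmj := Finset.mem_singleton.1 hm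
      subst hmj
      exact hq l
    · obtain ⟨s, hs⟩ := hx
      obtain ⟨t, ht⟩ := hy
      exact ⟨s + t, by rw [map_add, hs, ht]; exact (map_add g x y).symm⟩
    · obtain ⟨s, hs⟩ := hx
      obtain ⟨t, ht⟩ := hy
      exact ⟨s * t, by rw [map_mul, hs, ht]; exact (map_mul g x y).symm⟩
  choose ψ hψ using key
  exact ⟨{ toFun := ψ
           map_one' := hi (by rw [hψ, map_one, map_one])
           map_mul' := fun x y => hi (by rw [hψ, map_mul, map_mul, hψ, hψ])
           map_zero' := hi (by rw [hψ, map_zero, map_zero])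
           map_add' := fun x y => hi (by rw [hψ, map_add, map_add, hψ, hψ])
           commutes' := fun a => hi (by rw [hψ, hg]) }, hψ⟩

end MPadcGP
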