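import Pool.Agent.Lib.MP_adc574_ag_EN.Int

/-!
# Leaf SD1: the matrix of a geometric endomorphism
-/

set_option autoImplicit false

namespace MPadcGP

universe u v w

/-- LEAF SD1. The relation of a geometric endomorphism in coordinates.

Proof. `mat b' b = (had.eqv 1).symm (α (had.eqv 1 (Pi.single b 1))) b'`. Apply `GeoK` to the cocycles `z 1 b` and
`∑ mat b' b • z 1 b'` (`had.lc`, `had.eqv_apply`, `had.mem_Zc`). For `1 ≤ lev 1 b`: `z 1 b ∈ Fi 1 1` (`had.mem`, `CovD.Fi_anti`), so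
its class is in `Fil 1 1`, `α` of it also, so `mat b' b = 0` for `lev 1 b' < 1` (`IsAd.eqv_mem_Fil`) and
`∑ mat b' b • z 1 b' ∈ Fi 1 1`. Independence: `∑ c b • plf ι (z 1 b {j}) = plf ι ((∑ c b • z 1 b) {j})`, last clause of `GeoK`,
`had.ind` (`CovD.cl_eq_zero`). -/
theorem exists_kdata {k : Type u} [Field k] {n : ℕ} {X : CovD.{u, u} k n} {β : ℕ → Type} [∀ m, Fintype (β m)]
    [DecidableEq (β 1)] {lev : ∀ m, β m → ℕ} {z : ∀ m, β m → X.Ch} (had : IsAd X lev z) {Λ : Set k}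
    {α : Module.End k (X.HdR 1)} (hα : GeoK X Λ α) :
    ∃ (j : Fin n) (S : Type u) (_ : CommRing S) (_ : Algebra k S) (_ : Algebra.Smooth k S) (N : ℕ) (m : Fin N → k)
      (ψ : Fin N → (X.R {j} →ₐ[k] S)) (ι : X.R {j} →ₐ[k] S) (a : Matrix (β 1) (β 1) k), (∀ l, m l ∈ Λ) ∧
      (∀ x, α (had.eqv 1 x) = had.eqv 1 (a.mulVecLin x)) ∧ GeoR X (lev 1) (z 1) j S m ψ ι a ∧
      GeoI X (lev 1) (z 1) j ι := by
  obtain ⟨hF, j, S, iS, iA, iSm, N, m, ψ, ι, hm, hrel, hind⟩ := hα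
  obtain ⟨T, hT⟩ : ∃ T : (β 1 → k) →ₗ[k] (β 1 → k), ∀ x, had.eqv 1 (T x) = α (had.eqv 1 x) :=
    ⟨((had.eqv 1).symm : X.HdR 1 →ₗ[k] (β 1 → k)) ∘ₗ α ∘ₗ ((had.eqv 1) : (β 1 → k) →ₗ[k] X.HdR 1), fun x =>
      (had.eqv 1).apply_symm_apply _⟩
  have hsum : ∀ c : β 1 → k, plf ι (((had.lc 1 c : ↥(X.Zc 1)) : X.Ch) {j}) = ∑ b, c b • plf ι (z 1 b {j}) := by
    intro c
    rw [had.lc_coe, Finset.sum_apply, map_sum]
    refine Finset.sum_congr rfl fun b _ => ?_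
    rw [Pi.smul_apply, plf_smul]
  have hone : ∀ b : β 1, ((had.lc 1 (Pi.single b 1) : ↥(X.Zc 1)) : X.Ch) = z 1 b := by
    intro b
    rw [had.lc_coe, Finset.sum_eq_single b]
    · rw [Pi.single_eq_same, one_smul]
    · intro b' _ h
      rw [Pi.single_eq_of_ne h, zero_smul]
    · intro h
      exact absurd (Finset.mem_univ b) h
  have hlcF : ∀ c : β 1 → k, (∀ b, lev 1 b < 1 → c b = 0) → ((had.lc 1 c : ↥(X.Zc 1)) : X.Ch) ∈ X.Fi 1 1 := by
    intro c hc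
    rw [had.lc_coe]
    refine Submodule.sum_mem _ fun b _ => ?_
    rcases Nat.lt_or_ge (lev 1 b) 1 with h1 | h1
    · rw [hc b h1, zero_smul]
      exact Submodule.zero_mem _
    · exact Submodule.smul_mem _ _ (CovD.Fi_anti h1 1 (had.mem 1 b))
  have hcl : ∀ b : β 1, α (X.cl 1 (had.lc 1 (Pi.single b 1))) = X.cl 1 (had.lc 1 (T (Pi.single b 1))) := by
    intro b
    rw [← had.eqv_apply, ← had.eqv_apply, hT]
  have hfil : ∀ b b' : β 1, 1 ≤ lev 1 b → lev 1 b' < 1 → T (Pi.single b 1) b' = 0 := by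
    intro b b' hb hb'
    have h1 : had.eqv 1 (T (Pi.single b 1)) ∈ X.Fil 1 1 := by
      rw [hT]
      refine hF _ (had.eqv_mem_Fil.2 fun b'' hb'' => ?_)
      rw [Pi.single_eq_of_ne]
      rintro rfl
      omega
    exact had.eqv_mem_Fil.1 h1 b' hb'
  refine ⟨j, S, iS, iA, iSm, N, m, ψ, ι, Matrix.of fun b' b => T (Pi.single b 1) b', hm, fun x => ?_,
    ⟨fun b => ?_, fun b hb => ?_, fun b b' hb hb' => hfil b b' hb hb'⟩, fun c hc h0 => ?_⟩
  · have e : (Matrix.of fun b' b => T (Pi.single b 1) b') = LinearMap.toMatrix' T := by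
      ext b' b
      rw [LinearMap.toMatrix'_apply, Matrix.of_apply]
    rw [← hT, e, ← Matrix.toLin'_apply', Matrix.toLin'_toMatrix']
  · obtain ⟨g, hg⟩ := (hrel _ _ (hcl b)).1
    rw [hone, hsum] at hg
    exact ⟨g, hg⟩
  · have hg := (hrel _ _ (hcl b)).2 (by
      rw [hone]
      exact CovD.Fi_anti hb 1 (had.mem 1 b)) (hlcF _ fun b' hb' => hfil b b' hb hb')
    rw [hone, hsum] at hg
    exact hg
  · have h1 := hind (had.lc 1 c) (hlcF c hc) (by rw [hsum, h0])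
    rw [← had.eqv_apply] at h1
    exact (LinearEquiv.map_eq_zero_iff _).1 h1

end MPadcGP
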