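import Pool.Agent.Lib.MP_adc574_ag_EN.SA5
import Pool.Agent.Lib.MP_adc574_ag_EN.SC
import Pool.Agent.Lib.MP_adc574_ag_EN.SD1
import Pool.Agent.Lib.MP_adc574_ag_GP.ClA

/-!
# Leaf S: spreading out of geometric endomorphisms
-/

set_option autoImplicit false
set_option linter.unusedSectionVars false

namespace MPadcGP

universe u v w

private theorem S_smul_mem {A : Type*} {R : Type*} [CommRing A] [CommRing R] [Algebra A R] {q : ℕ} (a : A)
    {e : Fm A R} (he : e ∈ Fd A R q) : a • e ∈ Fd A R q := by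
  rw [smul_fm]
  exact fz_mul_mem _ he

private theorem S_key {B : Type*} {K : Type*} [CommRing B] [CommRing K] [Algebra B K] {R₃ R : Type*} [CommRing R₃]
    [CommRing R] [Algebra B R₃] [Algebra K R] {S₃ S : Type*} [CommRing S₃] [CommRing S] [Algebra B S₃] [Algebra K S]
    {h : S₃ →+* S} (hb : HB B K h) {p : R₃ →+* R} (hp : CC B K p) (φ₃ : R₃ →ₐ[B] S₃) (φ : R →ₐ[K] S)
    (hφ : ∀ x, h (φ₃ x) = φ (p x)) (e : Fm B R₃) : mp h hb.cc (plf φ₃ e) = plf φ (mp p hp e) := by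
  have h1 : (mp h hb.cc).comp (plf φ₃) = (plf φ).comp (mp p hp) := hom_ext' (fun r => by
    rw [RingHom.comp_apply (mp h hb.cc) (plf φ₃), RingHom.comp_apply (plf φ) (mp p hp), plf_fz, mp_fz, mp_fz,
      plf_fz, hφ]) (fun r => by
    rw [RingHom.comp_apply (mp h hb.cc) (plf φ₃), RingHom.comp_apply (plf φ) (mp p hp), plf_df, mp_df, mp_df,
      plf_df, hφ])
  exact congrArg (fun g : Fm B R₃ →+* Fm K S => g e) h1

private theorem S_indep {K : Type*} [Field K] {V : Type*} [AddCommGroup V] [Module K V] {B : Type} [Fintype B]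
    {lev : B → ℕ} {v : B → V}
    (h : ∀ c : B → K, (∀ b, lev b < 1 → c b = 0) → ∑ b, c b • v b = 0 → c = 0) :
    LinearIndependent K fun f : {b : B // 1 ≤ lev b} => v f.1 := by
  classical
  rw [Fintype.linearIndependent_iff]
  intro c hc
  have h1 : (fun b => if hb : 1 ≤ lev b then c ⟨b, hb⟩ else 0) = (0 : B → K) := by
    refine h _ (fun b hb => dif_neg (by omega)) ?_
    rw [← Fintype.sum_subtype_add_sum_subtype fun b => 1 ≤ lev b]
    have h2 : ∑ i : {b : B // ¬ 1 ≤ lev b},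
        (if hb : 1 ≤ lev i.1 then c ⟨i.1, hb⟩ else 0) • v i.1 = 0 :=
      Finset.sum_eq_zero fun i _ => by rw [dif_neg i.2, zero_smul]
    have h3 : ∑ i : {b : B // 1 ≤ lev b},
        (if hb : 1 ≤ lev i.1 then c ⟨i.1, hb⟩ else 0) • v i.1 = ∑ i, c i • v i.1 :=
      Finset.sum_congr rfl fun i _ => by rw [dif_pos i.2]
    rw [h3, hc, zero_add]
    exact h2
  intro f
  have h2 := congrFun h1 f.1
  rw [dif_pos f.2] at h2
  exact h2

/-- LEAF S. Geometric endomorphisms of `H^1` over `k` are defined over a finitely generated ring.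

Proof. `exists_kdata` gives `j, S, N, m, ψ, ι, a` over `k`, with functions `g_b` (`GeoR.rel`, choose). `T` is the set of the `g_b`
and of the images under `ψ_l`, `ι` of the generators `cq _ {j} i _`; `F = {b // 1 ≤ lev 1 b}`, `ω_b = plf ι (z_b {j})`
(degree one: `z_b ∈ Tt 1`; independent by `GeoI`: extend the coefficients by zero). `exists_model T ω` gives `A₂'`; `A₂` is
generated by `A₂'`, the entries of `a` and the `m l`. Let `A₃ ⊇ A₁, A₂`, `I₃ = bI (inclusion h3) I`; the matrix over `A₃` and the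
coefficients over `A₃` are the given ones. `P = prM (algebraMap A₃ k) _` (ClA.lean) is the morphism from `prC I₃` to
`prC (bI (algebraMap A₁ k) I)`, with `P.push ((prH (inclusion h3) I).push c) = (prH (algebraMap A₁ k) I).push c`
(`prM_push_comp`, `prH_eq_prM`). `exists_hom3` with `g = ψ_l ∘ P.h {j}`, `ι ∘ P.h {j}` gives `ψ₃_l`, `ι₃` (the values on the
`cq I₃ {j} i _` are in the range of `h` by the choice of `T`, `cmap_cq`). Then `mp h (plf ψ₃_l e) = plf ψ_l (mp (P.h {j}) e)` for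
all forms `e` (`hom_ext'`, or `mp_congr` and the composition of `mp`), in particular for `e = z₃_b {j}`, where
`mp (P.h {j}) (z₃_b {j})` is the component of the pushed cochain. The relations over `A₃` hold because `mp h` is injective
on `Fd A₃ S₃ 1` and the relations hold over `k`. `GeoD.det`: the last clause of `exists_model` for
`ω₃_b = plf ι₃ (z₃_b {j})`. -/
theorem exists_geoD {k : Type u} [Field k] [IsAlgClosed k] [CharZero k] {A₁ : Subalgebra ℤ k} (hA₁ : A₁.FG) {n : ℕ}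
    {I : Ideal (MvPolynomial (Fin n) A₁)} (hI : IsHomog I) {β : ℕ → Type} [∀ m, Fintype (β m)]
    [∀ m, DecidableEq (β m)] {lev : ∀ m, β m → ℕ} {z : ∀ m, β m → (prC I).Ch} (hz : IsAd (prC I) lev z)
    (had : IsAd (prC (bI (algebraMap A₁ k) I)) lev fun m b => (prH (algebraMap A₁ k) I).push (z m b)) {Λ : Set k}
    {α : Module.End k ((prC (bI (algebraMap A₁ k) I)).HdR 1)} (hα : GeoK (prC (bI (algebraMap A₁ k) I)) Λ α) :
    ∃ A₂ : Subalgebra ℤ k, A₂.FG ∧ ∀ (A₃ : Subalgebra ℤ k) (h3 : A₁ ≤ A₃), A₂ ≤ A₃ →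
      ∃ a : Matrix (β 1) (β 1) A₃,
        (∀ x, α (had.eqv 1 x) = had.eqv 1 ((a.map (algebraMap A₃ k)).mulVecLin x)) ∧
          Nonempty (GeoD (prC (bI (Subalgebra.inclusion h3).toRingHom I)) (lev 1)
            (fun b => (prH (Subalgebra.inclusion h3).toRingHom I).push (z 1 b)) {x | (x : k) ∈ Λ} a) := by
  classical
  obtain ⟨j, S, crS, alS, smS, N, m, ψ, ι, a, hm, ha, hR, hI'⟩ := exists_kdata had hα
  choose g hg using hR.rel
  let T : Finset S := Finset.univ.image g ∪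
    (Finset.univ.image (fun q : Fin N × Fin n =>
      ψ q.1 (cq (bI (algebraMap A₁ k) I) {j} q.2 (Finset.mem_singleton_self j))) ∪
    Finset.univ.image (fun i : Fin n => ι (cq (bI (algebraMap A₁ k) I) {j} i (Finset.mem_singleton_self j))))
  obtain ⟨A₂', hA₂', hmod⟩ := exists_model T
    (fun f : {b : β 1 // 1 ≤ lev 1 b} => plf ι ((prH (algebraMap A₁ k) I).push (z 1 f.1) {j}))
    (fun f => plf_mem ι (((had.mem 1 f.1).1.2 {j}).1 1 (by rw [Finset.card_singleton]))) (S_indep hI')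
  refine ⟨A₂' ⊔ Algebra.adjoin ℤ (Set.range (fun q : β 1 × β 1 => a q.1 q.2) ∪ Set.range m),
    hA₂'.sup (Subalgebra.fg_def.2 ⟨_, Set.toFinite _, rfl⟩), fun A₃ h3 h2 => ?_⟩
  have hA : ∀ b b', a b b' ∈ A₃ := fun b b' => h2 (le_sup_right (a := A₂')
    (Algebra.subset_adjoin (Or.inl ⟨(b, b'), rfl⟩)))
  have hM : ∀ l, m l ∈ A₃ := fun l => h2 (le_sup_right (a := A₂')
    (Algebra.subset_adjoin (Or.inr ⟨l, rfl⟩)))
  obtain ⟨S₃, crS₃, alS₃, smS₃, h, hb, hinj, hmp, hT, τ, hτ⟩ := hmod A₃ (le_trans le_sup_left h2)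
  refine ⟨Matrix.of fun b b' => ⟨a b b', hA b b'⟩, fun x => ?_, ?_⟩
  · have h4 : (Matrix.of fun b b' => (⟨a b b', hA b b'⟩ : A₃)).map (algebraMap A₃ k) = a := by
      ext b b'
      rfl
    rw [h4]
    exact ha x
  have hχ : (algebraMap A₃ k).comp (Subalgebra.inclusion h3).toRingHom = algebraMap A₁ k := by
    ext x
    rfl
  let P := prT hχ I
  have hP : ∀ b, P.e {j} ((prH (Subalgebra.inclusion h3).toRingHom I).push (z 1 b) {j}) =
      (prH (algebraMap A₁ k) I).push (z 1 b) {j} := fun b =>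
    congrFun (prT_push hχ I (z 1 b)) {j}
  have hPc : ∀ l, P.h {j} (cq (bI (Subalgebra.inclusion h3).toRingHom I) {j} l (Finset.mem_singleton_self j)) =
      cq (bI (algebraMap A₁ k) I) {j} l (Finset.mem_singleton_self j) := fun l =>
    cmap_cq _ (bI_mem_of_comp hχ I) (Finset.Subset.refl {j}) l (Finset.mem_singleton_self j)
  have hom3 : ∀ φ : (prC (bI (algebraMap A₁ k) I)).R {j} →ₐ[k] S,
      (∀ l : Fin n, φ (cq (bI (algebraMap A₁ k) I) {j} l (Finset.mem_singleton_self j)) ∈ T) →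
      ∃ φ₃ : (prC (bI (Subalgebra.inclusion h3).toRingHom I)).R {j} →ₐ[A₃] S₃, ∀ x, h (φ₃ x) = φ (P.h {j} x) := by
    intro φ hφ
    obtain ⟨φ₃, h5⟩ := exists_hom3 hinj (bI (Subalgebra.inclusion h3).toRingHom I) j
      ((φ : (prC (bI (algebraMap A₁ k) I)).R {j} →+* S).comp (P.h {j})) (fun c => by
        rw [RingHom.comp_apply, P.base, hb]
        exact φ.commutes _) (fun l => by
        obtain ⟨s, hs⟩ := hT _ (hφ l)
        exact ⟨s, by rw [hs, RingHom.comp_apply, hPc]; rfl⟩)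
    exact ⟨φ₃, fun x => h5 x⟩
  choose ψ₃ hψ₃ using fun l => hom3 (ψ l) (fun i => Finset.mem_union_right _ (Finset.mem_union_left _
    (Finset.mem_image.2 ⟨(l, i), Finset.mem_univ _, rfl⟩)))
  obtain ⟨ι₃, hι₃⟩ := hom3 ι (fun i => Finset.mem_union_right _ (Finset.mem_union_right _
    (Finset.mem_image.2 ⟨i, Finset.mem_univ _, rfl⟩)))
  have hz3 : ∀ b, (prH (Subalgebra.inclusion h3).toRingHom I).push (z 1 b) {j} ∈
      Fd A₃ ((prC (bI (Subalgebra.inclusion h3).toRingHom I)).R {j}) 1 := fun b =>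
    ((CovD.Hm.push_mem_Tt (hz.mem 1 b).1).2 {j}).1 1 (by rw [Finset.card_singleton])
  have hψm : ∀ l b, mp h hb.cc (plf (ψ₃ l) ((prH (Subalgebra.inclusion h3).toRingHom I).push (z 1 b) {j})) =
      plf (ψ l) ((prH (algebraMap A₁ k) I).push (z 1 b) {j}) := fun l b => by
    rw [← hP b]
    exact S_key hb (P.cc {j}) (ψ₃ l) (ψ l) (hψ₃ l) _
  have hιm : ∀ b, mp h hb.cc (plf ι₃ ((prH (Subalgebra.inclusion h3).toRingHom I).push (z 1 b) {j})) =
      plf ι ((prH (algebraMap A₁ k) I).push (z 1 b) {j}) := fun b => by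
    rw [← hP b]
    exact S_key hb (P.cc {j}) ι₃ ι hι₃ _
  have hL : ∀ b, ∑ l, (⟨m l, hM l⟩ : A₃) •
      plf (ψ₃ l) ((prH (Subalgebra.inclusion h3).toRingHom I).push (z 1 b) {j}) ∈ Fd A₃ S₃ 1 := fun b =>
    Submodule.sum_mem _ fun l _ => S_smul_mem _ (plf_mem _ (hz3 b))
  have hLm : ∀ b, mp h hb.cc (∑ l, (⟨m l, hM l⟩ : A₃) •
      plf (ψ₃ l) ((prH (Subalgebra.inclusion h3).toRingHom I).push (z 1 b) {j})) =
      ∑ l, m l • plf (ψ l) ((prH (algebraMap A₁ k) I).push (z 1 b) {j}) := fun b => by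
    rw [map_sum]
    refine Finset.sum_congr rfl fun l _ => ?_
    rw [hb.mp_smul, hψm]
    rfl
  have hQ : ∀ b, ∑ b', (⟨a b' b, hA b' b⟩ : A₃) •
      plf ι₃ ((prH (Subalgebra.inclusion h3).toRingHom I).push (z 1 b') {j}) ∈ Fd A₃ S₃ 1 := fun b =>
    Submodule.sum_mem _ fun b' _ => S_smul_mem _ (plf_mem _ (hz3 b'))
  have hQm : ∀ b, mp h hb.cc (∑ b', (⟨a b' b, hA b' b⟩ : A₃) •
      plf ι₃ ((prH (Subalgebra.inclusion h3).toRingHom I).push (z 1 b') {j})) =
      ∑ b', a b' b • plf ι ((prH (algebraMap A₁ k) I).push (z 1 b') {j}) := fun b => by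
    rw [map_sum]
    refine Finset.sum_congr rfl fun b' _ => ?_
    rw [hb.mp_smul, hιm]
    rfl
  refine ⟨{
    j := j
    S := S₃
    cr := crS₃
    al := alS₃
    sm := smS₃
    N := N
    m := fun l => ⟨m l, hM l⟩
    ψ := ψ₃
    ι := ι₃
    coef := hm
    rel := ?_
    τ := τ
    det := hτ (fun f => plf ι₃ ((prH (Subalgebra.inclusion h3).toRingHom I).push (z 1 f.1) {j}))
      (fun f => plf_mem _ (hz3 f.1)) (fun f => hιm f.1) }⟩
  refine ⟨fun b => ?_, fun b hb1 => ?_, fun b b' hb1 hb2 => ?_⟩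
  · obtain ⟨g₃, hg₃⟩ := hT (g b) (Finset.mem_union_left _ (Finset.mem_image.2 ⟨b, Finset.mem_univ _, rfl⟩))
    refine ⟨g₃, sub_eq_zero.1 (hmp _ ?_ ?_)⟩
    · exact Submodule.sub_mem _ (hL b) (Submodule.add_mem _ (hQ b) (df_mem _))
    · rw [map_sub, map_add, mp_df, hg₃, sub_eq_zero]
      exact (hLm b).trans ((hg b).trans (congrArg (· + df k (g b)) (hQm b).symm))
  · refine sub_eq_zero.1 (hmp _ (Submodule.sub_mem _ (hL b) (hQ b)) ?_)
    rw [map_sub, sub_eq_zero]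
    exact (hLm b).trans ((hR.relF b hb1).trans (hQm b).symm)
  · exact Subtype.ext (hR.fil b b' hb1 hb2)

end MPadcGP
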