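import Pool.Agent.Lib.MP_adc574_ag_EN.Int
import Pool.Agent.Lib.MP_adc574_ag_GP.CarBr

/-!
# Leaf K1 (medium): the first step of the conjugate filtration of `H^1`
-/

set_option autoImplicit false
set_option linter.unusedSectionVars false

namespace MPadcGP

universe u v w

/-- LEAF K1. A class of `H^1` is in the first step of the conjugate filtration iff a cocycle `w` of it is exact on the
charts `{i}`.

Proof. (Models: `CovD.Mi_acyclic`, `RepC.exists` in GP/Conj.lean.)
`→`: `CovD.mem_Con`, `CovD.cl_eq`: there is `c ∈ Ni 0 1` with `c - w ∈ Bc 1`, so `c - w = Dt y`, `y ∈ Tt 0` (`Bc 1` is by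
definition `(Tt 0).map Dt`). `c {i} = 0` (`mem_Ni`, card 1 + 0 < 2). `Dt y {i} = dd (y {i}) + del (ic y) {i}`
(`Dt_apply`, `dc_apply`, `del_apply`), `{i}.erase j = ∅`, `y ∅ = 0`, so `del (ic y) {i} = 0` (`ev_ic`, `ev_eq_zero`). So
`w {i} = dd (- y {i})`.
`←`: `w {i} ∈ Fd 1` is exact, so `w {i} = dd f_i`, `f_i ∈ Fd 0` (`mem_exq_of_exact`, `mem_exq_succ`). Let `y {i} = f_i`
and `y J = 0` if `J.card ≠ 1` (`fun J => if h : ∃ i, J = {i} then ... else 0`, or choose for every `J` with `J.card = 1`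
a primitive of `w J` as in `Mi_acyclic`). `y ∈ Tt 0`. `c = w - Dt y ∈ Ni 0 1`: `c ∈ Tt 1` (`Dt_mem`); `c J = 0` for
`J.card < 2` (`J = ∅`: `c ∈ Tt 1`; `J.card = 1`: as above); for `J.card = 2`: `Dt c = 0` at `J` is
`dd (c J) + del (ic c) J`, and `del (ic c) J = 0` because `c` is zero on the `J.erase j`. So `c` is a cocycle in `Ni 0 1`
of the class of `w` (`mem_Con`, `cl_eq`, `w - c = Dt y ∈ Bc 1`). -/
theorem enk_con {κ : Type u} [Field κ] {n : ℕ} {X : CovD.{u, v} κ n} (w : ↥(X.Zc 1)) :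
    X.cl 1 w ∈ X.Con 1 0 ↔ ∀ i : Fin n, ∃ g, dd κ g = (w : X.Ch) {i} := by
  classical
  -- the derivative of a cochain of degree zero on a chart
  have hD : ∀ y ∈ X.Tt 0, ∀ J : Finset (Fin n), J.card = 1 → X.Dt y J = dd κ (y J) := by
    intro y hy J hJ
    have e1 : X.del (X.ic y) J = 0 := by
      rw [CovD.del_apply]
      refine Finset.sum_eq_zero fun j hj => ?_
      have h1 := Finset.card_erase_add_one hj
      have h2 : J.erase j = ∅ := Finset.card_eq_zero.mp (by omega)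
      rw [CovD.ev_ic, CovD.ev_eq_zero (by rw [h2]; exact hy.1), map_zero, smul_zero]
    rw [CovD.Dt_apply, Pi.add_apply, e1, add_zero, CovD.dc_apply]
  constructor
  · intro h i
    obtain ⟨c, hcN, hcl⟩ := CovD.mem_Con.mp h
    obtain ⟨y, hy, hyc⟩ := CovD.cl_eq.mp hcl
    refine ⟨-(y {i}), ?_⟩
    have h1 := hD y hy {i} (Finset.card_singleton i)
    have h2 : X.Dt y {i} = (c : X.Ch) {i} - (w : X.Ch) {i} := by
      rw [hyc, Pi.sub_apply]
    have h3 : (c : X.Ch) {i} = 0 := (hcN.2 {i}).1 (by rw [Finset.card_singleton]; omega)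
    rw [map_neg, ← h1, h2, h3, zero_sub, neg_neg]
  · intro h
    have hex : ∀ J : Finset (Fin n), J.card = 1 → ∃ f ∈ Fd κ (X.R J) 0, dd κ f = (w : X.Ch) J := by
      intro J hJ
      obtain ⟨i, rfl⟩ := Finset.card_eq_one.mp hJ
      exact mem_exq_succ.mp (mem_exq_of_exact ((w.2.1.2 {i}).1 1 (by rw [Finset.card_singleton])) (h i))
    let y : X.Ch := fun J => if hJ : J.card = 1 then (hex J hJ).choose else 0
    have hy1 : ∀ J : Finset (Fin n), J.card = 1 → y J ∈ Fd κ (X.R J) 0 ∧ dd κ (y J) = (w : X.Ch) J := by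
      intro J hJ
      have e : y J = (hex J hJ).choose := dif_pos hJ
      rw [e]
      exact (hex J hJ).choose_spec
    have hy2 : ∀ J : Finset (Fin n), J.card ≠ 1 → y J = 0 := fun J hJ => dif_neg hJ
    have hyT : y ∈ X.Tt 0 := by
      refine ⟨hy2 ∅ (by simp), fun J => ⟨fun q hq => ?_, fun hJ => hy2 J (by omega)⟩⟩
      by_cases hJ : J.card = 1
      · have h2 : q = 0 := by omega
        rw [h2]
        exact (hy1 J hJ).1
      · rw [hy2 J hJ]
        exact Submodule.zero_mem _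
    have hcT : (w : X.Ch) - X.Dt y ∈ X.Tt 1 := sub_mem w.2.1 (CovD.Dt_mem hyT)
    have hcD : X.Dt ((w : X.Ch) - X.Dt y) = 0 := by
      rw [map_sub, CovD.Dt_Dt, sub_zero]
      exact (CovD.mem_Zc.mp w.2).2
    have hc1 : ∀ J : Finset (Fin n), J.card < 2 → ((w : X.Ch) - X.Dt y) J = 0 := by
      intro J hJ
      rcases Nat.lt_or_ge J.card 1 with h1 | h1
      · have h2 : J = ∅ := Finset.card_eq_zero.mp (by omega)
        rw [h2]
        exact hcT.1
      · have h2 : J.card = 1 := by omega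
        rw [Pi.sub_apply, hD y hyT J h2, (hy1 J h2).2, sub_self]
    refine CovD.mem_Con.mpr ⟨⟨(w : X.Ch) - X.Dt y, hcT, hcD⟩, ⟨hcT, fun J => ⟨fun hJ => hc1 J (by omega),
      fun hJ => ?_⟩⟩, CovD.cl_eq.mpr ?_⟩
    · have h0 : X.Dt ((w : X.Ch) - X.Dt y) J = 0 := by
        rw [hcD]
        rfl
      have e1 : X.del (X.ic ((w : X.Ch) - X.Dt y)) J = 0 := by
        rw [CovD.del_apply]
        refine Finset.sum_eq_zero fun j hj => ?_
        have h1 := Finset.card_erase_add_one hj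
        rw [CovD.ev_ic, CovD.ev_eq_zero (hc1 _ (by omega)), map_zero, smul_zero]
      rw [CovD.Dt_apply, Pi.add_apply, e1, add_zero, CovD.dc_apply] at h0
      exact h0
    · change (w : X.Ch) - X.Dt y - (w : X.Ch) ∈ X.Bc 1
      have h1 : (w : X.Ch) - X.Dt y - (w : X.Ch) = X.Dt (-y) := by
        rw [map_neg]
        abel
      rw [h1]
      exact Submodule.mem_map_of_mem (neg_mem hyT)

end MPadcGP
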