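import Pool.Agent.Lib.MP_adc574_ag_EN.K2

/-!
# Leaf K3 (easy+): every cocycle is a combination of the representatives, up to exact forms on the charts
-/

set_option autoImplicit false
set_option linter.unusedSectionVars false

namespace MPadcGP

universe u v w

private theorem K3_single {κ : Type u} [Field κ] {n : ℕ} {X : CovD.{u, v} κ n} {y : X.Ch} (h0 : y ∅ = 0)
    (i : Fin n) : X.Dt y {i} = dd κ (y {i}) := by
  have h1 : y (({i} : Finset (Fin n)).erase i) = 0 := by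
    rw [Finset.erase_singleton]
    exact h0
  rw [CovD.Dt_apply, Pi.add_apply, CovD.dc_apply, CovD.del_apply, Finset.sum_singleton, CovD.ev_ic,
    CovD.ev_eq_zero h1, map_zero, smul_zero, add_zero]

/-- LEAF K3.

Proof. `CovD.conj_comb` (GP/Conj.lean) with `a = m = 1` and the family indexed by `Fin r`, `r = card`
(`Fintype.equivFin`; or copy the use in GP/ConjW.lean, line 99): `w ∈ ZZ Dt (Mi 1) (Np 2) 1`: `w ∈ Ni 1 1`
(`Np 2 = Ni 1` by definition): `w ∈ Tt 1`, for `J.card + 1 < 2`: `J = ∅`, `w ∅ = 0`; for `J.card = 1`, `J = {i}`: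
`0 = Dt w {i} = dd (w {i}) + del (ic w) {i}`, and `del (ic w) {i} = 0` because `w ∅ = 0` (`ev_ic`, `ev_eq_zero`); and
`Dt w = 0 ∈ Mi 1 2`. `hspan` is `enk_span` (`y - ∑ = 0 ∈ BB`). The result: `w - ∑ c_b • v b = s + Dt y`, `s ∈ Mi 1 1`,
`y ∈ pr (Np 2) 1 = Ni 1 0` (`mem_BB`). On `{i}`: `s {i} ∈ exq 1` is exact (`exq_exact`), and `Dt y {i} = dd (y {i})`
as above (`y ∅ = 0`). -/
theorem enk_comb {p : ℕ} [Fact p.Prime] {κ : Type u} [Field κ] [CharP κ p] {L : Type} [Fintype L] {bb : L → κ}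
    {n : ℕ} {X : CovD.{u, v} κ n} (hc : ∀ J : Finset (Fin n), J.Nonempty → CarP p bb (X.R J))
    (hf : ∀ q m, FiniteDimensional κ (HH X.Dt (X.Fi (q + 1)) (X.Fi q) m))
    (hsum : ∀ m, ∑ q ∈ Finset.range (m + 1), Module.finrank κ (HH X.Dt (X.Fi (q + 1)) (X.Fi q) m) ≤
      Module.finrank κ (X.HdR m))
    {β : ℕ → Type} [∀ m, Fintype (β m)] {lev : ∀ m, β m → ℕ} {z : ∀ m, β m → X.Ch}
    (had : IsAd X lev z) (v : {b : β 1 // 1 ≤ lev 1 b} → X.Ch) (hv : ∀ b, CovD.RepC p 1 1 (z 1 b.1) (v b))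
    (w : X.Ch) (hw : w ∈ X.Zc 1) :
    ∃ c : {b : β 1 // 1 ≤ lev 1 b} → κ, ∀ i : Fin n, ∃ g, dd κ g = w {i} - ∑ b, c b • v b {i} := by
  classical
  have hw0 : w ∅ = 0 := hw.1.1
  have hDw : X.Dt w = 0 := hw.2
  have hwZ : w ∈ ZZ X.Dt (X.Mi 1) (X.Np (1 + 1)) 1 := by
    refine ⟨?_, ?_⟩
    · change w ∈ X.Ni 1 1
      refine CovD.mem_Ni.2 ⟨hw.1, fun J => ⟨fun h => ?_, fun h => ?_⟩⟩
      · have h1 : J = ∅ := Finset.card_eq_zero.1 (by omega)
        rw [h1]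
        exact hw0
      · have hJ : J.card = 1 := by omega
        obtain ⟨i, rfl⟩ := Finset.card_eq_one.1 hJ
        rw [← K3_single hw0, hDw]
        rfl
    · change X.Dt w ∈ X.Mi 1 (1 + 1)
      rw [hDw]
      exact zero_mem _
  obtain ⟨c, hcc⟩ := CovD.conj_comb p bb hc 1 1
    (fun i => z 1 ((Fintype.equivFin {b : β 1 // 1 ≤ lev 1 b}).symm i).1)
    (fun i => v ((Fintype.equivFin {b : β 1 // 1 ≤ lev 1 b}).symm i)) (fun i => hv _)
    (fun y hy => by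
      obtain ⟨c, hcy⟩ := enk_span hf hsum had y hy
      refine ⟨fun i => c ((Fintype.equivFin {b : β 1 // 1 ≤ lev 1 b}).symm i), ?_⟩
      rw [Equiv.sum_comp (Fintype.equivFin {b : β 1 // 1 ≤ lev 1 b}).symm fun b => c b • z 1 b.1, ← hcy, sub_self]
      exact zero_mem _) w hwZ
  obtain ⟨s, hs, y, hy, hsy⟩ := mem_BB.1 hcc
  refine ⟨fun b => c (Fintype.equivFin {b : β 1 // 1 ≤ lev 1 b} b), fun i => ?_⟩
  have hy0 : y ∅ = 0 := hy.1.1
  obtain ⟨f, hf1⟩ := exq_exact ((hs.2 {i}).2 (by rw [Finset.card_singleton]))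
  refine ⟨f + y {i}, ?_⟩
  have h1 : w - ∑ b, c (Fintype.equivFin {b : β 1 // 1 ≤ lev 1 b} b) • v b = s + X.Dt y := by
    rw [← hsy, ← Equiv.sum_comp (Fintype.equivFin {b : β 1 // 1 ≤ lev 1 b}).symm
      fun b => c (Fintype.equivFin {b : β 1 // 1 ≤ lev 1 b} b) • v b]
    refine congrArg (fun t => w - t) (Finset.sum_congr rfl fun j _ => ?_)
    rw [Equiv.apply_symm_apply]
  have h2 := congrFun h1 {i}
  rw [Pi.sub_apply, Finset.sum_apply, Pi.add_apply, K3_single hy0] at h2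
  rw [map_add, hf1, ← h2]
  rfl

end MPadcGP
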