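import Pool.Agent.Lib.MP_adc574_ag_GP.CarGl

/-!
# Leaf K4 (medium): independence of the representatives
-/

set_option autoImplicit false
set_option linter.unusedSectionVars false

namespace MPadcGP

universe u v w

/-- LEAF K4. The representatives of linearly independent forms are linearly independent modulo exact forms.

Proof. By `hbb` there are `e b l` with `c b = ∑ l, e b l ^ p * bb l` (`choose e he using fun b => (hbb (c b)).exists`).
`∑ b, c b • v b = ∑ l, bb l • ∑ b, e b l ^ p • v b`, and `Rep p (∑ b, e b l • f b) (∑ b, e b l ^ p • v b)` (`Rep.sum`,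
`Rep.smul`). `(carP_of_smooth hbb : CarP p bb S).inj` gives `∑ b, e b l • f b = 0` for all `l`, so `e b l = 0` by `hi`,
so `c b = ∑ l, 0 ^ p * bb l = 0`. -/
theorem enk_ind {p : ℕ} [Fact p.Prime] {κ : Type u} [Field κ] [CharP κ p] {L : Type} [Fintype L] {bb : L → κ}
    (hbb : PBas p bb) {S : Type v} [CommRing S] [Algebra κ S] [Algebra.Smooth κ S] {B : Type} [Fintype B]
    (f v : B → Fm κ S) (hfv : ∀ b, Rep p (f b) (v b)) (hi : ∀ c : B → κ, ∑ b, c b • f b = 0 → c = 0)
    (c : B → κ) (h : ∃ g, dd κ g = ∑ b, c b • v b) : c = 0 := by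
  classical
  choose e he using fun b => (hbb (c b)).exists
  have hp0 : p ≠ 0 := (Fact.out : p.Prime).ne_zero
  have h1 : ∑ b, c b • v b = ∑ l, bb l • ∑ b, e b l ^ p • v b := by
    have e1 : ∀ b, c b • v b = ∑ l, bb l • (e b l ^ p • v b) := by
      intro b
      have e2 : c b • v b = (∑ l, e b l ^ p * bb l) • v b := congrArg (fun t => t • v b) (he b)
      rw [e2, Finset.sum_smul]
      exact Finset.sum_congr rfl fun l _ => by rw [smul_smul, mul_comm]
    rw [Finset.sum_congr rfl fun b _ => e1 b, Finset.sum_comm]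
    exact Finset.sum_congr rfl fun l _ => (Finset.smul_sum).symm
  have h2 : ∀ l, Rep p (∑ b, e b l • f b) (∑ b, e b l ^ p • v b) := fun l =>
    Rep.sum Finset.univ fun b _ => (hfv b).smul (e b l)
  have h3 : ∀ l, ∑ b, e b l • f b = 0 := (carP_of_smooth hbb : CarP p bb S).inj
    (fun l => ∑ b, e b l • f b) (fun l => ∑ b, e b l ^ p • v b) h2 (by rw [← h1]; exact h)
  have h4 : ∀ l b, e b l = 0 := fun l b => congrFun (hi (fun b => e b l) (h3 l)) b
  funext b
  rw [he b, Pi.zero_apply]
  exact Finset.sum_eq_zero fun l _ => by rw [h4 l b, zero_pow hp0, zero_mul]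

end MPadcGP
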