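import Pool.Agent.Lib.MP_adc574_ag_EN.Int
import Pool.Agent.Lib.MP_adc574_ag_EN.K4

/-!
# Leaf K5 (medium+): the action of a geometric endomorphism on `H^1 / P`
-/

set_option autoImplicit false
set_option linter.unusedSectionVars false

namespace MPadcGP

universe u v w

private theorem K5_sub {B : Type} [Fintype B] (lev : B → ℕ) {E : Type*} [AddCommMonoid E] (F : B → E)
    (hF : ∀ b, ¬ 1 ≤ lev b → F b = 0) : ∑ b, F b = ∑ b : {b : B // 1 ≤ lev b}, F b.1 := by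
  have h1 := Fintype.sum_subtype_add_sum_subtype (fun b => 1 ≤ lev b) F
  have h2 : ∑ b : {b : B // ¬ 1 ≤ lev b}, F b.1 = 0 := Finset.sum_eq_zero fun b _ => hF b.1 b.2
  rw [h2, add_zero] at h1
  exact h1.symm

private theorem K5_hi {κ : Type u} [Field κ] {n : ℕ} {X : CovD.{u, u} κ n} {B : Type} [Fintype B] {lev : B → ℕ}
    {z : B → X.Ch} {j : Fin n} {S : Type u} [CommRing S] [Algebra κ S] {ι : X.R {j} →ₐ[κ] S} (hι : GeoI X lev z j ι)
    (c : {b : B // 1 ≤ lev b} → κ) (h : ∑ b, c b • plf ι (z b.1 {j}) = 0) : c = 0 := by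
  have h1 := hι (fun b => if hb : 1 ≤ lev b then c ⟨b, hb⟩ else 0) (fun b hb => dif_neg (by omega)) (by
    rw [K5_sub lev _ fun b hb => by rw [dif_neg hb, zero_smul], ← h]
    refine Finset.sum_congr rfl fun b _ => ?_
    rw [dif_pos b.2])
  funext b
  have h2 := congrFun h1 b.1
  simp only [dif_pos b.2] at h2
  exact h2

private theorem K5_map {κ : Type u} [Field κ] {p : ℕ} [Fact p.Prime] [CharP κ p] {R S : Type u} [CommRing R] [CommRing S]
    [Algebra κ R] [Algebra κ S] (φ : R →ₐ[κ] S) {x z : Fm κ R} (h : Rep p x z) : Rep p (plf φ x) (plf φ z) :=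
  Rep.map (CC.of_algHom _) h

private theorem K5_ex {κ : Type u} [Field κ] {R S : Type u} [CommRing R] [CommRing S]
    [Algebra κ R] [Algebra κ S] (φ : R →ₐ[κ] S) {x : Fm κ R} (h : ∃ g, dd κ g = x) : ∃ g, dd κ g = plf φ x := by
  obtain ⟨g, rfl⟩ := h
  exact ⟨plf φ g, (plf_dd φ g).symm⟩

private theorem K5_trans {κ : Type u} [Field κ] {S : Type u} [CommRing S] [Algebra κ S] {x y z : Fm κ S}
    (h : ∃ g, dd κ g = x - y) (h' : ∃ g, dd κ g = y - z) : ∃ g, dd κ g = x - z := by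
  obtain ⟨g, hg⟩ := h
  obtain ⟨g', hg'⟩ := h'
  exact ⟨g + g', by rw [map_add, hg, hg', sub_add_sub_cancel]⟩

private theorem K5_symm {κ : Type u} [Field κ] {S : Type u} [CommRing S] [Algebra κ S] {x y : Fm κ S}
    (h : ∃ g, dd κ g = x - y) : ∃ g, dd κ g = y - x := by
  obtain ⟨g, hg⟩ := h
  exact ⟨-g, by rw [map_neg, hg, neg_sub]⟩

private theorem K5_sm {κ : Type u} [Field κ] {R S : Type u} [CommRing R] [CommRing S]
    [Algebra κ R] [Algebra κ S] (φ : R →ₐ[κ] S) {J : Type*} (s : Finset J) (c : J → κ) (f : J → Fm κ R) :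
    plf φ (∑ b ∈ s, c b • f b) = ∑ b ∈ s, c b • plf φ (f b) := by
  rw [map_sum]
  exact Finset.sum_congr rfl fun b _ => plf_smul φ _ _

private theorem K5_T {κ : Type u} [Field κ] {R S : Type u} [CommRing R] [CommRing S]
    [Algebra κ R] [Algebra κ S] {N : ℕ} (m : Fin N → κ) (ψ : Fin N → (R →ₐ[κ] S)) {J : Type*} (s : Finset J)
    (c : J → κ) (f : J → Fm κ R) :
    ∑ l, m l • plf (ψ l) (∑ b ∈ s, c b • f b) = ∑ b ∈ s, c b • ∑ l, m l • plf (ψ l) (f b) := by
  simp only [K5_sm, Finset.smul_sum]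
  rw [Finset.sum_comm]
  exact Finset.sum_congr rfl fun b _ => Finset.sum_congr rfl fun l _ => smul_comm _ _ _

/-- LEAF K5 (algebra on one chart). If `w = ∑ x b • z b` is `∑ c b • v b` up to an exact form and `∑ (a x) b • z b` is
`∑ c' b • v b` up to an exact form, then `c' = A^(p) c`.

Proof. Write `~` for equality up to an exact form of `S`. With `y = a.mulVec x`:
`ι^* (∑ b', y b' • z b' {j}) = ∑ b, x b • ∑ b', a b' b • ι^* (z b' {j}) = ∑ b, x b • (∑ l, m l • ψ_l^* (z b {j}) - df g_b)`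
(`hg.rel`; `df A g = dd A (fz A g)` by `dd_fz`) `~ ∑ l, m l • ψ_l^* (∑ b, x b • z b {j}) ~ ∑ l, m l • ψ_l^* (∑ b, c b • v b {j})
= ∑ b, c b • ∑ l, m l • ψ_l^* (v b {j})` (`plf_dd`, `plf_smul`). For `b` with `1 ≤ lev b`:
`∑ l, m l • ψ_l^* (v b {j}) = ∑ l, m l ^ p • ψ_l^* (v b {j})` (`hm`) represents `∑ l, m l • ψ_l^* (z b {j})` (`Rep.sum`,
`Rep.smul`, `Rep.map (CC.of_algHom _)`, `plf φ` is `mp (φ : R →+* S) (CC.of_algHom _)`)
`= ∑ b', a b' b • ι^* (z b' {j})` (`hg.relF`), `= ∑` over the `b'` with `1 ≤ lev b'` (`hg.fil`), which is also represented by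
`∑ b' : {b // 1 ≤ lev b}, a b' b ^ p • ι^* (v b' {j})`; so the two representatives differ by an exact form (`Rep.exact_sub`).
So `ι^* (∑ c' b' • v b') ~ ∑ b', (∑ b, a b' b ^ p * c b) • ι^* (v b' {j})`, and `enk_ind` with `f b = ι^* (z b {j})`,
`v b = ι^* (v b {j})` (`hι`, `c` extended by zero, gives `hi`) shows that the coefficients agree.
(`CovD.exact_sum`, `CovD.exact_smul`, `CovD.exact_sub` in GP/Conj.lean.) -/
theorem enk_act {p : ℕ} [Fact p.Prime] {κ : Type u} [Field κ] [CharP κ p] {L : Type} [Fintype L] {bb : L → κ}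
    (hbb : PBas p bb) {n : ℕ} {X : CovD.{u, u} κ n} {B : Type} [Fintype B] {lev : B → ℕ} {z : B → X.Ch}
    {v : {b : B // 1 ≤ lev b} → X.Ch} {j : Fin n} (hv : ∀ b, Rep p (z b.1 {j}) (v b {j}))
    {S : Type u} [CommRing S] [Algebra κ S] [Algebra.Smooth κ S] {N : ℕ}
    {m : Fin N → κ} (hm : ∀ l, m l ^ p = m l) {ψ : Fin N → (X.R {j} →ₐ[κ] S)} {ι : X.R {j} →ₐ[κ] S}
    {a : Matrix B B κ} (hg : GeoR X lev z j S m ψ ι a) (hι : GeoI X lev z j ι)
    (x : B → κ) (c c' : {b : B // 1 ≤ lev b} → κ)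
    (h : ∃ g, dd κ g = (∑ b, x b • z b {j}) - ∑ b, c b • v b {j})
    (h' : ∃ g, dd κ g = (∑ b, (a.mulVec x) b • z b {j}) - ∑ b, c' b • v b {j}) (b' : {b : B // 1 ≤ lev b}) :
    c' b' = ∑ b, a b'.1 b.1 ^ p * c b := by
  classical
  -- the coefficients of `ι^*`
  set d : {b : B // 1 ≤ lev b} → κ := fun b' => ∑ b : {b : B // 1 ≤ lev b}, a b'.1 b.1 ^ p * c b with hd
  -- step 3
  have s3 : ∀ b : {b : B // 1 ≤ lev b}, ∃ g, dd κ g = (∑ l, m l • plf (ψ l) (v b {j})) -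
      ∑ b' : {b : B // 1 ≤ lev b}, a b'.1 b.1 ^ p • plf ι (v b' {j}) := by
    intro b
    have r1 : Rep p (∑ l, m l • plf (ψ l) (z b.1 {j})) (∑ l, m l • plf (ψ l) (v b {j})) := by
      have h1 : ∑ l, m l • plf (ψ l) (v b {j}) = ∑ l, m l ^ p • plf (ψ l) (v b {j}) :=
        Finset.sum_congr rfl fun l _ => by rw [hm l]
      rw [h1]
      exact Rep.sum _ fun l _ => Rep.smul _ (K5_map _ (hv b))
    have r2 : Rep p (∑ l, m l • plf (ψ l) (z b.1 {j}))
        (∑ b' : {b : B // 1 ≤ lev b}, a b'.1 b.1 ^ p • plf ι (v b' {j})) := by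
      rw [hg.relF b.1 b.2, K5_sub lev (fun b' => a b' b.1 • plf ι (z b' {j})) fun b' hb' => by
        rw [hg.fil b.1 b' b.2 (by omega), zero_smul]]
      exact Rep.sum _ fun b' _ => Rep.smul _ (K5_map _ (hv b'))
    exact r1.exact_sub r2
  -- step 1
  choose g hgr using hg.rel
  have s1 : ∃ g', dd κ g' = plf ι (∑ b, (a.mulVec x) b • z b {j}) - ∑ l, m l • plf (ψ l) (∑ b, x b • z b {j}) := by
    refine ⟨-∑ b, x b • fz κ (g b), ?_⟩
    have e1 : plf ι (∑ b, (a.mulVec x) b • z b {j}) = ∑ b, x b • ∑ b', a b' b • plf ι (z b' {j}) := by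
      rw [K5_sm]
      simp only [Finset.smul_sum]
      rw [Finset.sum_comm]
      refine Finset.sum_congr rfl fun b' _ => ?_
      simp only [Matrix.mulVec, dotProduct, Finset.sum_smul]
      exact Finset.sum_congr rfl fun b _ => by rw [mul_comm, mul_smul]
    rw [e1, K5_T, map_neg, map_sum, ← Finset.sum_sub_distrib, ← Finset.sum_neg_distrib]
    refine Finset.sum_congr rfl fun b _ => ?_
    rw [hgr b, dd_smul, dd_fz, smul_add, sub_add_cancel_left]
  -- step 2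
  have s2 : ∃ g', dd κ g' = (∑ l, m l • plf (ψ l) (∑ b, x b • z b {j})) -
      ∑ l, m l • plf (ψ l) (∑ b, c b • v b {j}) := by
    rw [← Finset.sum_sub_distrib]
    refine CovD.exact_sum _ _ fun l _ => ?_
    rw [← smul_sub, ← map_sub]
    exact CovD.exact_smul _ _ (K5_ex _ h)
  -- step 4
  have s4 : ∃ g', dd κ g' = (∑ l, m l • plf (ψ l) (∑ b, c b • v b {j})) - ∑ b', d b' • plf ι (v b' {j}) := by
    have e1 : ∑ b', d b' • plf ι (v b' {j}) = ∑ b : {b : B // 1 ≤ lev b}, c b •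
        ∑ b' : {b : B // 1 ≤ lev b}, a b'.1 b.1 ^ p • plf ι (v b' {j}) := by
      simp only [Finset.smul_sum]
      rw [Finset.sum_comm]
      refine Finset.sum_congr rfl fun b' _ => ?_
      simp only [hd, Finset.sum_smul]
      exact Finset.sum_congr rfl fun b _ => by rw [mul_comm, mul_smul]
    rw [e1, K5_T, ← Finset.sum_sub_distrib]
    refine CovD.exact_sum _ _ fun b _ => ?_
    rw [← smul_sub]
    exact CovD.exact_smul _ _ (s3 b)
  have s5 : ∃ g', dd κ g' = plf ι (∑ b, c' b • v b {j}) - ∑ b', d b' • plf ι (v b' {j}) := by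
    refine K5_trans (K5_symm ?_) (K5_trans s1 (K5_trans s2 s4))
    rw [← map_sub]
    exact K5_ex _ h'
  have s6 : (fun b => c' b - d b) = 0 := by
    refine enk_ind hbb (fun b : {b : B // 1 ≤ lev b} => plf ι (z b.1 {j})) (fun b => plf ι (v b {j}))
      (fun b => K5_map _ (hv b)) (fun c hc => K5_hi hι c hc) _ ?_
    rw [K5_sm, ← Finset.sum_sub_distrib] at s5
    obtain ⟨g', hg'⟩ := s5
    exact ⟨g', hg'.trans (Finset.sum_congr rfl fun b _ => (sub_smul _ _ _).symm)⟩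
  exact sub_eq_zero.1 (congrFun s6 b')

/-- LEAF K5, second theorem: the coefficients are unique.

Proof. The difference of the two exact forms is exact; apply `ι^*` (`plf_dd`, `plf_smul`) and `enk_ind` as above, to the
coefficients `c b - c' b`. -/
theorem enk_uniq {p : ℕ} [Fact p.Prime] {κ : Type u} [Field κ] [CharP κ p] {L : Type} [Fintype L] {bb : L → κ}
    (hbb : PBas p bb) {n : ℕ} {X : CovD.{u, u} κ n} {B : Type} [Fintype B] {lev : B → ℕ} {z : B → X.Ch}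
    {v : {b : B // 1 ≤ lev b} → X.Ch} {j : Fin n} (hv : ∀ b, Rep p (z b.1 {j}) (v b {j}))
    {S : Type u} [CommRing S] [Algebra κ S] [Algebra.Smooth κ S] {ι : X.R {j} →ₐ[κ] S}
    (hι : GeoI X lev z j ι) (w : X.E {j}) (c c' : {b : B // 1 ≤ lev b} → κ)
    (h : ∃ g, dd κ g = w - ∑ b, c b • v b {j}) (h' : ∃ g, dd κ g = w - ∑ b, c' b • v b {j}) : c = c' := by
  have h1 : ∃ g, dd κ g = (∑ b, c b • v b {j}) - ∑ b, c' b • v b {j} := by
    obtain ⟨g, hg⟩ := h
    obtain ⟨g', hg'⟩ := h'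
    exact ⟨g' - g, by rw [map_sub, hg, hg', sub_sub_sub_cancel_left]⟩
  have h2 : ∃ g, dd κ g = ∑ b, (c b - c' b) • plf ι (v b {j}) := by
    obtain ⟨g, hg⟩ := K5_ex ι h1
    rw [map_sub, K5_sm, K5_sm, ← Finset.sum_sub_distrib] at hg
    exact ⟨g, hg.trans (Finset.sum_congr rfl fun b _ => (sub_smul _ _ _).symm)⟩
  have h3 := enk_ind hbb (fun b : {b : B // 1 ≤ lev b} => plf ι (z b.1 {j})) (fun b => plf ι (v b {j}))
      (fun b => K5_map _ (hv b)) (fun c hc => K5_hi hι c hc) (fun b => c b - c' b) h2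
  funext b
  exact sub_eq_zero.1 (congrFun h3 b)

end MPadcGP
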