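import Pool.Agent.Lib.MP_adc574_ag_EN.Int
import Pool.Agent.Lib.MP_adc574_ag_EN.D3

/-!
# Leaf K6 (medium): linear algebra of the projectors
-/

set_option autoImplicit false
set_option linter.unusedSectionVars false

namespace MPadcGP

universe u v w

private theorem K6_sum {κ : Type u} [Field κ] {B : Type} [Fintype B] (lev : B → ℕ) (f : B → κ)
    (hf : ∀ b, lev b < 1 → f b = 0) : ∑ b : {b : B // 1 ≤ lev b}, f b.1 = ∑ b, f b := by
  classical
  have h1 := Finset.sum_subtype (F := inferInstance) (Finset.univ.filter (fun b : B => 1 ≤ lev b))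
    (p := fun b => 1 ≤ lev b) (fun b => by simp) f
  rw [← h1, Finset.sum_filter]
  refine Finset.sum_congr rfl fun b _ => ?_
  by_cases hb : 1 ≤ lev b
  · rw [if_pos hb]
  · rw [if_neg hb, hf b (by omega)]

/-- extension by zero -/
private def K6_E (κ : Type u) [Field κ] {B : Type} (lev : B → ℕ) :
    ({b : B // 1 ≤ lev b} → κ) →ₗ[κ] (B → κ) where
  toFun y b := if h : 1 ≤ lev b then y ⟨b, h⟩ else 0
  map_add' x y := by
    funext b
    by_cases h : 1 ≤ lev b
    · simp only [Pi.add_apply, dif_pos h]
    · simp only [Pi.add_apply, dif_neg h, add_zero]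
  map_smul' c x := by
    funext b
    by_cases h : 1 ≤ lev b
    · simp only [Pi.smul_apply, dif_pos h, RingHom.id_apply]
    · simp only [Pi.smul_apply, dif_neg h, RingHom.id_apply, smul_zero]

private theorem K6_E_pos {κ : Type u} [Field κ] {B : Type} {lev : B → ℕ} (y : {b : B // 1 ≤ lev b} → κ)
    (b : {b : B // 1 ≤ lev b}) : K6_E κ lev y b.1 = y b := dif_pos b.2

private theorem K6_E_neg {κ : Type u} [Field κ] {B : Type} {lev : B → ℕ} (y : {b : B // 1 ≤ lev b} → κ)
    {b : B} (hb : lev b < 1) : K6_E κ lev y b = 0 := dif_neg (by omega)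

/-- LEAF K6.

Proof. `T` is surjective: `finrank (ker T) = finrank P`, `finrank (range T) = card {b // 1 ≤ lev b}` by `hdim`.
Let `A` be the matrix `Matrix.of fun b' b : {b // 1 ≤ lev b} => a b'.1 b.1`. `T (a x) = A^(p) (T x)` with
`A^(p) = A.map (frobenius κ p)`. `T` restricted to `R = range a.mulVecLin` has the kernel `P ⊓ R` and the image
`T (a (B → κ)) = A^(p) (range T) = range A^(p).mulVecLin`; so `finrank R = finrank (P ⊓ R) + finrank (range A^(p))`
(`Submodule.finrank_map_add_finrank_ker` or rank-nullity for `T.domRestrict R`). `A * A = A`: by `ha` (as matrices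
`a * a = a`) and `hfil` (`(A * A) b' b = ∑ b'' with 1 ≤ lev b''`, and the `b''` with `lev b'' < 1` have `a b'' b = 0`). So
`finrank (range A^(p)) = finrank (range A)` by `en_rank` with `j = RingHom.id κ`, `φ = frobenius κ p` (`Matrix.map_id`).
Finally `range A ≃ flt lev κ 1 ⊓ R`: extension by zero `E : ({b // 1 ≤ lev b} → κ) → (B → κ)` is injective with the range
`flt lev κ 1`, `E (A y) = a (E y)` (`hfil`), so `E (range A) ≤ flt ⊓ R`; conversely for `x ∈ flt ⊓ R` we have `a x = x`
(`ha`), `x = E y`, so `x = E (A y)` (`LinearMap.finrank_map_eq`-type lemma for the injective `E`: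
`LinearEquiv.finrank_eq (Submodule.equivMapOfInjective ..)`). -/
theorem enk_lin {κ : Type u} [Field κ] {p : ℕ} [Fact p.Prime] [CharP κ p] {B : Type} [Fintype B] [DecidableEq B]
    (lev : B → ℕ) (a : Matrix B B κ) (hfil : ∀ b b', 1 ≤ lev b → lev b' < 1 → a b' b = 0)
    (P : Submodule κ (B → κ)) (T : (B → κ) →ₗ[κ] ({b : B // 1 ≤ lev b} → κ)) (hP : ∀ x, x ∈ P ↔ T x = 0)
    (hdim : Module.finrank κ P + Fintype.card {b : B // 1 ≤ lev b} = Fintype.card B)
    (hT : ∀ (x : B → κ) (b' : {b : B // 1 ≤ lev b}), T (a.mulVec x) b' = ∑ b, a b'.1 b.1 ^ p * T x b)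
    (ha : ∀ x, a.mulVecLin (a.mulVecLin x) = a.mulVecLin x) :
    Module.finrank κ ↥(P ⊓ LinearMap.range a.mulVecLin) +
      Module.finrank κ ↥(flt lev κ 1 ⊓ LinearMap.range a.mulVecLin) =
        Module.finrank κ ↥(LinearMap.range a.mulVecLin) := by
  classical
  have hPk : P = LinearMap.ker T := by
    ext x
    rw [hP, LinearMap.mem_ker]
  -- surjectivity
  have hsurj : Function.Surjective T := by
    have h1 := LinearMap.finrank_range_add_finrank_ker T
    rw [← hPk, Module.finrank_fintype_fun_eq_card] at h1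
    have h2 : Module.finrank κ (LinearMap.range T) = Module.finrank κ ({b : B // 1 ≤ lev b} → κ) := by
      rw [Module.finrank_fintype_fun_eq_card]
      omega
    exact LinearMap.range_eq_top.1 (Submodule.eq_top_of_finrank_eq h2)
  -- the matrix
  let A : Matrix {b : B // 1 ≤ lev b} {b : B // 1 ≤ lev b} κ := Matrix.of fun b' b => a b'.1 b.1
  have hA : ∀ b' b, A b' b = a b'.1 b.1 := fun _ _ => rfl
  have haa : a * a = a := by
    apply Matrix.toLin'.injective
    refine LinearMap.ext fun x => ?_
    rw [Matrix.toLin'_mul, LinearMap.comp_apply]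
    exact ha x
  have hAA : A * A = A := by
    refine Matrix.ext fun b' b => ?_
    rw [Matrix.mul_apply, hA]
    have h1 := congrFun (congrFun haa b'.1) b.1
    rw [Matrix.mul_apply] at h1
    rw [← h1, ← K6_sum lev (fun c => a b'.1 c * a c b.1)]
    · rfl
    · intro c hc
      rw [hfil b.1 c b.2 hc, mul_zero]
  -- T (a x) = A^(p) (T x)
  have hTa : ∀ x, T (a.mulVec x) = (A.map (frobenius κ p)).mulVec (T x) := by
    intro x
    funext b'
    rw [hT]
    rfl
  have hmap : (LinearMap.range a.mulVecLin).map T = LinearMap.range (A.map (frobenius κ p)).mulVecLin := by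
    ext y
    rw [Submodule.mem_map, LinearMap.mem_range]
    constructor
    · rintro ⟨x, ⟨z, rfl⟩, rfl⟩
      exact ⟨T z, (hTa z).symm⟩
    · rintro ⟨z, rfl⟩
      obtain ⟨x, rfl⟩ := hsurj z
      exact ⟨a.mulVecLin x, ⟨x, rfl⟩, hTa x⟩
  have hrk : Module.finrank κ (LinearMap.range A.mulVecLin) =
      Module.finrank κ (LinearMap.range (A.map (frobenius κ p)).mulVecLin) := by
    have h1 := en_rank (j := RingHom.id κ) Function.injective_id (frobenius κ p) A hAA
    have h2 : A.map (RingHom.id κ) = A := Matrix.ext fun _ _ => rfl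
    rw [h2] at h1
    exact h1
  -- rank and nullity on the range
  have h3 := LinearMap.finrank_range_add_finrank_ker (T.domRestrict (LinearMap.range a.mulVecLin))
  have h4 : LinearMap.ker (T.domRestrict (LinearMap.range a.mulVecLin)) =
      Submodule.comap (LinearMap.range a.mulVecLin).subtype (P ⊓ LinearMap.range a.mulVecLin) := by
    ext x
    rw [LinearMap.mem_ker, Submodule.mem_comap, Submodule.mem_inf, hP]
    exact ⟨fun h => ⟨h, x.2⟩, fun h => h.1⟩
  have h5 : Module.finrank κ (Submodule.comap (LinearMap.range a.mulVecLin).subtype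
      (P ⊓ LinearMap.range a.mulVecLin)) = Module.finrank κ ↥(P ⊓ LinearMap.range a.mulVecLin) :=
    (Submodule.comapSubtypeEquivOfLe inf_le_right).finrank_eq
  have h6 : LinearMap.range (T.domRestrict (LinearMap.range a.mulVecLin)) =
      (LinearMap.range a.mulVecLin).map T := LinearMap.range_domRestrict _ _
  rw [h6, hmap, h4, h5, ← hrk] at h3
  -- the filtration
  have hEinj : Function.Injective (K6_E κ lev) := by
    intro x y hxy
    funext b
    have h7 := congrFun hxy b.1
    rwa [K6_E_pos, K6_E_pos] at h7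
  have hEA : ∀ y, K6_E κ lev (A.mulVec y) = a.mulVec (K6_E κ lev y) := by
    intro y
    funext b
    by_cases hb : 1 ≤ lev b
    · have h8 := K6_E_pos (A.mulVec y) ⟨b, hb⟩
      rw [h8, Matrix.mulVec, Matrix.mulVec, dotProduct, dotProduct,
        ← K6_sum lev (fun c => a b c * K6_E κ lev y c)]
      · refine Finset.sum_congr rfl fun c _ => ?_
        rw [K6_E_pos]
        rfl
      · intro c hc
        rw [K6_E_neg y hc, mul_zero]
    · have hb' : lev b < 1 := by omega
      rw [K6_E_neg _ hb', Matrix.mulVec, dotProduct]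
      symm
      refine Finset.sum_eq_zero fun c _ => ?_
      by_cases hc : 1 ≤ lev c
      · rw [hfil c b hc hb', zero_mul]
      · rw [K6_E_neg y (by omega), mul_zero]
  have h9 : (LinearMap.range A.mulVecLin).map (K6_E κ lev) = flt lev κ 1 ⊓ LinearMap.range a.mulVecLin := by
    ext x
    rw [Submodule.mem_map, Submodule.mem_inf]
    constructor
    · rintro ⟨z, ⟨y, rfl⟩, rfl⟩
      refine ⟨fun b hb => K6_E_neg _ hb, ⟨K6_E κ lev y, ?_⟩⟩
      exact (hEA y).symm
    · rintro ⟨hx, ⟨z, rfl⟩⟩
      refine ⟨A.mulVecLin fun c => a.mulVecLin z c.1, ⟨_, rfl⟩, ?_⟩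
      have h10 : K6_E κ lev (fun c => a.mulVecLin z c.1) = a.mulVecLin z := by
        funext b
        by_cases hb : 1 ≤ lev b
        · exact K6_E_pos (fun c => a.mulVecLin z c.1) ⟨b, hb⟩
        · rw [K6_E_neg _ (by omega), hx b (by omega)]
      have h11 := hEA fun c => a.mulVecLin z c.1
      rw [h10] at h11
      exact h11.trans (ha z)
  have h12 : Module.finrank κ ↥(flt lev κ 1 ⊓ LinearMap.range a.mulVecLin) =
      Module.finrank κ (LinearMap.range A.mulVecLin) := by
    rw [← h9]
    exact (Submodule.equivMapOfInjective _ hEinj _).symm.finrank_eq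
  rw [h12, add_comm]
  exact h3

end MPadcGP
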