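import Pool.Agent.Lib.MP_adc574_ag_EN.Int
import Pool.Agent.Lib.MP_adc574_ag_GP.GlCon
import Pool.Agent.Lib.MP_adc574_ag_GP.CarFin
import Pool.Agent.Lib.MP_adc574_ag_EN.K1
import Pool.Agent.Lib.MP_adc574_ag_EN.K3
import Pool.Agent.Lib.MP_adc574_ag_EN.K5
import Pool.Agent.Lib.MP_adc574_ag_EN.K6

/-!
# Block K: geometric endomorphisms of `H^1` in characteristic `p`
-/

set_option autoImplicit false
set_option linter.unusedSectionVars false

namespace MPadcGP

universe u v w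

/-- BLOCK K. Over a field `κ` of characteristic `p` the first step `P = con 1 0` of the conjugate filtration of `H^1`
is stable under a geometric endomorphism with coefficients in the prime field, and for a projector the intersection
with its image has the dimension complementary to that of `F^1`.

Proof. Let `F = {b | 1 ≤ lev 1 b}`, `f_b = z 1 b {j} ∈ Ω^1(R_j)` for `b ∈ F` (in `Fi 1 1`, a global form), and
`v_b ∈ Zc`-type representatives (`RepC p 1 1 (z 1 b) (v_b)`, `RepC.exists`): on every chart `v_b` represents `f_b`.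

(1) For every cocycle `w ∈ Zc 1` there is `c : F → κ` such that on every chart `{i}` the form `w {i} - ∑ c_b • v_b {i}` is
exact; the class of `w` is in `Con 1 0` iff `c = 0`. (`CovD.conj_comb` with `a = m = 1`: `w ∈ ZZ Dt (Mi 1) (Np 2) 1`;
`hspan`: every `y ∈ ZZ Dt (Fi 2) (Fi 1) 1` is a combination of the `z 1 b`, `b ∈ F`, because `Fi 2 1 = ⊥`, the map
`HH zs (Fi 1) 1 → HH (Fi 2) (Fi 1) 1` is injective and the dimensions agree, `FH_finrank`; and `BB Dt (Mi 1) (Np 2) 1`: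
elements of `Mi 1 1` are exact on the charts, `Dt` of a cochain of functions is exact on the charts. Uniqueness of `c`:
(2) with `S = R_j` and independence of the `f_b` in `Ω^1(R_i)` for all `i`, or by dimensions: the classes with `c = 0` are
`Con 1 0`: `w {i} = d g_i` for all `i`, subtract `Dt (g_i)`, the rest has form degree 0.)

(2) `c : F → κ` with `∑ c_b • ι^* v_b {j}` exact in `S` is `0`: `c_b = ∑_l e_(l,b)^p bb_l` (`PBas`), so
`∑_l bb_l • (∑_b e_(l,b)^p • ι^* v_b)` is exact, `∑_b e_(l,b)^p • ι^* v_b` represents `∑_b e_(l,b) • ι^* f_b`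
(`Rep.sum`, `Rep.smul`, `Rep` under `plf`), so by `CarP.inj` for `S` (`carP_of_smooth hbb`) `∑_b e_(l,b) • ι^* f_b = 0` and
`e = 0` by `hι`.

(3) Let `x : β 1 → κ`, `w = ∑ x_b z_b`, `T x = c` as in (1). Then `T (a x) = A^(p) (T x)`, `A^(p) = (a b' b ^ p)` on `F`:
`∑ m_l ψ_l^* w{j} = ι^* (∑ (a x)_b' z_b'{j}) + dg` by `hg.rel`; the left side is `∑_b c_b ∑_l m_l ψ_l^* v_b + exact`;
`∑_l m_l ψ_l^* v_b = ∑_l m_l^p ψ_l^* v_b` represents `∑_l m_l ψ_l^* f_b = ∑_b' a b' b • ι^* f_b'` (`hg.relF`, `hg.fil`), as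
does `∑_b' a b' b ^ p • ι^* v_b'`, so the two differ by an exact form (`Rep.exact_sub`). Now (2).

(4) `x ∈ con 1 0` iff `T x = 0`. Stability is clear. If `a` is a projector `e`: `T` induces an isomorphism of `H/P` with
`κ^F` (surjective by dimensions: `DimC` for `m = 1`, `i = 0`, i.e. `CovD.dim_of_carP`), so the rank of `e` on `H/P` is the
rank of `A^(p)`, that is the rank of `A = e` on `F^1`, `= dim (F^1 ∩ im e)`; and `dim (im e) = dim (P ∩ im e) +` the rank
of `e` on `H/P`. -/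
theorem en_con {p : ℕ} [Fact p.Prime] {κ : Type u} [Field κ] [CharP κ p] {L : Type} [Fintype L] {bb : L → κ}
    (hbb : PBas p bb) {n : ℕ} {X : CovD.{u, u} κ n} (hc : ∀ J : Finset (Fin n), J.Nonempty → CarP p bb (X.R J))
    (hf : ∀ q m, FiniteDimensional κ (HH X.Dt (X.Fi (q + 1)) (X.Fi q) m))
    (hsum : ∀ m, ∑ q ∈ Finset.range (m + 1), Module.finrank κ (HH X.Dt (X.Fi (q + 1)) (X.Fi q) m) ≤
      Module.finrank κ (X.HdR m))
    {β : ℕ → Type} [∀ m, Fintype (β m)] [DecidableEq (β 1)] {lev : ∀ m, β m → ℕ} {z : ∀ m, β m → X.Ch}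
    (had : IsAd X lev z) {j : Fin n} {S : Type u} [CommRing S] [Algebra κ S] [Algebra.Smooth κ S] {N : ℕ}
    {m : Fin N → κ} (hm : ∀ l, m l ^ p = m l) {ψ : Fin N → (X.R {j} →ₐ[κ] S)} {ι : X.R {j} →ₐ[κ] S}
    {a : Matrix (β 1) (β 1) κ} (hg : GeoR X (lev 1) (z 1) j S m ψ ι a) (hι : GeoI X (lev 1) (z 1) j ι) :
    (∀ x ∈ had.con 1 0, a.mulVecLin x ∈ had.con 1 0) ∧
      ((∀ x, a.mulVecLin (a.mulVecLin x) = a.mulVecLin x) →
        Module.finrank κ ↥(had.con 1 0 ⊓ LinearMap.range a.mulVecLin) +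
          Module.finrank κ ↥(flt (lev 1) κ 1 ⊓ LinearMap.range a.mulVecLin) =
            Module.finrank κ ↥(LinearMap.range a.mulVecLin)) := by
  classical
  have hx0 : ∀ b : {b : β 1 // 1 ≤ lev 1 b}, z 1 b.1 ∅ = 0 := fun b => (had.mem 1 b.1).1.1
  have hx1 : ∀ b : {b : β 1 // 1 ≤ lev 1 b}, ∀ J : Finset (Fin n), J.card + 1 = 1 + 1 →
      z 1 b.1 J ∈ Fd κ (X.R J) 1 := fun b J hJ => ((had.mem 1 b.1).1.2 J).1 1 (by omega)
  choose v hv using fun b : {b : β 1 // 1 ≤ lev 1 b} => CovD.RepC.exists (p := p) (hx0 b) (hx1 b)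
  have hvj : ∀ b, Rep p (z 1 b.1 {j}) (v b {j}) := fun b => (hv b).rep {j} (by rw [Finset.card_singleton])
  have hlc : ∀ (x : β 1 → κ) (i : Fin n), (had.lc 1 x : X.Ch) {i} = ∑ b, x b • z 1 b {i} := by
    intro x i
    rw [IsAd.lc_coe, Finset.sum_apply]
    rfl
  choose T0 hT0 using fun x : β 1 → κ => enk_comb hc hf hsum had v hv (had.lc 1 x : X.Ch) (had.lc 1 x).2
  have huniq : ∀ (x : β 1 → κ) (c : {b : β 1 // 1 ≤ lev 1 b} → κ),
      (∃ g, dd κ g = (had.lc 1 x : X.Ch) {j} - ∑ b, c b • v b {j}) → T0 x = c := fun x c h =>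
    enk_uniq hbb hvj hι _ _ _ (hT0 x j) h
  have hadd : ∀ x y, T0 (x + y) = T0 x + T0 y := by
    intro x y
    apply huniq
    obtain ⟨g, hg1⟩ := hT0 x j
    obtain ⟨g', hg2⟩ := hT0 y j
    refine ⟨g + g', ?_⟩
    rw [map_add, hg1, hg2, hlc, hlc, hlc]
    have e1 : ∑ b, (x + y) b • z 1 b {j} = ∑ b, x b • z 1 b {j} + ∑ b, y b • z 1 b {j} := by
      rw [← Finset.sum_add_distrib]
      exact Finset.sum_congr rfl fun b _ => by rw [Pi.add_apply, add_smul]
    have e2 : ∑ b, (T0 x + T0 y) b • v b {j} = ∑ b, T0 x b • v b {j} + ∑ b, T0 y b • v b {j} := by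
      rw [← Finset.sum_add_distrib]
      exact Finset.sum_congr rfl fun b _ => by rw [Pi.add_apply, add_smul]
    rw [e1, e2]
    abel
  have hsmul : ∀ (r : κ) (x : β 1 → κ), T0 (r • x) = r • T0 x := by
    intro r x
    apply huniq
    obtain ⟨g, hg1⟩ := hT0 x j
    refine ⟨r • g, ?_⟩
    rw [dd_smul, hg1, hlc, hlc, smul_sub, Finset.smul_sum, Finset.smul_sum]
    have e1 : ∑ b, (r • x) b • z 1 b {j} = ∑ b, r • x b • z 1 b {j} :=
      Finset.sum_congr rfl fun b _ => by rw [Pi.smul_apply, smul_eq_mul, mul_smul]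
    have e2 : ∑ b, (r • T0 x) b • v b {j} = ∑ b, r • T0 x b • v b {j} :=
      Finset.sum_congr rfl fun b _ => by rw [Pi.smul_apply, smul_eq_mul, mul_smul]
    rw [e1, e2]
  let T : (β 1 → κ) →ₗ[κ] ({b : β 1 // 1 ≤ lev 1 b} → κ) :=
    { toFun := T0
      map_add' := hadd
      map_smul' := hsmul }
  have hT : ∀ x, T x = T0 x := fun _ => rfl
  have hP : ∀ x, x ∈ had.con 1 0 ↔ T x = 0 := by
    intro x
    have h1 : x ∈ had.con 1 0 ↔ X.cl 1 (had.lc 1 x) ∈ X.Con 1 0 := by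
      rw [had.mem_con, had.eqv_apply]
    rw [h1, enk_con, hT]
    constructor
    · intro h
      apply huniq
      obtain ⟨g, hg1⟩ := h j
      refine ⟨g, ?_⟩
      rw [hg1, Finset.sum_eq_zero fun b _ => by rw [Pi.zero_apply, zero_smul], sub_zero]
    · intro h i
      obtain ⟨g, hg1⟩ := hT0 x i
      refine ⟨g, ?_⟩
      rw [hg1, h, Finset.sum_eq_zero fun b _ => by rw [Pi.zero_apply, zero_smul], sub_zero]
  have hact : ∀ (x : β 1 → κ) (b' : {b : β 1 // 1 ≤ lev 1 b}),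
      T (a.mulVec x) b' = ∑ b, a b'.1 b.1 ^ p * T x b := by
    intro x b'
    have h1 := hT0 x j
    have h2 := hT0 (a.mulVec x) j
    rw [hlc] at h1 h2
    exact enk_act hbb hvj hm hg hι x (T0 x) (T0 (a.mulVec x)) h1 h2 b'
  refine ⟨fun x hx => ?_, fun ha => ?_⟩
  · rw [hP] at hx ⊢
    rw [Matrix.mulVecLin_apply]
    funext b'
    rw [hact, Pi.zero_apply]
    refine Finset.sum_eq_zero fun b _ => ?_
    rw [hx, Pi.zero_apply, mul_zero]
  · have hdim : Module.finrank κ (had.con 1 0) + Fintype.card {b : β 1 // 1 ≤ lev 1 b} = Fintype.card (β 1) := by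
      have h1 := CovD.dim_of_carP hf hsum hc 1 0
      have h2 := had.finrank_con 1 0
      have h3 := had.finrank_Fil 1 1
      have h4 := had.finrank 1
      have h5 : Fintype.card {b : β 1 // ¬ lev 1 b < 1} = Fintype.card {b : β 1 // 1 ≤ lev 1 b} :=
        Fintype.card_congr (Equiv.subtypeEquivRight fun b => not_lt)
      have h6 : X.Fil 1 (0 + 1) = X.Fil 1 1 := rfl
      rw [h6] at h1
      omega
    exact enk_lin (lev 1) a hg.fil (had.con 1 0) T hP hdim hact ha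

end MPadcGP
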