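import Pool.Agent.Lib.MP_adc574_ag_EN.Int
import Pool.Agent.Lib.MP_adc574_ag_GP.G2U

/-!
# Block U: the theorem U for linear data with endomorphisms
-/

set_option autoImplicit false
set_option linter.unusedSectionVars false

namespace MPadcGP

open MPadcCM MPadcGM

universe u v w

namespace EndD

section dims

variable {ι : Type} [Add ι] {A : Type u} [CommRing A] {X : LinW ι A} (Y : EndD X) {E : Type v} [Field E]

/-- The sum is the product of the first steps. -/
def U_eqv (P : ∀ t, ℕ → Submodule E (X.β t → E)) : ↥(Y.tot P) ≃ₗ[E] (∀ t : Y.Q, ↥(P (Y.w t) 0)) where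
  toFun x t := ⟨fun b => x.1 ⟨t, b⟩, x.2 t⟩
  map_add' _ _ := rfl
  map_smul' _ _ := rfl
  invFun y := ⟨fun b => (y b.1).1 b.2, fun t => (y t).2⟩
  left_inv _ := rfl
  right_inv _ := rfl

theorem U_finrank (P : ∀ t, ℕ → Submodule E (X.β t → E)) :
    Module.finrank E ↥(Y.tot P) = ∑ t, Module.finrank E ↥(P (Y.w t) 0) := by
  rw [(Y.U_eqv P).finrank_eq, Module.finrank_pi_fintype]

/-- The codimension of the sum. -/
def U_c : ℕ := ∑ t : Y.Q, Fintype.card {b : X.β (Y.w t) // 1 ≤ X.lev (Y.w t) b}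

theorem U_card (P : ∀ t, ℕ → Submodule E (X.β t → E))
    (h : ∀ t, Module.finrank E ↥(P t 0) + Fintype.card {b : X.β t // 1 ≤ X.lev t b} = Fintype.card (X.β t)) :
    Module.finrank E ↥(Y.tot P) + Y.U_c = Fintype.card Y.B := by
  rw [U_finrank, U_c, ← Finset.sum_add_distrib, Fintype.card_sigma]
  exact Finset.sum_congr rfl fun t _ => h _

/-- For a projector which preserves a subspace. -/
theorem U_dim {n : Type} [Fintype n] (V : Submodule E (n → E)) (f : (n → E) →ₗ[E] (n → E))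
    (hf : ∀ x, f (f x) = f x) (hV : ∀ x ∈ V, f x ∈ V) :
    Module.finrank E ↥(V ⊓ LinearMap.range f) + Module.finrank E ↥(V ⊓ LinearMap.ker f) =
      Module.finrank E ↥V := by
  have h1 := Submodule.finrank_sup_add_finrank_inf_eq (V ⊓ LinearMap.range f) (V ⊓ LinearMap.ker f)
  have h2 : (V ⊓ LinearMap.range f) ⊓ (V ⊓ LinearMap.ker f) = ⊥ := by
    rw [eq_bot_iff]
    rintro x ⟨⟨_, ⟨y, rfl⟩⟩, ⟨_, h⟩⟩
    have h3 : f (f y) = 0 := h
    rw [hf] at h3
    rw [Submodule.mem_bot]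
    exact h3
  have h3 : (V ⊓ LinearMap.range f) ⊔ (V ⊓ LinearMap.ker f) = V := by
    apply le_antisymm (sup_le inf_le_left inf_le_left)
    intro x hx
    have h4 : x = f x + (x - f x) := by abel
    rw [h4]
    refine Submodule.add_mem_sup ⟨hV x hx, ⟨x, rfl⟩⟩ ⟨Submodule.sub_mem _ hx (hV x hx), ?_⟩
    change f (x - f x) = 0
    rw [map_sub, hf, sub_self]
  rw [h2, h3, finrank_bot, add_zero] at h1
  exact h1.symm

/-- A subspace of the same dimension. -/
theorem U_eq {n : Type} [Fintype n] (V T : Submodule E (n → E)) (h : T ≤ V) {c : ℕ}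
    (hV : Module.finrank E ↥V + c = Fintype.card n) (hT : Module.finrank E ↥T + c = Fintype.card n) : T = V :=
  Submodule.eq_of_le_of_finrank_eq h (by omega)

/-- The dimension of the image of a projector on a subspace. -/
theorem U_core {n : Type} [Fintype n] (V Z R S : Submodule E (n → E)) (f : (n → E) →ₗ[E] (n → E)) {c d : ℕ}
    (hf : ∀ x, f (f x) = f x) (hV : ∀ x ∈ V, f x ∈ V) (hc : Module.finrank E ↥V + c = Fintype.card n)
    (hZ : Module.finrank E ↥Z + Fintype.card n = Fintype.card n)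
    (hR : ∀ x ∈ R, x ∈ V) (hS : ∀ x ∈ S, x ∈ V) (hRz : ∀ x ∈ R, x - f x ∈ Z) (hSz : ∀ x ∈ S, f x ∈ Z)
    (hRd : Module.finrank E ↥R + (Fintype.card n - d) = Fintype.card n)
    (hSd : Module.finrank E ↥S + (c + d) = Fintype.card n) :
    Module.finrank E ↥(V ⊓ LinearMap.range f) = d := by
  have hz : Z = ⊥ := by
    rw [← Submodule.finrank_eq_zero (R := E)]
    omega
  have h1 : R ≤ V ⊓ LinearMap.range f := fun x hx => by
    have h2 := hRz x hx
    rw [hz, Submodule.mem_bot, sub_eq_zero] at h2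
    exact ⟨hR x hx, ⟨x, h2.symm⟩⟩
  have h2 : S ≤ V ⊓ LinearMap.ker f := fun x hx => by
    have h2 := hSz x hx
    rw [hz, Submodule.mem_bot] at h2
    exact ⟨hS x hx, h2⟩
  have h3 := Submodule.finrank_mono h1
  have h4 := Submodule.finrank_mono h2
  have h5 := U_dim V f hf hV
  omega

theorem U_app_app {φ : A →+* E} {l : Fin Y.r} (h : Y.al l * Y.al l = Y.al l) (x : Y.B → E) :
    Y.app φ l (Y.app φ l x) = Y.app φ l x := by
  unfold app
  rw [Matrix.mulVecLin_apply, Matrix.mulVecLin_apply, Matrix.mulVec_mulVec, ← Matrix.map_mul, h]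

theorem U_sub_zero {φ : A →+* E} {l : Fin Y.r} (h : Y.al l * Y.al l = Y.al l) (x : Y.B → E)
    (hx : x ∈ LinearMap.range (Y.app φ l)) : x - Y.app φ l x = 0 := by
  obtain ⟨y, rfl⟩ := hx
  rw [Y.U_app_app h, sub_self]

end dims

section pd

variable {ι : Type} [Add ι] {A : Type u} [CommRing A] {X : LinW ι A} (Y : EndD X)

/-- The pieces. -/
abbrev UT (Bd : Finset ι) (M : ℕ) (I : Fin Y.r → Prop) : Type :=
  (↥Bd × Fin (M + 1)) ⊕ (Bool ⊕ (Bool × {l : Fin Y.r // I l}))

/-- The index sets of the bases. -/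
def Ub : Option ι → Type
  | none => Y.B
  | some t => X.β t

/-- The index sets are finite. -/
@[instance_reducible]
def Ufin : ∀ s : Option ι, Fintype (Y.Ub s)
  | none => inferInstanceAs (Fintype Y.B)
  | some t => X.fin t

/-- The space of a piece. -/
def Usp {Bd : Finset ι} {M : ℕ} {I : Fin Y.r → Prop} : Y.UT Bd M I → Option ι
  | .inl t => some t.1
  | .inr _ => none

/-- The codimension of a piece. -/
noncomputable def Ur (k : Type v) [Field k] {Bd : Finset ι} {M : ℕ} {I : Fin Y.r → Prop} (d : Fin Y.r → ℕ) :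
    Y.UT Bd M I → ℕ
  | .inl t => Module.finrank k (X.fl k t.1 (t.2 + 1))
  | .inr (.inl false) => Y.U_c
  | .inr (.inl true) => Fintype.card Y.B
  | .inr (.inr (false, l)) => Fintype.card Y.B - d l
  | .inr (.inr (true, l)) => Y.U_c + d l

/-- The linear relations. -/
inductive UE (Bd : Finset ι) (M : ℕ) (I : Fin Y.r → Prop) : Type
  | old (t : ↥Bd × Fin (M + 1)) (h : t.2.1 + 1 < M + 1)
  | pr (t : Y.Q) (h : Y.w t ∈ Bd)
  | en (l : Fin Y.r)
  | inc (q : Bool × {l : Fin Y.r // I l})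
  | zim (l : {l : Fin Y.r // I l})
  | zke (l : {l : Fin Y.r // I l})

/-- The source. -/
def Usrc {Bd : Finset ι} {M : ℕ} {I : Fin Y.r → Prop} : Y.UE Bd M I → Y.UT Bd M I
  | .old t _ => .inl t
  | .pr _ _ => .inr (.inl false)
  | .en _ => .inr (.inl false)
  | .inc q => .inr (.inr q)
  | .zim l => .inr (.inr (false, l))
  | .zke l => .inr (.inr (true, l))

/-- The target. -/
def Utgt {Bd : Finset ι} {M : ℕ} {I : Fin Y.r → Prop} : Y.UE Bd M I → Y.UT Bd M I
  | .old t h => .inl (t.1, ⟨t.2.1 + 1, h⟩)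
  | .pr t h => .inl (⟨Y.w t, h⟩, 0)
  | .en _ => .inr (.inl false)
  | .inc _ => .inr (.inl false)
  | .zim _ => .inr (.inl true)
  | .zke _ => .inr (.inl true)

open Classical in
/-- The matrix. -/
noncomputable def UM {Bd : Finset ι} {M : ℕ} {I : Fin Y.r → Prop} :
    ∀ e : Y.UE Bd M I, Y.Ub (Y.Usp (Y.Usrc e)) → Y.Ub (Y.Usp (Y.Utgt e)) → A
  | .old t _ => X.idm t.1
  | .pr t _ => fun (b : Y.B) (b' : X.β (Y.w t)) => if b = ⟨t, b'⟩ then 1 else 0
  | .en l => fun (b b' : Y.B) => Y.al l b' b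
  | .inc _ => fun (b b' : Y.B) => if b = b' then 1 else 0
  | .zim l => fun (b b' : Y.B) => (if b = b' then 1 else 0) - Y.al l b' b
  | .zke l => fun (b b' : Y.B) => Y.al l b' b

open Classical in
/-- The pieces data. -/
noncomputable def toPD (k : Type v) [Field k] (Bd : Finset ι) (M : ℕ) (I : Fin Y.r → Prop) (d : Fin Y.r → ℕ) :
    PD.{u, u} A where
  S := Option ι
  β := Y.Ub
  fin := Y.Ufin
  T := Y.UT Bd M I
  sp := Y.Usp
  r := Y.Ur k d
  E1 := Y.UE Bd M I
  src1 := Y.Usrc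
  tgt1 := Y.Utgt
  M1 := Y.UM
  E2 := {q : (↥Bd × Fin (M + 1)) × (↥Bd × Fin (M + 1)) // q.1.1.1 + q.2.1.1 ∈ Bd ∧ q.1.2.1 + q.2.2.1 < M + 1}
  srcA q := .inl q.1.1
  srcB q := .inl q.1.2
  tgt2 q := .inl (⟨q.1.1.1.1 + q.1.2.1.1, q.2.1⟩, ⟨q.1.1.2.1 + q.1.2.2.1, q.2.2⟩)
  M2 _ := X.mu _ _
  E0 := Σ t : ↥Bd × Fin (M + 1), X.Lg t.1 t.2
  tgt0 e := .inl e.1
  g0 e := e.2.1

/-- The family of a filtration. -/
noncomputable def Ufam {Bd : Finset ι} {M : ℕ} {I : Fin Y.r → Prop} {E : Type w} [Field E] (φ : A →+* E)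
    (P : ∀ n, ℕ → Submodule E (X.β n → E)) : ∀ t : Y.UT Bd M I, Submodule E (Y.Ub (Y.Usp t) → E)
  | .inl t => P t.1 t.2
  | .inr (.inl false) => Y.tot P
  | .inr (.inl true) => (⊥ : Submodule E (Y.B → E))
  | .inr (.inr (false, l)) => Y.tot P ⊓ LinearMap.range (Y.app φ l)
  | .inr (.inr (true, l)) => Y.tot P ⊓ LinearMap.ker (Y.app φ l)

end pd

section fam

variable {ι : Type} [Add ι] {A : Type u} [CommRing A] {X : LinW ι A} (Y : EndD X) {E : Type w} [Field E]
  (φ : A →+* E)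

open Classical in
theorem U_ap_pr (t : Y.Q) (x : Y.B → E) :
    ap1 φ (fun (b : Y.B) (b' : X.β (Y.w t)) => if b = ⟨t, b'⟩ then (1 : A) else 0) x = fun b' => x ⟨t, b'⟩ := by
  funext b'
  unfold ap1
  beta_reduce
  rw [Finset.sum_eq_single (⟨t, b'⟩ : Y.B)]
  · rw [if_pos rfl, map_one, one_mul]
  · intro a _ ha
    rw [if_neg ha, map_zero, zero_mul]
  · intro h
    exact absurd (Finset.mem_univ _) h

open Classical in
theorem U_ap_id (x : Y.B → E) : ap1 φ (fun b b' : Y.B => if b = b' then (1 : A) else 0) x = x := by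
  funext b'
  unfold ap1
  beta_reduce
  rw [Finset.sum_eq_single b']
  · rw [if_pos rfl, map_one, one_mul]
  · intro a _ ha
    rw [if_neg ha, map_zero, zero_mul]
  · intro h
    exact absurd (Finset.mem_univ _) h

theorem U_ap_al (l : Fin Y.r) (x : Y.B → E) : ap1 φ (fun b b' : Y.B => Y.al l b' b) x = Y.app φ l x := by
  funext b'
  rfl

open Classical in
theorem U_ap_sub (l : Fin Y.r) (x : Y.B → E) :
    ap1 φ (fun b b' : Y.B => (if b = b' then (1 : A) else 0) - Y.al l b' b) x = x - Y.app φ l x := by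
  have h : ap1 φ (fun b b' : Y.B => (if b = b' then (1 : A) else 0) - Y.al l b' b) x =
      ap1 φ (fun b b' : Y.B => if b = b' then (1 : A) else 0) x - ap1 φ (fun b b' : Y.B => Y.al l b' b) x := by
    funext b'
    rw [Pi.sub_apply]
    unfold ap1
    rw [← Finset.sum_sub_distrib]
    refine Finset.sum_congr rfl fun b _ => ?_
    rw [map_sub, sub_mul]
  rw [h, U_ap_id, U_ap_al]

variable {φ}

/-- A filtration which is stable under the endomorphisms gives a family. -/
theorem isFam_of_end (k : Type v) [Field k] (Bd : Finset ι) (M : ℕ) {I : Fin Y.r → Prop} {d : Fin Y.r → ℕ}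
    (hI : ∀ l, I l → Y.al l * Y.al l = Y.al l)
    {P : ∀ n, ℕ → Submodule E (X.β n → E)} (hP : X.IsConj φ P) (hE : Y.IsEnd φ I d P) :
    IsFam (Y.toPD k Bd M I d) φ (Y.Ufam φ P) := by
  classical
  have hc : Module.finrank E ↥(Y.tot P) + Y.U_c = Fintype.card Y.B := by
    refine Y.U_card P fun t => ?_
    have h1 := X.card_lev t 0
    have h2 := hP.dim t 0
    rw [h2]
    exact h1
  have hd : ∀ l, I l → Module.finrank E ↥(Y.tot P ⊓ LinearMap.range (Y.app φ l)) +
      Module.finrank E ↥(Y.tot P ⊓ LinearMap.ker (Y.app φ l)) = Module.finrank E ↥(Y.tot P) := fun l hl =>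
    U_dim _ _ (Y.U_app_app (hI l hl)) (hE.stab l)
  refine ⟨fun t => ?_, fun e x hx => ?_, fun e x hx y hy => ?_, fun e => ?_⟩
  · rcases t with t | (b | ⟨b, l⟩)
    · have h1 := X.card_lev t.1.1 t.2.1
      have h2 := hP.dim t.1.1 t.2.1
      have h3 : (Y.toPD k Bd M I d).r (.inl t) = Fintype.card {b : X.β t.1 // t.2.1 + 1 ≤ X.lev t.1 b} :=
        X.finrank_fl k t.1 (t.2 + 1)
      rw [h3]
      change Module.finrank E (P t.1 t.2) + _ = Fintype.card (X.β t.1)
      omega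
    · cases b
      · exact hc
      · change Module.finrank E ↥(⊥ : Submodule E (Y.B → E)) + Fintype.card Y.B = Fintype.card Y.B
        rw [finrank_bot, zero_add]
    · cases b
      · change Module.finrank E ↥(Y.tot P ⊓ LinearMap.range (Y.app φ l)) + (Fintype.card Y.B - d l) =
          Fintype.card Y.B
        have h1 := hd l l.2
        rw [hE.dim l l.2] at h1 ⊢
        omega
      · change Module.finrank E ↥(Y.tot P ⊓ LinearMap.ker (Y.app φ l)) + (Y.U_c + d l) = Fintype.card Y.B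
        have h1 := hd l l.2
        rw [hE.dim l l.2] at h1
        omega
  · cases e with
    | old t h =>
      have h1 : ap1 φ (X.idm t.1) x = x := X.ap1_idm φ _ x
      change ap1 φ (X.idm t.1) x ∈ P t.1 (t.2.1 + 1)
      rw [h1]
      exact hP.mono _ _ hx
    | pr t h =>
      have h1 := Y.U_ap_pr φ t x
      change ap1 φ (fun (b : Y.B) (b' : X.β (Y.w t)) => if b = ⟨t, b'⟩ then (1 : A) else 0) x ∈ P (Y.w t) 0
      rw [h1]
      exact hx t
    | en l =>
      change ap1 φ (fun b b' : Y.B => Y.al l b' b) x ∈ Y.tot P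
      rw [U_ap_al]
      exact hE.stab l x hx
    | inc q =>
      change ap1 φ (fun b b' : Y.B => if b = b' then (1 : A) else 0) x ∈ Y.tot P
      rw [U_ap_id]
      rcases q with ⟨b, l⟩
      cases b
      · exact hx.1
      · exact hx.1
    | zim l =>
      change ap1 φ (fun b b' : Y.B => (if b = b' then (1 : A) else 0) - Y.al l b' b) x ∈
        (⊥ : Submodule E (Y.B → E))
      rw [U_ap_sub, Submodule.mem_bot]
      exact Y.U_sub_zero (hI l l.2) x hx.2
    | zke l =>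
      change ap1 φ (fun b b' : Y.B => Y.al l b' b) x ∈ (⊥ : Submodule E (Y.B → E))
      rw [U_ap_al, Submodule.mem_bot]
      exact hx.2
  · exact hP.mul _ _ _ _ x hx y hy
  · exact hP.log _ _ _ e.2.2

end fam

section conv

variable {ι : Type} [Add ι] {A : Type u} [CommRing A] {X : LinW ι A} (Y : EndD X) {k : Type v} [Field k]
  {j : A →+* k} {Bd : Finset ι} {M : ℕ} {I : Fin Y.r → Prop} {d : Fin Y.r → ℕ}

/-- The old pieces of a family are a family. -/
theorem U_old {P : ∀ t : Y.UT Bd M I, Submodule k (Y.Ub (Y.Usp t) → k)} (hP : IsFam (Y.toPD k Bd M I d) j P) :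
    IsFam (X.toPD k Bd (M + 1)) j (fun t => (P (.inl t) : Submodule k (X.β t.1 → k))) :=
  ⟨fun t => hP.codim (.inl t), fun e x hx => hP.rel1 (.old e.1 e.2) x hx,
    fun e x hx y hy => hP.rel2 e x hx y hy, fun e => hP.rel0 e⟩

open Classical in
/-- The filtration of a family. -/
noncomputable def Ufil (P : ∀ t : Y.UT Bd M I, Submodule k (Y.Ub (Y.Usp t) → k)) :
    ∀ n, ℕ → Submodule k (X.β n → k) :=
  fun n i => if h : n ∈ Bd ∧ i < M + 1 then P (.inl (⟨n, h.1⟩, ⟨i, h.2⟩)) else ⊤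

theorem U_conj (hBd : ∀ n, n ∉ Bd → IsEmpty (X.β n)) (hM : ∀ n b, X.lev n b < M + 1)
    {P : ∀ t : Y.UT Bd M I, Submodule k (Y.Ub (Y.Usp t) → k)} (hP : IsFam (Y.toPD k Bd M I d) j P) :
    MPadcGP2.IsConjugateType (fun n i => X.fl k n i) (fun n n' x y z => z = X.mul j n n' x y)
      (fun n i => {x | ∃ g ∈ X.Lg n i, x = fun b => j (g b)}) (Y.Ufil P) :=
  X.conj_of_isFam hBd hM (Y.U_old hP)

theorem U_end (hBd : ∀ n, n ∉ Bd → IsEmpty (X.β n)) (hM : ∀ n b, X.lev n b < M + 1)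
    (hI : ∀ l, I l → Y.al l * Y.al l = Y.al l)
    {P : ∀ t : Y.UT Bd M I, Submodule k (Y.Ub (Y.Usp t) → k)} (hP : IsFam (Y.toPD k Bd M I d) j P) :
    Y.IsEnd j I d (Y.Ufil P) := by
  classical
  have hc : Module.finrank k ↥(Y.tot (Y.Ufil P)) + Y.U_c = Fintype.card Y.B := by
    refine Y.U_card _ fun t => ?_
    have h1 := (Y.U_conj hBd hM hP).dim t 0
    rw [X.finrank_fl, Module.finrank_fintype_fun_eq_card] at h1
    exact h1
  -- the piece `tot`
  have ht : (P (.inr (.inl false)) : Submodule k (Y.B → k)) = Y.tot (Y.Ufil P) := by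
    refine U_eq (n := Y.B) (Y.tot (Y.Ufil P)) (P (.inr (.inl false))) (fun x hx t => ?_) hc
      (hP.codim (.inr (.inl false)))
    by_cases h : Y.w t ∈ Bd
    · have h1 := hP.rel1 (.pr t h) x hx
      have h2 := Y.U_ap_pr j t x
      change ap1 j (fun (b : Y.B) (b' : X.β (Y.w t)) => if b = ⟨t, b'⟩ then (1 : A) else 0) x ∈
        P (.inl (⟨Y.w t, h⟩, 0)) at h1
      rw [h2] at h1
      unfold Ufil
      rw [dif_pos ⟨h, Nat.succ_pos M⟩]
      exact h1
    · unfold Ufil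
      rw [dif_neg fun h' => h h'.1]
      exact Submodule.mem_top
  have hs : ∀ l, ∀ x ∈ Y.tot (Y.Ufil P), Y.app j l x ∈ Y.tot (Y.Ufil P) := by
    intro l x hx
    rw [← ht] at hx ⊢
    have h1 := hP.rel1 (.en l) x hx
    change ap1 j (fun b b' : Y.B => Y.al l b' b) x ∈ (P (.inr (.inl false)) : Submodule k (Y.B → k)) at h1
    rw [U_ap_al] at h1
    exact h1
  have hin : ∀ q : Bool × {l : Fin Y.r // I l}, ∀ x ∈ (P (.inr (.inr q)) : Submodule k (Y.B → k)),
      x ∈ Y.tot (Y.Ufil P) := by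
    intro q x hx
    rw [← ht]
    have h2 := hP.rel1 (.inc q) x hx
    change ap1 j (fun b b' : Y.B => if b = b' then (1 : A) else 0) x ∈
      (P (.inr (.inl false)) : Submodule k (Y.B → k)) at h2
    rw [U_ap_id] at h2
    exact h2
  refine ⟨hs, fun l hl => ?_⟩
  refine U_core (n := Y.B) (Y.tot (Y.Ufil P)) (P (.inr (.inl true))) (P (.inr (.inr (false, ⟨l, hl⟩))))
    (P (.inr (.inr (true, ⟨l, hl⟩)))) (Y.app j l) (Y.U_app_app (hI l hl)) (hs l) hc
    (hP.codim (.inr (.inl true))) (hin _) (hin _) (fun x hx => ?_) (fun x hx => ?_)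
    (hP.codim (.inr (.inr (false, ⟨l, hl⟩)))) (hP.codim (.inr (.inr (true, ⟨l, hl⟩))))
  · have h2 := hP.rel1 (.zim ⟨l, hl⟩) x hx
    change ap1 j (fun b b' : Y.B => (if b = b' then (1 : A) else 0) - Y.al l b' b) x ∈
      (P (.inr (.inl true)) : Submodule k (Y.B → k)) at h2
    rw [U_ap_sub] at h2
    exact h2
  · have h2 := hP.rel1 (.zke ⟨l, hl⟩) x hx
    change ap1 j (fun b b' : Y.B => Y.al l b' b) x ∈ (P (.inr (.inl true)) : Submodule k (Y.B → k)) at h2
    rw [U_ap_al] at h2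
    exact h2

end conv

section key

variable {ι : Type} [Add ι] {A : Type u} [CommRing A] {k : Type u} [Field k] {j : A →+* k}

/-- Theorem U for one piece. -/
theorem key_one [IsAlgClosed k] (hj : Function.Injective j) (X : LinW ι A) (Y : EndD X)
    (hgood : ∀ D' : Derivation ℤ k k, ∃ c : Fin X.N → k, ∀ a, D' (j a) = ∑ l, c l * j (X.D l a))
    (hcons : ∀ (n : ι) (c c' : Fin X.N → k),
      (∀ a, ∑ l, c l * j (X.D l a) = ∑ l, c' l * j (X.D l a)) →
        ∀ b b', ∑ l, c l * j (X.G n l b' b) = ∑ l, c' l * j (X.G n l b' b))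
    {I : Fin Y.r → Prop} (hI : ∀ l, I l → Y.al l * Y.al l = Y.al l) {d : Fin Y.r → ℕ}
    (hgen : Y.Gen j I d) {L : ℕ → Type u} [∀ p, Field (L p)] {φ : ∀ p, A →+* L p} {B : A → ℕ}
    (hB : ResFields A L φ B) {Bd : Finset ι} {M : ℕ}
    (hBd : ∀ n, n ∉ Bd → IsEmpty (X.β n))
    (hM : ∀ n b, X.lev n b < M + 1) (n₀ : ι) (i₀ : ℕ) (hn₀ : n₀ ∈ Bd) (hi₀ : i₀ < M + 1) :
    ∃ p₀ : ℕ, ∀ p : ℕ, p.Prime → p₀ < p →
      ∀ δ : Fin X.N → Derivation ℤ (L p) (L p), (∀ l x, δ l (φ p x) = φ p (X.D l x)) →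
        ∀ P : ∀ n, ℕ → Submodule (L p) (X.β n → L p), X.IsConj (φ p) P → X.IsStab (φ p) δ P →
          Y.IsEnd (φ p) I d P →
          ∀ x ∈ P n₀ i₀, x ∈ X.fl (L p) n₀ (i₀ + 1) → x = 0 := by
  classical
  choose cc hcc using hgood
  -- the basis of the Hodge filtration
  have hcard : Fintype.card {b : X.β n₀ // i₀ + 1 ≤ X.lev n₀ b} =
      Module.finrank k (X.fl k n₀ (i₀ + 1)) := (X.finrank_fl k n₀ (i₀ + 1)).symm
  obtain ⟨q⟩ : Nonempty (Fin (Module.finrank k (X.fl k n₀ (i₀ + 1))) ≃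
    {b : X.β n₀ // i₀ + 1 ≤ X.lev n₀ b}) := ⟨(Fintype.equivFinOfCardEq hcard).symm⟩
  let f : Fin (Module.finrank k (X.fl k n₀ (i₀ + 1))) → X.β n₀ → A := fun u => X.idm n₀ (q u).1
  have hfφ : ∀ {R : Type u} [CommRing R] (g : A →+* R) (u) (a : X.β n₀),
      g (f u a) = if (q u).1 = a then 1 else 0 := by
    intro R _ g u a
    change g (if (q u).1 = a then 1 else 0) = _
    by_cases h : (q u).1 = a
    · rw [if_pos h, if_pos h, map_one]
    · rw [if_neg h, if_neg h, map_zero]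
  -- expansion of the vectors of the Hodge filtration
  have hexp : ∀ {R : Type u} [Field R] (g : A →+* R), ∀ x ∈ X.fl R n₀ (i₀ + 1),
      x = ∑ u, x (q u).1 • fun a => g (f u a) := by
    intro R _ g x hx
    funext a
    rw [Finset.sum_apply]
    by_cases ha : i₀ + 1 ≤ X.lev n₀ a
    · rw [Finset.sum_eq_single (q.symm ⟨a, ha⟩)]
      · rw [Pi.smul_apply, hfφ, Equiv.apply_symm_apply, if_pos rfl, smul_eq_mul, mul_one]
      · intro u _ hu
        rw [Pi.smul_apply, hfφ, if_neg, smul_zero]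
        intro h
        apply hu
        rw [Equiv.eq_symm_apply]
        exact Subtype.ext h
      · intro h
        exact absurd (Finset.mem_univ _) h
    · rw [hx a (not_le.1 ha)]
      symm
      refine Finset.sum_eq_zero fun u _ => ?_
      rw [Pi.smul_apply, hfφ, if_neg, smul_zero]
      rintro rfl
      exact ha (q u).2
  have hlin : LinearIndependent k fun u => (fun a => j (f u a) : X.β n₀ → k) := by
    have h1 : (fun u => (fun a => j (f u a) : X.β n₀ → k)) =
        (Pi.basisFun k (X.β n₀)) ∘ fun u => (q u).1 := by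
      funext u a
      rw [hfφ, Function.comp_apply, Pi.basisFun_apply, Pi.single_apply]
      by_cases h : (q u).1 = a
      · rw [if_pos h, if_pos h.symm]
      · rw [if_neg h, if_neg (Ne.symm h)]
    rw [h1]
    exact (Pi.basisFun k (X.β n₀)).linearIndependent.comp _
      (Subtype.val_injective.comp q.injective)
  have hDk : ∀ D' : Derivation ℤ k k, ∃ α : Fin X.N → k, (∀ x, D' (j x) = ∑ l, α l * j (X.D l x)) ∧
      ∀ a : X.β n₀, X.nb j cc n₀ D' (Pi.basisFun k _ a) =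
        ∑ a', (∑ l, α l * j (X.G n₀ l a' a)) • Pi.basisFun k _ a' := by
    intro D'
    refine ⟨cc D', hcc D', fun a => ?_⟩
    funext b'
    rw [LinW.nb_apply, Finset.sum_apply]
    have h1 : ∀ y : X.β n₀ → k, ∑ b, y b * (Pi.basisFun k (X.β n₀) a) b = y a := by
      intro y
      rw [Finset.sum_eq_single a]
      · rw [Pi.basisFun_apply, Pi.single_eq_same, mul_one]
      · intro b _ hb
        rw [Pi.basisFun_apply, Pi.single_eq_of_ne hb, mul_zero]
      · intro h
        exact absurd (Finset.mem_univ _) h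
    have h2 : D' ((Pi.basisFun k (X.β n₀) a) b') = 0 := by
      rw [Pi.basisFun_apply, Pi.single_apply]
      by_cases h : b' = a
      · rw [if_pos h, Derivation.map_one_eq_zero]
      · rw [if_neg h, map_zero]
    rw [h2, zero_add, Finset.sum_congr rfl fun l _ => by rw [h1 fun b => j (X.G n₀ l b' b)]]
    rw [Finset.sum_eq_single b']
    · rw [Pi.smul_apply, Pi.basisFun_apply, Pi.single_eq_same, smul_eq_mul, mul_one]
    · intro b _ hb
      rw [Pi.smul_apply, Pi.basisFun_apply, Pi.single_eq_of_ne (Ne.symm hb), smul_zero]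
    · intro h
      exact absurd (Finset.mem_univ _) h
  have hfin : Finite (Y.toPD k Bd M I d).T := inferInstanceAs (Finite (Y.UT Bd M I))
  obtain ⟨p₀, hp₀⟩ := fam_large hj hB (Y.toPD k Bd M I d) (.inl (⟨n₀, hn₀⟩, ⟨i₀, hi₀⟩))
    (nab := X.nb j cc n₀) (X.nb_conn cc n₀) X.D (X.G n₀) hDk
    (X.fl k n₀ (i₀ + 1)) f hlin (by
      intro x hx
      rw [hexp j x hx]
      exact Submodule.sum_mem _ fun u _ => Submodule.smul_mem _ _ (Submodule.subset_span ⟨u, rfl⟩))
    (by
      intro P' hP' W hW hex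
      have h1 := hgen _ (Y.U_conj hBd hM hP') (Y.U_end hBd hM hI hP') n₀ i₀ W
        (X.hor_of_isHor hcc hcons n₀ hW) (by
        obtain ⟨ω, hω, hω0, hk⟩ := hex
        refine ⟨ω, hω, hω0, fun x hx => hk x ?_⟩
        obtain ⟨u, hu⟩ := hx
        refine ⟨u, ?_⟩
        unfold Ufil at hu
        rw [dif_pos ⟨hn₀, hi₀⟩] at hu
        exact hu)
      exact h1)
  refine ⟨p₀, fun p hp hpp δ hδ P hP hst hE x hxP hxF => ?_⟩
  have h1 := hp₀ p hp hpp δ hδ _ (Y.isFam_of_end k Bd M hI hP hE) (fun l y hy => hst n₀ i₀ l y hy)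
    (fun u => x (q u).1) (by
      have h2 := hexp (φ p) x hxF
      have h3 : (∑ u, x (q u).1 • fun a => φ p (f u a)) ∈ P n₀ i₀ := by
        rw [← h2]
        exact hxP
      exact h3)
  rw [hexp (φ p) x hxF]
  refine Finset.sum_eq_zero fun u _ => ?_
  have h2 : x (q u).1 = 0 := congrFun h1 u
  rw [h2, zero_smul]

end key

end EndD

/-- BLOCK U. As `LinW.key_U` (G2U.lean), for the filtrations which are stable under the endomorphisms and have the given
dimensions of the intersections with the images of the projectors `l`, `I l`. -/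
theorem EndD.key_U {ι : Type} [Add ι] {A : Type u} [CommRing A] {k : Type u} [Field k] [IsAlgClosed k] {j : A →+* k}
    (hj : Function.Injective j) (X : LinW ι A) (Y : EndD X)
    (hgood : ∀ D' : Derivation ℤ k k, ∃ c : Fin X.N → k, ∀ a, D' (j a) = ∑ l, c l * j (X.D l a))
    (hcons : ∀ (n : ι) (c c' : Fin X.N → k),
      (∀ a, ∑ l, c l * j (X.D l a) = ∑ l, c' l * j (X.D l a)) →
        ∀ b b', ∑ l, c l * j (X.G n l b' b) = ∑ l, c' l * j (X.G n l b' b))
    {I : Fin Y.r → Prop} (hI : ∀ l, I l → Y.al l * Y.al l = Y.al l) {d : Fin Y.r → ℕ}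
    (hgen : Y.Gen j I d) {L : ℕ → Type u} [∀ p, Field (L p)] {φ : ∀ p, A →+* L p} {B : A → ℕ}
    (hB : ResFields A L φ B) :
    ∃ p₀ : ℕ, ∀ p : ℕ, p.Prime → p₀ < p →
      ∀ δ : Fin X.N → Derivation ℤ (L p) (L p), (∀ l x, δ l (φ p x) = φ p (X.D l x)) →
        ∀ P : ∀ n, ℕ → Submodule (L p) (X.β n → L p), X.IsConj (φ p) P → X.IsStab (φ p) δ P →
          Y.IsEnd (φ p) I d P → X.IsOpp P := by
  classical
  obtain ⟨Bd, hBd⟩ := X.bound
  obtain ⟨M, hM⟩ : ∃ M, ∀ n b, X.lev n b < M + 1 := by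
    refine ⟨Bd.sup (fun n => Finset.univ.sup (X.lev n)), fun n b => ?_⟩
    have hn : n ∈ Bd := by
      by_contra h
      exact (hBd n h).false b
    have h1 : X.lev n b ≤ Finset.univ.sup (X.lev n) := Finset.le_sup (Finset.mem_univ b)
    have h2 := Finset.le_sup (f := fun n => Finset.univ.sup (X.lev n)) hn
    exact Nat.lt_succ_of_le (h1.trans h2)
  choose p₀ hp₀ using fun t : ↥Bd × Fin (M + 1) =>
    EndD.key_one hj X Y hgood hcons hI hgen hB hBd hM t.1 t.2 t.1.2 t.2.2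
  refine ⟨Finset.univ.sup p₀, fun p hp hpp δ hδ P hP hst hE n i x hxP hxF => ?_⟩
  by_contra hx0
  obtain ⟨b, hb⟩ := Function.ne_iff.1 hx0
  have hn : n ∈ Bd := by
    by_contra h
    exact (hBd n h).false b
  have hi : i < M + 1 := by
    have h1 : ¬ X.lev n b < i + 1 := fun h => hb (hxF b h)
    have h2 := hM n b
    omega
  exact hx0 (hp₀ (⟨n, hn⟩, ⟨i, hi⟩) p hp
    (lt_of_le_of_lt (Finset.le_sup (f := p₀) (Finset.mem_univ _)) hpp) δ hδ P hP hst hE x hxP hxF)

end MPadcGP
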