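import Pool.Agent.Lib.MP_adc574_ag_EN.F2
import Pool.Agent.Lib.MP_adc574_ag_EN.K
import Pool.Agent.Lib.MP_adc574_ag_EN.U
import Pool.Agent.Lib.MP_adc574_ag_EN.BC

/-!
# The final theorem with endomorphisms, internal form (helper66)
-/

set_option autoImplicit false
set_option linter.unusedSectionVars false

namespace MPadcGP

open Polynomial

universe u v w x

/-- The roots of a polynomial which splits over the prime field are in the prime field. -/
theorem root_pow {p : ℕ} [Fact p.Prime] {L : Type u} [Field L] [CharP L p] {F : ℤ[X]}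
    (hF : F.map (Int.castRingHom (ZMod p)) ≠ 0) (hs : (F.map (Int.castRingHom (ZMod p))).Splits) {y : L}
    (hy : F.eval₂ (Int.castRingHom L) y = 0) : y ^ p = y := by
  have h0 : Int.castRingHom L = (ZMod.castHom (dvd_refl p) L).comp (Int.castRingHom (ZMod p)) :=
    RingHom.ext_int _ _
  rw [h0, ← Polynomial.eval₂_map, hs.eq_prod_roots, Polynomial.eval₂_mul, Polynomial.eval₂_C, mul_eq_zero,
    Polynomial.eval₂_multiset_prod] at hy
  rcases hy with hy | hy
  · rw [map_eq_zero, Polynomial.leadingCoeff_eq_zero] at hy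
    exact absurd hy hF
  · rw [Multiset.map_map, Multiset.prod_eq_zero_iff, Multiset.mem_map] at hy
    obtain ⟨a, -, ha⟩ := hy
    rw [Function.comp_apply, Polynomial.eval₂_sub, Polynomial.eval₂_X, Polynomial.eval₂_C, sub_eq_zero] at ha
    rw [ha, ← map_pow, ZMod.pow_card]

section

variable {M : Type} [AddCommGroup M] [Fintype M] [DecidableEq M]

/-- The conjugate filtration is the sum of its parts. -/
theorem con_total {κ : Type u} [Field κ] {n : ℕ} {X : CovD.{u, v} κ n} {W : GrX X M}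
    {β : ℕ × M → Type} [∀ a, Fintype (β a)] {lev : ∀ a, β a → ℕ} {z : ∀ a, β a → X.Ch}
    (h : IsAdW W lev z) (m i : ℕ) (x : (Σ μ, β (m, μ)) → κ) :
    x ∈ h.total.con m i ↔ ∀ μ, (fun b => x ⟨μ, b⟩) ∈ h.con (m, μ) i := by
  have hsum : (h.total.lc m x : X.Ch) = ∑ μ, ∑ b, x ⟨μ, b⟩ • z (m, μ) b := by
    rw [IsAd.lc_coe, Fintype.sum_sigma]
  constructor
  · intro hx μ
    obtain ⟨c, hc, hcx⟩ := CovD.mem_Con.1 hx
    rw [IsAd.crd_eq, CovD.cl_eq, hsum] at hcx
    refine CovD.mem_Con.2 ⟨⟨_, W.P_mem_Zc c.2 μ⟩, W.P_mem_Ni hc μ, ?_⟩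
    rw [IsAdW.crd_eq, CovD.cl_eq]
    have h1 := W.P_mem_Bc hcx μ
    rw [map_sub, map_sum, Finset.sum_eq_single μ] at h1
    · have h2 := W.mem_Wt.1 (h.lc_mem_Wt (m, μ) fun b => x ⟨μ, b⟩)
      change W.P μ (∑ b, x ⟨μ, b⟩ • z (m, μ) b) = ∑ b, x ⟨μ, b⟩ • z (m, μ) b at h2
      rw [h2] at h1
      exact h1
    · intro ν _ hν
      have h2 : W.P μ (∑ b, x ⟨ν, b⟩ • z (m, ν) b) = if μ = ν then ∑ b, x ⟨ν, b⟩ • z (m, ν) b else 0 :=
        W.P_of_mem (h.lc_mem_Wt (m, ν) fun b => x ⟨ν, b⟩)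
      rw [if_neg (Ne.symm hν)] at h2
      exact h2
    · intro h'
      exact absurd (Finset.mem_univ _) h'
  · intro hx
    change h.total.crd m x ∈ X.Con m i
    have h1 : h.total.crd m x = ∑ μ, (h.crd (m, μ) (fun b => x ⟨μ, b⟩) : X.HdR m) := by
      have h3 : ∀ μ, ∑ b, x ⟨μ, b⟩ • z (m, μ) b ∈ X.Zc m := fun μ => (h.lc (m, μ) fun b => x ⟨μ, b⟩).2
      have h2 : h.total.lc m x = ∑ μ, (⟨∑ b, x ⟨μ, b⟩ • z (m, μ) b, h3 μ⟩ : ↥(X.Zc m)) := by
        apply Subtype.ext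
        rw [hsum, Submodule.coe_sum]
      rw [IsAd.crd_eq, h2, map_sum]
      exact Finset.sum_congr rfl fun μ _ => (h.crd_eq (m, μ) _).symm
    rw [h1]
    exact Submodule.sum_mem _ fun μ _ => hx μ

/-- The conjugate filtration in characteristic `p` satisfies the conditions for the endomorphisms. -/
theorem con_end {k : Type u} [Field k] {A₃ : Subalgebra ℤ k} [CharZero A₃] [Algebra.FiniteType ℤ A₃] {n : ℕ}
    {J : Ideal (MvPolynomial (Fin n) A₃)} {wt : Fin n → M} {hJ : IsHomog J} {hw : IsWHomog wt J}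
    (hsm : IsSmoothProj J) {β : ℕ × M → Type} [∀ a, Fintype (β a)] [∀ a, DecidableEq (β a)]
    {lev : ∀ a, β a → ℕ} {z : ∀ a, β a → (prC J).Ch} {h : ℕ → ℕ → ℕ} (hD : DatW hJ hw lev z h)
    {N : ℕ} {D : Fin N → Derivation ℤ A₃ A₃} {G : ∀ a, Fin N → β a → β a → A₃}
    {mu : ∀ a a', β a → β a' → β (a + a') → A₃} {Lg : ∀ a : ℕ × M, ℕ → Set (β a → A₃)} {r : ℕ}
    {al : Fin r → Matrix (Σ μ : M, β (1, μ)) (Σ μ : M, β (1, μ)) A₃} {Id : Fin r → Prop} {d : Fin r → ℕ}
    (hId : ∀ l, Id l → al l * al l = al l) {Λ : Set A₃}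
    (hgeo : ∀ l, GeoD (prC J) (fun b : Σ μ : M, β (1, μ) => lev (1, b.1) b.2) (fun b => z (1, b.1) b.2) Λ (al l))
    (hd : ∀ l, Id l → d l = Module.finrank k ↥(LinearMap.range ((al l).map (algebraMap A₃ k)).mulVecLin) -
      Module.finrank k ↥(flt (fun b : Σ μ : M, β (1, μ) => lev (1, b.1) b.2) k 1 ⊓
        LinearMap.range ((al l).map (algebraMap A₃ k)).mulVecLin))
    {p : ℕ} [Fact p.Prime] {L : Type u} [Field L] [CharP L p] (φ : A₃ →+* L) {Λ' : Type} [Fintype Λ'] {bb : Λ' → L}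
    (hbb : PBas p bb) (hΛ : ∀ x ∈ Λ, φ x ^ p = φ x) (hdt : ∀ l, φ (hgeo l).dt ≠ 0) :
    EndD.IsEnd (X := mkLinW lev D G mu Lg hD.bound')
      { Q := M, w := fun μ => ((1 : ℕ), μ), r := r, al := al } φ Id d (fun a i => (hD.ad L φ).con a i) := by
  classical
  have hX : ∀ J' : Finset (Fin n), J'.Nonempty → CarP p bb ((prC (bI φ J)).R J') := fun J' hJ' => by
    have : Algebra.Smooth L ((prC (bI φ J)).R J') := IsSmoothProj.smooth (hJ.map φ) (hsm.map hJ φ) hJ'
    exact carP_of_smooth hbb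
  have key : ∀ l, (∀ x ∈ (hD.ad L φ).total.con 1 0, ((al l).map φ).mulVecLin x ∈ (hD.ad L φ).total.con 1 0) ∧
      (Id l → Module.finrank L ↥((hD.ad L φ).total.con 1 0 ⊓ LinearMap.range ((al l).map φ).mulVecLin) = d l) := by
    intro l
    obtain ⟨S, i1, i2, i3, ψ, ι, hr, hi⟩ := (hgeo l).to_field hJ φ (hdt l)
    have h1 := en_con hbb hX (fun q m => (hD.hodge L φ q m).1) (dat_sum hJ hsm hD.total φ)
      (hD.ad L φ).total (fun l' => hΛ _ ((hgeo l).coef l')) (a := (al l).map φ) hr hi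
    refine ⟨h1.1, fun hl => ?_⟩
    have h2 : (al l).map φ * (al l).map φ = (al l).map φ := by
      rw [← Matrix.map_mul, hId l hl]
    have h3 := h1.2 fun x => by
      rw [← LinearMap.comp_apply, ← Matrix.mulVecLin_mul, h2]
    have h4 := en_rank (j := algebraMap A₃ k) Subtype.val_injective φ (al l) (hId l hl)
    have h5 := en_rank_flt (j := algebraMap A₃ k) Subtype.val_injective φ
      (fun b : Σ μ : M, β (1, μ) => lev (1, b.1) b.2) (al l) (hId l hl) (hgeo l).rel.fil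
    rw [hd l hl, h4, h5]
    exact (Nat.sub_eq_of_eq_add h3.symm).symm
  have htot : EndD.tot (X := mkLinW lev D G mu Lg hD.bound')
      { Q := M, w := fun μ => ((1 : ℕ), μ), r := r, al := al } (fun a i => (hD.ad L φ).con a i) =
        (hD.ad L φ).total.con 1 0 := by
    ext x
    exact (con_total (hD.ad L φ) 1 0 x).symm
  refine ⟨fun l x hx => ?_, fun l hl => ?_⟩
  · rw [htot] at hx ⊢
    exact (key l).1 x hx
  · rw [htot]
    exact (key l).2 hl

/-- The final theorem, with endomorphisms. -/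
theorem core_end {k : Type u} [Field k] [IsAlgClosed k] [CharZero k] (A : Subalgebra ℤ k) (hA : A.FG)
    {n : ℕ} (I : Ideal (MvPolynomial (Fin n) A)) (hI : IsHomog I)
    (hs : IsSmoothProj (bI (algebraMap A k) I)) {wt : Fin n → M}
    (hw : IsWHomog wt (bI (algebraMap A k) I)) {r : ℕ}
    (α : Fin r → Module.End k ((prC (bI (algebraMap A k) I)).HdR 1)) {F : ℤ[X]} (hF : F ≠ 0)
    (hα : ∀ l, GeoK (prC (bI (algebraMap A k) I)) {x | aeval x F = 0} (α l))
    (hg : IsGeneralE (grP (hI.map (algebraMap A k)) hw) α) :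
    ∃ p₀ : ℕ, ∀ p : ℕ, p₀ ≤ p → p.Prime → (F.map (Int.castRingHom (ZMod p))).Splits →
      (∀ (m i : ℕ) (μ : M), Module.finrank k ↥((prC (bI (algebraMap A k) I)).Fil m i ⊓
        (grP (hI.map (algebraMap A k)) hw).HW m (p • μ)) =
          Module.finrank k ↥((prC (bI (algebraMap A k) I)).Fil m i ⊓
            (grP (hI.map (algebraMap A k)) hw).HW m μ)) →
      ∀ 𝔓 ∈ (Ideal.span {(p : A)}).minimalPrimes, IsDenseOrd I 𝔓 := by
  classical
  have ft : ∀ A' : Subalgebra ℤ k, A'.FG → Algebra.FiniteType ℤ A' := fun A' h =>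
    (Subalgebra.fg_iff_finiteType A').1 h
  have noe : ∀ A' : Subalgebra ℤ k, A'.FG → IsNoetherianRing A' := fun A' h =>
    have := ft A' h
    Algebra.FiniteType.isNoetherianRing ℤ A'
  have cz : ∀ A' : Subalgebra ℤ k, CharZero A' := fun A' =>
    ⟨fun a b h => by
      have h1 := congrArg (algebraMap A' k) h
      rw [map_natCast, map_natCast] at h1
      exact Nat.cast_injective h1⟩
  have hnA := noe A hA
  have hfA := ft A hA
  have hcA := cz A
  obtain ⟨a, ha0, -, hd⟩ := exists_hasDat hI hI (algebraMap A k) Subtype.val_injective hs hs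
  obtain ⟨A₃, h3, N, D, hgood, hJ₃, hw₃, hsm₃, β, i1, i2, lev, z, h, hD, V, G, mu, Lg, hR, al, Id, d, hId, hgeo,
    hdd, hGen⟩ := exists_linE A hA I hI rfl (hI.map (algebraMap A k)) hs hw hw α hα hg
  replace hgeo := fun l => (hgeo l).some
  have hft₃ := ft A₃ hgood.fg
  have hn₃ := noe A₃ hgood.fg
  have hc₃ := cz A₃
  obtain ⟨p₁, hover⟩ := exists_over A A₃ (Subalgebra.inclusion h3).toRingHom
    (Subalgebra.inclusion_injective h3)
  obtain ⟨BA, hBA⟩ := exists_resB A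
  obtain ⟨L, iL, φ, B, hB, hBb⟩ := exists_family3 A₃
    (fun p 𝔔 => 𝔔.comap (Subalgebra.inclusion h3).toRingHom ∈ (Ideal.span {(p : A)}).minimalPrimes ∧
      ¬ IsDenseOrd I (𝔔.comap (Subalgebra.inclusion h3).toRingHom))
  obtain ⟨t, ht⟩ := hgood.dual
  obtain ⟨p₀, hp₀⟩ := EndD.key_U (j := algebraMap A₃ k) Subtype.val_injective
    (mkLinW lev D G mu Lg hD.bound')
    { Q := M, w := fun μ => ((1 : ℕ), μ), r := r, al := al } hgood.der (fun m c c' hcc b₁ b₂ => by
      rw [coef_unique ht hcc]) hId hGen hB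
  refine ⟨p₀ + B 0 + BA 0 + BA a + p₁ + Fintype.card M + (∑ l, B (hgeo l).dt) + F.leadingCoeff.natAbs + 1,
    fun p hp hprime hspl hdimk 𝔓 h𝔓 => ?_⟩
  by_contra hbad
  have hfact : Fact p.Prime := ⟨hprime⟩
  obtain ⟨𝔔₀, h𝔔₀, h𝔔₀c⟩ := hover p hprime (by omega) 𝔓 h𝔓
  obtain ⟨𝔔, h𝔔, ⟨hbad1, hbad2⟩, hker, Λ, iΛ, bb, hbb⟩ := hBb p hprime (by omega)
    ⟨𝔔₀, h𝔔₀, by rw [h𝔔₀c]; exact h𝔓, by rw [h𝔔₀c]; exact hbad⟩
  have hcp : CharP (L p) p := hB.char p hprime (by omega)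
  apply hbad2
  refine dense_of_opp' (p := p) (Subalgebra.inclusion h3).toRingHom hI ha0 hd hbad1 rfl (φ p) hker
    (fun 𝔓 h𝔓 K _ φK hk hf => by
      obtain ⟨h1, -, h2, h3⟩ := hBA p hprime (by omega) 𝔓 h𝔓 K φK hk hf
      exact ⟨h1, h2 a ha0 (by omega), h3⟩) ?_
  have hMp : Function.Injective fun μ : M => p • μ := smul_injective_of_lt hprime (by omega)
  have hIk : bI (algebraMap A₃ k) (bI (Subalgebra.inclusion h3).toRingHom I) = bI (algebraMap A k) I := by
    rw [bI_bI]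
    rfl
  have hdimW := dimCW_of (hI.map _) hw₃ hsm₃ hD hIk (hI.map _) hw (φ p) hbb hMp hdimk
  choose δ hδ using fun l => hB.der p hprime (by omega) (D l)
  have hF0 : F.map (Int.castRingHom (ZMod p)) ≠ 0 := by
    intro h0
    have h1 : (Int.castRingHom (ZMod p)) F.leadingCoeff = 0 := by
      have h2 := congrArg (fun q : (ZMod p)[X] => q.coeff F.natDegree) h0
      simpa [Polynomial.coeff_map] using h2
    rw [eq_intCast, ZMod.intCast_zmod_eq_zero_iff_dvd] at h1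
    have h3 : p ∣ F.leadingCoeff.natAbs := Int.natCast_dvd.1 h1
    have h4 : F.leadingCoeff.natAbs ≠ 0 := Int.natAbs_ne_zero.2 (Polynomial.leadingCoeff_ne_zero.2 hF)
    have h5 := Nat.le_of_dvd (Nat.pos_of_ne_zero h4) h3
    omega
  have hend := con_end (D := D) (G := G) (mu := mu) (Lg := Lg) hsm₃ hD hId hgeo hdd (φ p) hbb
    (fun x hx => root_pow hF0 hspl (by
      have h1 : aeval (x : A₃) F = 0 := by
        apply Subtype.val_injective
        have h2 : ((aeval (x : A₃) F : A₃) : k) = aeval (x : k) F :=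
          (Polynomial.aeval_algebraMap_apply k x F).symm
        rw [h2]
        exact hx
      have h3 : F.eval₂ (Int.castRingHom (L p)) (φ p x) = φ p (aeval x F) := by
        rw [Polynomial.aeval_def, Polynomial.hom_eval₂]
        congr 1
        exact RingHom.ext_int _ _
      rw [h3, h1, map_zero]))
    (fun l => hB.ne p hprime (by omega) _ (hgeo l).det (by
      have h1 : B (hgeo l).dt ≤ ∑ l, B (hgeo l).dt :=
        Finset.single_le_sum (f := fun l => B (hgeo l).dt) (fun _ _ => Nat.zero_le _) (Finset.mem_univ l)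
      omega))
  have hopp' := hp₀ p hprime (by omega) δ hδ (fun a i => (hD.ad (L p) (φ p)).con a i)
    (con_conjW hD V hR (φ p) hdimW) (con_stabW hD V hR (φ p) δ hδ) hend
  exact oppC_of_weights (hD.ad (L p) (φ p)) fun a i c hc1 hc2 => hopp' a i c hc1 hc2

end

end MPadcGP
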