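import Pool.Agent.Lib.MP_adc574_ag_GP.Parts2
import Pool.Agent.Lib.MP_adc574_ag_GP.BrW
import Pool.Agent.Lib.MP_adc574_ag_GP.G2Lin

/-!
# Endomorphisms of `H^1`: the internal definitions

* `plf φ`: the map of forms induced by a homomorphism `φ` of `A`-algebras.
* `GeoR`: the relation `∑ m_l ψ_l^* = ι^* a` over a ring, for the cocycles `z b` of a basis of `H^1`.
* `GeoD`: geometric data over a ring; `GeoK`: geometric endomorphisms over a field.
* `EndD`, `tot`, `app`, `flt`, `IsEnd`: endomorphisms of `H^1` in coordinates.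
* `InGenPos`: general position, only for the filtrations with the property `C`.
* `IsGeneralE`: general position relative to endomorphisms of `H^1`.
-/

set_option autoImplicit false
set_option linter.unusedSectionVars false

namespace MPadcGP

universe u v w x

section forms

variable {A : Type u} [CommRing A] {R : Type v} {S : Type w} [CommRing R] [CommRing S] [Algebra A R] [Algebra A S]

/-- The map of forms. -/
noncomputable def plf (φ : R →ₐ[A] S) : Fm A R →+* Fm A S := mp (φ : R →+* S) (CC.of_algHom _)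

theorem plf_fz (φ : R →ₐ[A] S) (r : R) : plf φ (fz A r) = fz A (φ r) := mp_fz _ _

theorem plf_df (φ : R →ₐ[A] S) (r : R) : plf φ (df A r) = df A (φ r) := mp_df _ _

theorem plf_dd (φ : R →ₐ[A] S) (e : Fm A R) : plf φ (dd A e) = dd A (plf φ e) := mp_dd _ _

theorem plf_smul (φ : R →ₐ[A] S) (a : A) (e : Fm A R) : plf φ (a • e) = a • plf φ e := by
  rw [smul_fm, map_mul, plf_fz, smul_fm, AlgHom.commutes]

theorem plf_mem (φ : R →ₐ[A] S) {q : ℕ} {e : Fm A R} (he : e ∈ Fd A R q) : plf φ e ∈ Fd A S q := mp_mem _ he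

end forms

section geo

variable {A : Type u} [CommRing A] {n : ℕ} (X : CovD.{u, v} A n) {B : Type} [Fintype B] (lev : B → ℕ) (z : B → X.Ch)

/-- The relation `∑ m_l ψ_l^* = ι^* a` for the cocycles `z b`, up to differentials of functions; exactly, for the
global forms `z b`, `1 ≤ lev b`, the span of which is stable. -/
structure GeoR (j : Fin n) (S : Type w) [CommRing S] [Algebra A S] {N : ℕ} (m : Fin N → A)
    (ψ : Fin N → (X.R {j} →ₐ[A] S)) (ι : X.R {j} →ₐ[A] S) (a : B → B → A) : Prop where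
  rel : ∀ b, ∃ g : S, ∑ l, m l • plf (ψ l) (z b {j}) = ∑ b', a b' b • plf ι (z b' {j}) + df A g
  relF : ∀ b, 1 ≤ lev b → ∑ l, m l • plf (ψ l) (z b {j}) = ∑ b', a b' b • plf ι (z b' {j})
  fil : ∀ b b', 1 ≤ lev b → lev b' < 1 → a b' b = 0

/-- The forms `ι^* (z b)`, `1 ≤ lev b`, are linearly independent. -/
def GeoI (j : Fin n) {S : Type w} [CommRing S] [Algebra A S] (ι : X.R {j} →ₐ[A] S) : Prop :=
  ∀ c : B → A, (∀ b, lev b < 1 → c b = 0) → ∑ b, c b • plf ι (z b {j}) = 0 → c = 0

/-- Geometric data over the ring `A` for the matrix `a`: as in `GeoR`, with a smooth algebra, and with functionals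
which show that the forms `ι^* (z b)`, `1 ≤ lev b`, are linearly independent after all base changes with `det ≠ 0`. -/
structure GeoD [DecidableEq B] (Λ : Set A) (a : B → B → A) where
  /-- The chart. -/
  j : Fin n
  /-- The smooth algebra. -/
  S : Type u
  [cr : CommRing S]
  [al : Algebra A S]
  [sm : Algebra.Smooth A S]
  /-- The number of the homomorphisms. -/
  N : ℕ
  /-- The coefficients. -/
  m : Fin N → A
  /-- The homomorphisms. -/
  ψ : Fin N → (X.R {j} →ₐ[A] S)
  /-- The homomorphism. -/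
  ι : X.R {j} →ₐ[A] S
  coef : ∀ l, m l ∈ Λ
  rel : GeoR X lev z j S m ψ ι a
  /-- The functionals. -/
  τ : {b : B // 1 ≤ lev b} → (Fm A S →ₗ[A] A)
  det : (Matrix.of fun b b' : {b : B // 1 ≤ lev b} => τ b (plf ι (z b'.1 {j}))).det ≠ 0

attribute [instance] GeoD.cr GeoD.al GeoD.sm

variable {X lev z}

/-- The determinant of the functionals. -/
noncomputable def GeoD.dt [DecidableEq B] {Λ : Set A} {a : B → B → A} (g : GeoD X lev z Λ a) : A :=
  (Matrix.of fun b b' : {b : B // 1 ≤ lev b} => g.τ b (plf g.ι (z b'.1 {g.j}))).det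

end geo

section field

variable {k : Type u} [Field k] {n : ℕ} (X : CovD.{u, u} k n)

/-- Geometric endomorphisms of `H^1`. -/
def GeoK (Λ : Set k) (α : Module.End k (X.HdR 1)) : Prop :=
  (∀ x ∈ X.Fil 1 1, α x ∈ X.Fil 1 1) ∧
    ∃ (j : Fin n) (S : Type u) (_ : CommRing S) (_ : Algebra k S) (_ : Algebra.Smooth k S) (N : ℕ) (a : Fin N → k)
      (ψ : Fin N → (X.R {j} →ₐ[k] S)) (ι : X.R {j} →ₐ[k] S), (∀ l, a l ∈ Λ) ∧
      (∀ c c' : ↥(X.Zc 1), α (X.cl 1 c) = X.cl 1 c' →
        (∃ h : S, ∑ l, a l • plf (ψ l) ((c : X.Ch) {j}) = plf ι ((c' : X.Ch) {j}) + df k h) ∧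
        ((c : X.Ch) ∈ X.Fi 1 1 → (c' : X.Ch) ∈ X.Fi 1 1 →
          ∑ l, a l • plf (ψ l) ((c : X.Ch) {j}) = plf ι ((c' : X.Ch) {j}))) ∧
      ∀ c : ↥(X.Zc 1), (c : X.Ch) ∈ X.Fi 1 1 → plf ι ((c : X.Ch) {j}) = 0 → X.cl 1 c = 0

end field

section coordinates

variable {ι : Type} [Add ι] {A : Type u} [CommRing A]

/-- Endomorphisms of the sum of the spaces with the indices `w t`, given by matrices. -/
structure EndD (X : LinW ι A) where
  /-- The index set of the summands. -/
  Q : Type
  [fQ : Fintype Q]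
  [dQ : DecidableEq Q]
  /-- The indices of the summands. -/
  w : Q → ι
  /-- The number of the endomorphisms. -/
  r : ℕ
  /-- The matrices. -/
  al : Fin r → Matrix (Σ t : Q, X.β (w t)) (Σ t : Q, X.β (w t)) A

attribute [instance] EndD.fQ EndD.dQ

namespace EndD

variable {X : LinW ι A} (Y : EndD X)

/-- The index set of the basis of the sum. -/
abbrev B : Type := Σ t : Y.Q, X.β (Y.w t)

variable {E : Type v} [Field E] (φ : A →+* E)

/-- The endomorphisms over `E`. -/
noncomputable def app (l : Fin Y.r) : (Y.B → E) →ₗ[E] (Y.B → E) := ((Y.al l).map φ).mulVecLin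

/-- The sum of the first steps of the filtrations. -/
def tot (P : ∀ t, ℕ → Submodule E (X.β t → E)) : Submodule E (Y.B → E) where
  carrier := {x | ∀ t, (fun b => x ⟨t, b⟩) ∈ P (Y.w t) 0}
  add_mem' := fun {x y} hx hy t => (P (Y.w t) 0).add_mem (hx t) (hy t)
  zero_mem' := fun t => (P (Y.w t) 0).zero_mem
  smul_mem' := fun c x hx t => (P (Y.w t) 0).smul_mem c (hx t)

/-- The filtration `P` is stable under the endomorphisms, with intersections of the dimension `d l` with the images
of the endomorphisms `l` with `I l`. -/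
structure IsEnd (I : Fin Y.r → Prop) (d : Fin Y.r → ℕ) (P : ∀ t, ℕ → Submodule E (X.β t → E)) : Prop where
  stab : ∀ l, ∀ x ∈ Y.tot P, Y.app φ l x ∈ Y.tot P
  dim : ∀ l, I l → Module.finrank E ↥(Y.tot P ⊓ LinearMap.range (Y.app φ l)) = d l

end EndD

/-- The vectors with `x b = 0` for `lev b < i`. -/
def flt {B : Type} (lev : B → ℕ) (E : Type v) [Field E] (i : ℕ) : Submodule E (B → E) where
  carrier := {x | ∀ b, lev b < i → x b = 0}
  add_mem' := fun {x y} hx hy b hb => by rw [Pi.add_apply, hx b hb, hy b hb, add_zero]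
  zero_mem' := fun b _ => rfl
  smul_mem' := fun c x hx b hb => by rw [Pi.smul_apply, hx b hb, smul_zero]

end coordinates

section position

variable {k : Type*} [Field k] {ι : Type*} [Add ι] {H : ι → Type*} [∀ a, AddCommGroup (H a)]
  [∀ a, Module k (H a)] (nab : ∀ a, Derivation ℤ k k → H a → H a → Prop)
  (Fl : ∀ a, ℕ → Submodule k (H a)) (cup : ∀ a b, H a → H b → H (a + b) → Prop)
  (lg : ∀ a, ℕ → Set (H a)) (C : (∀ a, ℕ → Submodule k (H a)) → Prop)

/-- General position, only for the filtrations of conjugate type with the property `C`. -/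
def InGenPos : Prop :=
  ∀ P : ∀ a, ℕ → Submodule k (H a), MPadcGP2.IsConjugateType Fl cup lg P → C P → ∀ (a : ι) (i : ℕ),
    ∀ W : Submodule k (H a [⋀^Fin (Module.finrank k (Fl a (i + 1)))]→ₗ[k] k),
      IsHorizontal (nab a) W →
      (∃ ω ∈ W, ω ≠ 0 ∧ ∀ x, (∃ u, x u ∈ P a i) → ω x = 0) →
        ∃ ω ∈ W, ∃ x, (∀ u, x u ∈ Fl a (i + 1)) ∧ ω x ≠ 0

end position

/-- The linear data are in general position over `k`, for the filtrations with the property `IsEnd`. -/
def EndD.Gen {ι : Type} [Add ι] {A : Type u} [CommRing A] {X : LinW ι A} (Y : EndD X) {k : Type u} [Field k]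
    (j : A →+* k) (I : Fin Y.r → Prop) (d : Fin Y.r → ℕ) : Prop :=
  InGenPos (X.nabk j) (fun t i => X.fl k t i) (fun s t x y z => z = X.mul j s t x y)
    (fun t i => {x | ∃ g ∈ X.Lg t i, x = fun b => j (g b)}) (fun P => Y.IsEnd j I d P)

section general

variable {k : Type u} [Field k] {n : ℕ} {X : CovD.{u, v} k n} {M : Type} [AddCommGroup M] [Fintype M] [DecidableEq M]

/-- The cohomology algebra is in general position relative to the endomorphisms `α l` of `H^1`. -/
def IsGeneralE (W : GrX X M) {r : ℕ} (α : Fin r → Module.End k (X.HdR 1)) : Prop :=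
  letI : ∀ a : ℕ × M, AddCommGroup ↥(W.HW a.1 a.2) := fun _ => inferInstance
  letI : ∀ a : ℕ × M, Module k ↥(W.HW a.1 a.2) := fun _ => inferInstance
  InGenPos (H := fun a : ℕ × M => ↥(W.HW a.1 a.2))
    (fun a D x y => X.gaussManin a.1 D x y) (fun a i => (X.Fil a.1 i).submoduleOf (W.HW a.1 a.2))
    (fun a b x y z => X.cupRel a.1 b.1 x y z) (fun a j => W.logW a.1 a.2 j)
    (fun P => (∀ l, ∀ x ∈ OrdRed.smW W (fun a => P a 0) 1, α l x ∈ OrdRed.smW W (fun a => P a 0) 1) ∧
      ∀ l, (∀ x, α l (α l x) = α l x) →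
        Module.finrank k ↥(OrdRed.smW W (fun a => P a 0) 1 ⊓ LinearMap.range (α l)) +
          Module.finrank k ↥(X.Fil 1 1 ⊓ LinearMap.range (α l)) = Module.finrank k ↥(LinearMap.range (α l)))

end general

end MPadcGP
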