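import Pool.Agent.Lib.MP_adc574_ag_EN.Def
import Pool.Agent.Lib.MP_adc574_ag_EN.Int
import Pool.Agent.Lib.MP_adc574_ag_GP.BrX
import Pool.Agent.Lib.MP_adc574_ag_GP.BrS

/-!
# Block G2: from the definitions of the statement to the internal definitions
-/

set_option autoImplicit false
set_option linter.unusedSectionVars false

namespace OrdRed

open MPadcGP

universe u v w x

section conj

variable {k : Type u} [Field k] {n : ℕ} {X : CovD.{u, u} k n}

/-- The endomorphism of the internal cohomology which corresponds to `α`. -/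
noncomputable def cjE (X : CovD.{u, u} k n) (α : Module.End k ((cov X).DR 1)) : Module.End k (X.HdR 1) :=
  ((cmp X 1).symm : (cov X).DR 1 →ₗ[k] X.HdR 1) ∘ₗ α ∘ₗ (cmp X 1 : X.HdR 1 →ₗ[k] (cov X).DR 1)

theorem cmp_cjE (α : Module.End k ((cov X).DR 1)) (x : X.HdR 1) : cmp X 1 (cjE X α x) = α (cmp X 1 x) :=
  (cmp X 1).apply_symm_apply _

theorem cjE_map (α : Module.End k ((cov X).DR 1)) (S : Submodule k (X.HdR 1)) (x : X.HdR 1) :
    α ((cmp X 1 : X.HdR 1 →ₗ[k] (cov X).DR 1) x) ∈ S.map (cmp X 1 : X.HdR 1 →ₗ[k] (cov X).DR 1) ↔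
      cjE X α x ∈ S := by
  have h1 : α ((cmp X 1 : X.HdR 1 →ₗ[k] (cov X).DR 1) x) = cmp X 1 (cjE X α x) := (cmp_cjE α x).symm
  rw [h1]
  exact map_cmp_mem S _

theorem cjE_idem (α : Module.End k ((cov X).DR 1)) (h : ∀ x, α (α x) = α x) (x : X.HdR 1) :
    cjE X α (cjE X α x) = cjE X α x := by
  apply (cmp X 1).injective
  rw [cmp_cjE, cmp_cjE, h]

theorem range_cjE (α : Module.End k ((cov X).DR 1)) : LinearMap.range α =
    (LinearMap.range (cjE X α)).map (cmp X 1 : X.HdR 1 →ₗ[k] (cov X).DR 1) := by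
  ext y
  constructor
  · rintro ⟨x, rfl⟩
    obtain ⟨x, rfl⟩ := (cmp X 1).surjective x
    exact ⟨cjE X α x, ⟨x, rfl⟩, cmp_cjE α x⟩
  · rintro ⟨_, ⟨x, rfl⟩, rfl⟩
    exact ⟨cmp X 1 x, (cmp_cjE α x).symm⟩

theorem back_eq {R S : Type u} [CommRing R] [CommRing S] [Algebra k R] [Algebra k S] (φ : R →ₐ[k] S) (ω : Fm k R) :
    (back φ (ω : Om k R) : Fm k S) = plf φ ω := pull_eq _ _ _

theorem isGlobal_of {c : X.Ch} (hc : c ∈ X.Fi 1 1) : IsGlobal (cov X) c := fun J hJ =>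
  hc.2 J (by omega)

theorem geoK_of {Λ : Set k} {α : Module.End k ((cov X).DR 1)} (h : Geometric (cov X) Λ α) :
    GeoK X Λ (cjE X α) := by
  obtain ⟨hF, j, S, iS, iA, iSm, N, a, ψ, ι, ha, hr, hi⟩ := h
  let ψ' : Fin N → (X.R {j} →ₐ[k] S) := ψ
  let ι' : X.R {j} →ₐ[k] S := ι
  have hs : ∀ e : X.Ch, (∑ l, a l • back (ψ' l) (e {j}) : Om k S) = (∑ l, a l • plf (ψ' l) (e {j}) : Fm k S) :=
    fun e => Finset.sum_congr rfl fun l _ => congrArg (fun z : Fm k S => a l • z) (back_eq (ψ' l) (e {j}))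
  refine ⟨fun x hx => ?_, j, S, iS, iA, iSm, N, a, ψ', ι', ha, ?_, ?_⟩
  · rw [← hodge_iff, cmp_cjE]
    exact hF _ (hodge_iff.2 hx)
  · intro c c' hcc
    have h1 : (cov X).HasClass 1 (c : X.Ch) (cmp X 1 (X.cl 1 c)) := hasClass_iff.2 ⟨c, rfl, rfl⟩
    have h2 : (cov X).HasClass 1 (c' : X.Ch) (α (cmp X 1 (X.cl 1 c))) := by
      rw [← cmp_cjE, hcc]
      exact hasClass_iff.2 ⟨c', rfl, rfl⟩
    obtain ⟨⟨g, h3⟩, h4⟩ := hr _ _ _ h1 h2
    refine ⟨⟨g, ?_⟩, fun hc hc' => ?_⟩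
    · exact ((hs c).symm.trans h3).trans
        (congrArg (fun z : Fm k S => z + df k g) (back_eq ι' ((c' : X.Ch) {j})))
    · exact ((hs c).symm.trans (h4 (isGlobal_of hc) (isGlobal_of hc'))).trans
        (back_eq ι' ((c' : X.Ch) {j}))
  · intro c hc h0
    have h1 : (cov X).HasClass 1 (c : X.Ch) (cmp X 1 (X.cl 1 c)) := hasClass_iff.2 ⟨c, rfl, rfl⟩
    have h2 := hi _ _ h1 (isGlobal_of hc) ((back_eq ι' ((c : X.Ch) {j})).trans h0)
    exact (cmp X 1).injective (h2.trans (map_zero (cmp X 1)).symm)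

end conj

section general

variable {k : Type u} [Field k] {n : ℕ} {X : CovD.{u, u} k n} {M : Type} [AddCommGroup M]
  [Fintype M] [DecidableEq M] {W : GrX X M}

theorem generalE_imp (hV : ∀ D : Derivation ℤ k k, Nonempty (Lft X D)) {r' : ℕ}
    (α : Fin r' → Module.End k ((cov X).DR 1)) (h : GeneralEnd (cov X) (HC W) α) :
    IsGeneralE W fun l => cjE X (α l) := by
  let i1 : ∀ a : ℕ × M, AddCommGroup ↥(W.HW a.1 a.2) := fun _ => inferInstance
  let i2 : ∀ a : ℕ × M, Module k ↥(W.HW a.1 a.2) := fun _ => inferInstance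
  intro P hP hC a i
  obtain ⟨m, μ⟩ := a
  -- the filtrations
  let Q : ∀ m : ℕ, ℕ → Submodule k (X.HdR m) := fun m i => smW W (fun a => P a i) m
  let P' : ∀ m : ℕ, ℕ → Submodule k ((cov X).DR m) := fun m i =>
    (Q m i).map (cmp X m : X.HdR m →ₗ[k] (cov X).DR m)
  have hQ : ∀ m i μ, Q m i ⊓ W.HW m μ = (P (m, μ) i).map (W.HW m μ).subtype := fun m i μ =>
    smW_inf W (fun a => P a i) m μ
  have hfrs : ∀ m i μ, Module.finrank k ((P (m, μ) i).map (W.HW m μ).subtype) = Module.finrank k (P (m, μ) i) :=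
    fun m i μ => (Submodule.equivMapOfInjective (W.HW m μ).subtype Subtype.val_injective
      (P (m, μ) i)).finrank_eq.symm
  have hconj : ConjugateType (cov X) (HC W) P' :=
    { mono := fun m i => Submodule.map_mono (iSup_mono fun μ => Submodule.map_mono (hP.mono (m, μ) i))
      homog := by
        rintro m i _ ⟨x, hx, rfl⟩
        have h1 : (cmp X m : X.HdR m →ₗ[k] (cov X).DR m) x =
            ∑ μ, (cmp X m : X.HdR m →ₗ[k] (cov X).DR m) (pH W m μ x) := by
          rw [← map_sum, sum_pH]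
        rw [h1]
        refine Submodule.sum_mem _ fun μ _ => Submodule.mem_iSup_of_mem μ ⟨⟨_, ?_, rfl⟩, ⟨_, pH_mem W m μ x, rfl⟩⟩
        have h2 := (mem_smW_iff W (fun a => P a i)).1 hx μ
        exact Submodule.mem_iSup_of_mem μ h2
      dim := by
        intro m i μ
        change Module.finrank k ↥((Q m i).map (cmp X m : X.HdR m →ₗ[k] (cov X).DR m) ⊓
          (W.HW m μ).map (cmp X m : X.HdR m →ₗ[k] (cov X).DR m)) + Module.finrank k ↥((cov X).hodge m (i + 1) ⊓
          (W.HW m μ).map (cmp X m : X.HdR m →ₗ[k] (cov X).DR m)) = Module.finrank k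
            ((W.HW m μ).map (cmp X m : X.HdR m →ₗ[k] (cov X).DR m))
        rw [hodge_map, map_cmp_inf, map_cmp_inf, finrank_map_cmp, finrank_map_cmp, finrank_map_cmp, hQ, hfrs,
          ← MPadcGP2.finrank_submoduleOf]
        exact hP.dim (m, μ) i
      mul := by
        rintro m m' i i' _ ⟨x, hx, rfl⟩ _ ⟨y, hy, rfl⟩ z hz
        obtain ⟨z, rfl⟩ := (cmp X (m + m')).surjective z
        obtain ⟨a, b, c, habc, rfl, rfl, rfl⟩ := prod_iff.1 hz
        refine (map_cmp_mem _ _).2 ?_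
        have hx' := fun ν => (mem_smW_iff W (fun a => P a i)).1 hx ν
        have hy' := fun ν => (mem_smW_iff W (fun a => P a i')).1 hy ν
        have hterm : ∀ ν κ, X.cl (m + m') ⟨X.cup (W.P ν a) (W.P κ b), cup_class ν κ⟩ ∈ Q (m + m') (i + i') := by
          intro ν κ
          obtain ⟨x1, hx1, hx2⟩ := hx' ν
          obtain ⟨y1, hy1, hy2⟩ := hy' κ
          have hw : X.cl (m + m') ⟨X.cup (W.P ν a) (W.P κ b), cup_class ν κ⟩ ∈ W.HW (m + m') (ν + κ) :=
            W.mem_HW.2 ⟨_, W.cup_mem_Wt (W.P_mem ν a) (W.P_mem κ b), rfl⟩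
          have h1 := hP.mul (m, ν) (m', κ) i i' x1 hx1 y1 hy1 ⟨_, hw⟩
            ⟨⟨W.P ν a, W.P_mem_Zc a.2 ν⟩, ⟨W.P κ b, W.P_mem_Zc b.2 κ⟩, ⟨_, cup_class ν κ⟩, rfl, ?_, ?_, rfl⟩
          · exact Submodule.mem_iSup_of_mem (ν + κ) ⟨_, h1, rfl⟩
          · rw [← pH_cl]
            exact hx2.symm
          · rw [← pH_cl]
            exact hy2.symm
        have hc : c = ∑ ρ, ∑ ν, (⟨X.cup (W.P ν a) (W.P (ρ - ν) b), cup_class ν (ρ - ν)⟩ : ↥(X.Zc (m + m'))) := by
          apply Subtype.ext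
          rw [Submodule.coe_sum, ← habc, ← W.sum_P (X.cup (a : X.Ch) b)]
          refine Finset.sum_congr rfl fun ρ _ => ?_
          rw [Submodule.coe_sum, W.P_cup]
        rw [hc, map_sum]
        refine Submodule.sum_mem _ fun ρ _ => ?_
        rw [map_sum]
        exact Submodule.sum_mem _ fun ν _ => hterm ν (ρ - ν)
      log := by
        intro m j x hx
        obtain ⟨x, rfl⟩ := (cmp X m).surjective x
        obtain ⟨c, rfl, hc⟩ := dlog_iff.1 hx
        refine (map_cmp_mem _ _).2 ((mem_smW_iff W (fun a => P a j)).2 fun μ => ?_)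
        refine ⟨⟨pH W m μ (X.cl m c), pH_mem W m μ _⟩, hP.log (m, μ) j _ ?_, rfl⟩
        exact ⟨c, ⟨W.P μ c, W.P_mem_Zc c.2 μ⟩, ⟨c.2, hc⟩, rfl, (pH_cl W m μ c).symm⟩ }
  have hst : ∀ l, ∀ x ∈ P' 1 0, α l x ∈ P' 1 0 := by
    rintro l _ ⟨x, hx, rfl⟩
    exact (cjE_map (X := X) (α l) (Q 1 0) x).2 (hC.1 l x hx)
  have hdm : ∀ l, (∀ x, α l (α l x) = α l x) → Module.finrank k ↥(P' 1 0 ⊓ LinearMap.range (α l)) +
      Module.finrank k ↥((cov X).hodge 1 1 ⊓ LinearMap.range (α l)) =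
        Module.finrank k ↥(LinearMap.range (α l)) := by
    intro l hl
    have h1 := hC.2 l (cjE_idem (α l) hl)
    change Module.finrank k ↥((Q 1 0).map (cmp X 1 : X.HdR 1 →ₗ[k] (cov X).DR 1) ⊓ LinearMap.range (α l)) +
      Module.finrank k ↥((cov X).hodge 1 1 ⊓ LinearMap.range (α l)) =
        Module.finrank k ↥(LinearMap.range (α l))
    rw [range_cjE, hodge_map, map_cmp_inf, map_cmp_inf, finrank_map_cmp, finrank_map_cmp, finrank_map_cmp]
    exact h1
  generalize hr : Module.finrank k ((X.Fil m (i + 1)).submoduleOf (W.HW m μ)) = r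
  intro U hU hω
  have hU' : IsHorizontal (fun D (x y : ↥(W.HW m μ)) => X.gaussManin m D x y) U := hU
  have hω' : ∃ ω ∈ U, ω ≠ 0 ∧ ∀ x, (∃ u, x u ∈ P (m, μ) i) → ω x = 0 := hω
  change ∃ ω ∈ U, ∃ x : Fin r → ↥(W.HW m μ), (∀ u, x u ∈ (X.Fil m (i + 1)).submoduleOf (W.HW m μ)) ∧ ω x ≠ 0
  clear hω hU
  -- the forms
  let e : ↥(W.HW m μ) ≃ₗ[k] ↥(HC W m μ) := (cmp X m).submoduleMap (W.HW m μ)
  have he : ∀ x, (e x : (cov X).DR m) = cmp X m x := fun x => rfl
  have he' : ∀ y, cmp X m (e.symm y : X.HdR m) = y := fun y => by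
    rw [← he, e.apply_symm_apply]
  let T : (↥(W.HW m μ) [⋀^Fin r]→ₗ[k] k) →ₗ[k] (↥(HC W m μ) [⋀^Fin r]→ₗ[k] k) :=
    { toFun := fun ω => ω.compLinearMap (e.symm : ↥(HC W m μ) →ₗ[k] ↥(W.HW m μ))
      map_add' := fun ω ω' => by
        ext x
        rfl
      map_smul' := fun a ω => by
        ext x
        rfl }
  have hT : ∀ ω x, T ω x = ω fun l => e.symm (x l) := fun ω x => rfl
  have hT' : ∀ ω (x : Fin r → ↥(W.HW m μ)), T ω (fun l => e (x l)) = ω x := by
    intro ω x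
    rw [hT]
    congr 1
    funext l
    exact e.symm_apply_apply (x l)
  obtain ⟨ω, hω1, hω2, hω3⟩ := hω'
  have hrr : r = Module.finrank k ↥((cov X).hodge m (i + 1) ⊓ HC W m μ) := by
    change r = Module.finrank k ↥((cov X).hodge m (i + 1) ⊓
      (W.HW m μ).map (cmp X m : X.HdR m →ₗ[k] (cov X).DR m))
    rw [hodge_map, map_cmp_inf, finrank_map_cmp, ← MPadcGP2.finrank_submoduleOf]
    exact hr.symm
  have hpos := h P' hconj (fun l => ⟨hst l, hdm l⟩) m i μ
  rw [← hrr] at hpos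
  have hmain := hpos (U.map T) ?_ ⟨T ω, ⟨ω, hω1, rfl⟩, ?_, ?_⟩
  · obtain ⟨_, ⟨ω', hω', rfl⟩, x, hx, hne⟩ := hmain
    refine ⟨ω', hω', fun l => e.symm (x l), fun l => ?_, ?_⟩
    · change (e.symm (x l) : X.HdR m) ∈ X.Fil m (i + 1)
      apply hodge_iff.1
      rw [he']
      exact hx l
    · rw [← hT]
      exact hne
  · intro D
    rintro _ ⟨ω, hω, rfl⟩
    obtain ⟨ω', hω', h1⟩ := hU' D ω hω
    refine ⟨T ω', ⟨ω', hω', rfl⟩, fun x y hxy => ?_⟩
    obtain ⟨V⟩ := hV D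
    have h2 := h1 (fun l => e.symm (x l)) (fun l => e.symm (y l)) fun l => by
      apply nabla_imp V
      rw [he', he']
      exact hxy l
    rw [hT, hT, h2]
    congr 1
    refine Finset.sum_congr rfl fun l _ => ?_
    rw [hT]
    congr 1
    funext l'
    by_cases hl : l' = l
    · subst hl
      rw [Function.update_self, Function.update_self]
    · rw [Function.update_of_ne hl, Function.update_of_ne hl]
  · intro h0
    apply hω2
    ext x
    rw [← hT' ω x, h0]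
    rfl
  · rintro x ⟨l, hl⟩
    rw [hT]
    apply hω3
    refine ⟨l, ?_⟩
    have h1 : cmp X m (e.symm (x l) : X.HdR m) ∈ (Q m i).map (cmp X m : X.HdR m →ₗ[k] (cov X).DR m) := by
      rw [he']
      exact hl
    have h2 : (e.symm (x l) : X.HdR m) ∈ Q m i ⊓ W.HW m μ := ⟨(map_cmp_mem _ _).1 h1, (e.symm (x l)).2⟩
    rw [hQ] at h2
    obtain ⟨y, hy, hyx⟩ := h2
    have h3 : y = e.symm (x l) := Subtype.ext hyx
    change e.symm (x l) ∈ P (m, μ) i
    rw [← h3]
    exact hy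

end general

/-- BLOCK G2. From the statement to the internal definitions.

Proof. `proj I = cov (prC I)` (`proj_eq`); for every cover `Y = cov (prC I)` the statement is transported along the
equality (as `general_proj` in BrX.lean, `generalRel_proj` in BrS.lean: `partF`, `partF_tr`), so let `α l` be
endomorphisms of `(cov (prC I)).DR 1` and `α' l` the conjugates by `cmp (prC I) 1 : HdR 1 ≃ DR 1`. `GeoK`: `hasClass_iff`,
`hodge_iff`, `back = plf` (`pull_eq`), `dif = df`; `c ∈ Fi 1 1` iff the components of `c` on the `U_J`, `card J > 1`, vanish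
(for `c ∈ Zc 1`). `IsGeneralE`: as `generalW_imp` (BrW.lean): filtrations `P a i ⊆ HW a` give the filtrations
`(smW ...).map cmp` of `DR m`, of `ConjugateType`; `P 1 0` there is the image of `smW W (fun a => P a 0) 1`, so the two
additional conditions agree (dimensions of images under `cmp`: `finrank_map_cmp`). -/
theorem exists_internal {k : Type u} [Field k] {n : ℕ} {I : Ideal (MvPolynomial (Fin n) k)} {M : Type}
    [AddCommGroup M] [Fintype M] [DecidableEq M] {w : Fin n → M} (hI : IsHomog I) (hs : IsSmoothProj I)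
    (hw : IsWHomog w I) {r : ℕ} (α : Fin r → Module.End k ((proj I).DR 1)) {Λ : Set k}
    (hα : ∀ l, Geometric (proj I) Λ (α l)) (hg : GeneralEnd (proj I) (part I w) α) :
    ∃ α' : Fin r → Module.End k ((prC I).HdR 1), (∀ l, GeoK (prC I) Λ (α' l)) ∧ IsGeneralE (grP hI hw) α' := by
  have h1 : ∀ f g : ∀ J K : Finset (Fin n), J ⊆ K → (chart I J →ₐ[k] chart I K), f = g →
      (∀ α : Fin r → Module.End k ((cvr I g).DR 1), (∀ l, Geometric (cvr I g) Λ (α l)) →
        GeneralEnd (cvr I g) (partF w g) α →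
          ∃ α' : Fin r → Module.End k ((prC I).HdR 1), (∀ l, GeoK (prC I) Λ (α' l)) ∧ IsGeneralE (grP hI hw) α') →
      (∀ α : Fin r → Module.End k ((cvr I f).DR 1), (∀ l, Geometric (cvr I f) Λ (α l)) →
        GeneralEnd (cvr I f) (partF w f) α →
          ∃ α' : Fin r → Module.End k ((prC I).HdR 1), (∀ l, GeoK (prC I) Λ (α' l)) ∧
            IsGeneralE (grP hI hw) α') := by
    rintro f g rfl hf
    exact hf
  refine h1 _ _ (funext fun J => funext fun K => funext fun h => restriction_eq I h) ?_ α hα hg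
  clear hg hα α h1
  intro α hα hg
  have h3 : (fun (m : ℕ) (μ : M) => (partF w (fun _ _ h => tr I h) m μ :
      Submodule k ((cov (prC I)).DR m))) = fun m μ => HC (grP hI hw) m μ :=
    funext fun m => funext fun μ => partF_tr hI hw m μ
  have h4 : ∀ (H H' : ∀ m : ℕ, M → Submodule k ((cov (prC I)).DR m)) (β : Fin r → Module.End k ((cov (prC I)).DR 1)),
      H = H' → GeneralEnd (cov (prC I)) H β → GeneralEnd (cov (prC I)) H' β := by
    rintro H H' β rfl hH
    exact hH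
  exact ⟨fun l => cjE (prC I) (α l), fun l => geoK_of (hα l),
    generalE_imp (fun D => exists_lft hI hs D) α (h4 _ _ α h3 hg)⟩

end OrdRed
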