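import Pool.Agent.Lib.MP_adc574_ag_EN.F3
import Pool.Agent.Lib.MP_adc574_ag_EN.G2
import Pool.Agent.Lib.MP_adc574_ag_EN.D2
import Pool.Agent.Lib.MP_adc574_ag_GP.BrG

/-!
# The final theorem with endomorphisms (helper66)
-/

set_option autoImplicit false
set_option linter.unusedSectionVars false

namespace MPadcGP

open Polynomial

universe u v w x

section

variable {M : Type} [AddCommGroup M] [Fintype M] [DecidableEq M]

/-- The final theorem with endomorphisms, open form. -/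
theorem open_end {k : Type u} [Field k] [IsAlgClosed k] [CharZero k] (A : Subalgebra ℤ k) (hA : A.FG)
    {n : ℕ} (I : Ideal (MvPolynomial (Fin n) A)) (hI : IsHomog I)
    (hs : IsSmoothProj (bI (algebraMap A k) I)) {wt : Fin n → M}
    (hw : IsWHomog wt (bI (algebraMap A k) I)) {r : ℕ}
    (α : Fin r → Module.End k ((prC (bI (algebraMap A k) I)).HdR 1)) {F : ℤ[X]} (hF : F ≠ 0)
    (hα : ∀ l, GeoK (prC (bI (algebraMap A k) I)) {x | aeval x F = 0} (α l))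
    (hg : IsGeneralE (grP (hI.map (algebraMap A k)) hw) α) (b : A) (hb : b ≠ 0) :
    ∃ p₀ : ℕ, ∀ p : ℕ, p₀ ≤ p → p.Prime → (F.map (Int.castRingHom (ZMod p))).Splits →
      (∀ (m i : ℕ) (μ : M), Module.finrank k ↥((prC (bI (algebraMap A k) I)).Fil m i ⊓
        (grP (hI.map (algebraMap A k)) hw).HW m (p • μ)) =
          Module.finrank k ↥((prC (bI (algebraMap A k) I)).Fil m i ⊓
            (grP (hI.map (algebraMap A k)) hw).HW m μ)) →
      (∃ 𝔪 : Ideal A, 𝔪.IsMaximal ∧ b ∉ 𝔪 ∧ (p : A) ∈ 𝔪 ∧ IsSmoothProj (bI (Ideal.Quotient.mk 𝔪) I) ∧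
        (prC (bI (Ideal.Quotient.mk 𝔪) I)).IsBlochKatoOrdinary) ∧
      ∀ 𝔓 ∈ (Ideal.span {(p : A)}).minimalPrimes, IsOpenOrd I 𝔓 := by
  have hfA : Algebra.FiniteType ℤ A := (Subalgebra.fg_iff_finiteType A).1 hA
  have hcA : CharZero A := ⟨fun a b h => by
      have h1 := congrArg (algebraMap A k) h
      rw [map_natCast, map_natCast] at h1
      exact Nat.cast_injective h1⟩
  obtain ⟨p₀, hp₀⟩ := core_end A hA I hI hs hw α hF hα hg
  obtain ⟨c, hc0, -, hdc⟩ := exists_hasDat hI hI (algebraMap A k) Subtype.val_injective hs hs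
  obtain ⟨BA, hBA⟩ := exists_resB A
  obtain ⟨L, iL, φ, B, hB, -⟩ := exists_resFields' A
  refine ⟨p₀ + BA 0 + BA c + B 0 + B b + 1, fun p hp hprime hspl hdimk => ?_⟩
  have hfact : Fact p.Prime := ⟨hprime⟩
  have hop : ∀ 𝔓 ∈ (Ideal.span {(p : A)}).minimalPrimes, IsOpenOrd I 𝔓 := by
    intro 𝔓 h𝔓
    have hpr : 𝔓.IsPrime := h𝔓.1.1
    obtain ⟨hcK, -, hne, Λ, iΛ, bb, hbb⟩ := hBA p hprime (by omega) 𝔓 h𝔓 (FractionRing (A ⧸ 𝔓)) _ (frac_ker 𝔓)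
      (frac_surj 𝔓)
    have hcφ := hne c hc0 (by omega)
    have hd : IsDenseOrd I 𝔓 := hp₀ p (by omega) hprime hspl hdimk 𝔓 h𝔓
    have hopp : IsOppC (prC (bI ((algebraMap (A ⧸ 𝔓) (FractionRing (A ⧸ 𝔓))).comp (Ideal.Quotient.mk 𝔓)) I)) := by
      obtain ⟨hs', β, i1, i2, lev, z, h, hD⟩ := hdc
      exact opp_of_dense hI hc0 hs' hD hd _ (frac_ker 𝔓) (frac_surj 𝔓) hcφ
    exact open_of_opp (p := p) hI hc0 hdc _ (frac_ker 𝔓) (frac_surj 𝔓) hbb hcφ hopp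
  refine ⟨?_, hop⟩
  have hcp : CharP (L p) p := hB.char p hprime (by omega)
  have hkp : (RingHom.ker (φ p)).IsPrime := RingHom.ker_isPrime (φ p)
  have hle : Ideal.span {(p : A)} ≤ RingHom.ker (φ p) := by
    rw [Ideal.span_singleton_le_iff_mem, RingHom.mem_ker, map_natCast]
    exact CharP.cast_eq_zero (L p) p
  obtain ⟨𝔓, h𝔓, hle𝔓⟩ := Ideal.exists_minimalPrimes_le hle
  have hpr : 𝔓.IsPrime := h𝔓.1.1
  have hp𝔓 : (p : A) ∈ 𝔓 := h𝔓.1.2 (Ideal.mem_span_singleton_self _)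
  have hb𝔓 : b ∉ 𝔓 := fun h => hB.ne p hprime (by omega) b hb (by omega) (hle𝔓 h)
  obtain ⟨f, hf, hall⟩ := hop 𝔓 h𝔓
  have hbf : b * f ∉ 𝔓 := by
    intro h
    rcases hpr.mem_or_mem h with h | h
    · exact hb𝔓 h
    · exact hf h
  obtain ⟨𝔫, h𝔫, hle'', hbf𝔫⟩ := exists_max_not_mem (p := p) 𝔓 hp𝔓 _ hbf
  exact ⟨𝔫, h𝔫, fun h => hbf𝔫 (Ideal.mul_mem_right _ _ h), hle'' hp𝔓,
    hall 𝔫 h𝔫 hle'' fun h => hbf𝔫 (Ideal.mul_mem_left _ _ h)⟩

end

end MPadcGP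

namespace OrdRed

open MPadcGP Polynomial

universe u

/-- The main theorem with endomorphisms. -/
theorem main_end {k : Type u} [Field k] [IsAlgClosed k] [CharZero k] (A : Subalgebra ℤ k) (hA : A.FG) {n : ℕ}
    (I : Ideal (MvPolynomial (Fin n) A)) (hI : Homogeneous I) (hs : SmoothProj (change I (algebraMap A k)))
    {M : Type} [AddCommGroup M] [Finite M] (w : Fin n → M) (hw : WeightHomogeneous (change I (algebraMap A k)) w)
    {F : ℤ[X]} (hF : F ≠ 0) {r : ℕ} (α : Fin r → Module.End k ((proj (change I (algebraMap A k))).DR 1))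
    (hα : ∀ l, Geometric (proj (change I (algebraMap A k))) {x | aeval x F = 0} (α l))
    (hg : GeneralEnd (proj (change I (algebraMap A k))) (part (change I (algebraMap A k)) w) α)
    (b : A) (hb : b ≠ 0) :
    (∃ p₀ : ℕ, ∀ p : ℕ, p₀ ≤ p → p.Prime → (F.map (Int.castRingHom (ZMod p))).Splits →
      (∀ (m i : ℕ) (μ : M),
        hodgeDim (change I (algebraMap A k)) w m i (p • μ) = hodgeDim (change I (algebraMap A k)) w m i μ) →
      HasOrdinaryFibre I b p ∧ ∀ 𝔓 ∈ (Ideal.span {(p : A)}).minimalPrimes, ∃ f ∉ 𝔓, ∀ 𝔫 : Ideal A, 𝔫.IsMaximal →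
        𝔓 ≤ 𝔫 → f ∉ 𝔫 →
          SmoothProj (change I (Ideal.Quotient.mk 𝔫)) ∧ (proj (change I (Ideal.Quotient.mk 𝔫))).Ordinary) ∧
      ∀ p₁ : ℕ, ∃ p : ℕ, p₁ < p ∧ p.Prime ∧ (F.map (Int.castRingHom (ZMod p))).Splits ∧ ∀ μ : M, p • μ = μ := by
  classical
  let _ : Fintype M := Fintype.ofFinite M
  have hs' : IsSmoothProj (bI (algebraMap A k) I) := hs
  have hI' : IsHomog I := hI
  have hI'' : IsHomog (bI (algebraMap A k) I) := hI'.map _
  have hw' : IsWHomog w (bI (algebraMap A k) I) := hw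
  obtain ⟨α', hα', hg'⟩ := exists_internal hI'' hs' hw' α hα hg
  refine ⟨?_, fun p₁ => ?_⟩
  · obtain ⟨p₀, hp₀⟩ := open_end A hA I hI' hs' hw' α' hF hα' hg' b hb
    refine ⟨p₀, fun p hp hprime hspl hdim => ?_⟩
    obtain ⟨⟨𝔪, h𝔪, hb𝔪, hp𝔪, hsm, hord⟩, hop⟩ := hp₀ p hp hprime hspl (fun m i μ => by
      rw [← finrank_part hI'' hw', ← finrank_part hI'' hw']
      exact hdim m i μ)
    refine ⟨⟨𝔪, h𝔪, hb𝔪, hp𝔪, hsm, (ordinary_proj_iff _).2 hord⟩, fun 𝔓 h𝔓 => ?_⟩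
    obtain ⟨f, hf, hall⟩ := hop 𝔓 h𝔓
    refine ⟨f, hf, fun 𝔫 h𝔫 hle hf𝔫 => ?_⟩
    obtain ⟨h1, h2⟩ := hall 𝔫 h𝔫 hle hf𝔫
    exact ⟨h1, (ordinary_proj_iff _).2 h2⟩
  · obtain ⟨p, hp, hprime, hmod, hspl⟩ := en_primes F hF (Nat.card M) Nat.card_pos p₁
    refine ⟨p, hp, hprime, hspl, fun μ => ?_⟩
    have h1 : (Nat.card M : ℤ) ∣ (p : ℤ) - 1 := by
      have h2 := (Nat.modEq_iff_dvd.1 hmod.symm)
      simpa using h2
    obtain ⟨c, hc⟩ := (Nat.modEq_iff_dvd' hprime.one_le).1 hmod.symm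
    have h3 : p = 1 + Nat.card M * c := by
      have h4 := hprime.one_le
      omega
    rw [h3, add_smul, one_smul, mul_smul, card_nsmul_eq_zero', add_zero]

end OrdRed
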