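import Pool.Agent.Lib.MP_adc574_ag_EN.Int
import Pool.Agent.Lib.MP_adc574_ag_GP.CarBr

/-!
# Leaf K2 (medium+): the global `1`-forms
-/

set_option autoImplicit false
set_option linter.unusedSectionVars false

namespace MPadcGP

universe u v w

private theorem K2_fin {κ T : Type*} [Field κ] [AddCommGroup T] [Module κ T] {D : T →ₗ[κ] T}
    {S S' : ℕ → Submodule κ T} {m : ℕ} (h : BB D S S' m = ⊥) :
    Nonempty (HH D S S' m ≃ₗ[κ] ↥(ZZ D S S' m)) := by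
  refine ⟨Submodule.quotEquivOfEqBot _ ?_⟩
  rw [h, Submodule.submoduleOf, Submodule.comap_bot, Submodule.ker_subtype]

/-- LEAF K2. The Hodge to de Rham spectral sequence degenerates, so every global `1`-form is closed, hence a combination of
the forms `z 1 b`, `1 ≤ lev 1 b`.

Proof. `Fi 2 1 = ⊥` and `Fi 1 0 = ⊥` (`CovD.Fi_bot`), so `BB Dt (Fi 2) (Fi 1) 1 = ⊥` (`mem_BB`, `pr (Fi 1) 1 = Fi 1 0`)
and `HH Dt (Fi 2) (Fi 1) 1` is the space `Z = ZZ Dt (Fi 2) (Fi 1) 1` itself (`Submodule.quotEquivOfEqBot`); its dimension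
is `hn 1 1` (definition of `hn`). `hn 1 1 = finrank (FH 1 1)` by `CovD.FH_finrank hf (CovD.brd_sum hsum) 1 1`
(`Finset.Ico 1 3`, `CovD.hn_zero : hn 2 1 = 0`), `= finrank (Fil 1 1)` (`CovD.brd_Fil`, `LinearEquiv.finrank_map_eq`)
`= card {b // ¬ lev 1 b < 1}` (`IsAd.finrank_Fil`, file GP/GlCon.lean: import it or copy the 15 lines). The linear map
`c ↦ ∑ b, c b • z 1 b.1` from `{b // 1 ≤ lev 1 b} → κ` to `Z` (`z 1 b ∈ Fi (lev 1 b) 1 ≤ Fi 1 1` by `had.mem`,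
`CovD.Fi_anti`, `had.coc`) is injective by `had.ind 1` (the sum is zero, so in `Bc 1`; extend `c` by zero), so it is
surjective (`LinearMap.injective_iff_surjective_of_finrank_eq_finrank`, or `Submodule.eq_top_of_finrank_eq` for the
range). `Z` is finite dimensional by `hf 1 1` and the isomorphism. -/
theorem enk_span {κ : Type u} [Field κ] {n : ℕ} {X : CovD.{u, v} κ n}
    (hf : ∀ q m, FiniteDimensional κ (HH X.Dt (X.Fi (q + 1)) (X.Fi q) m))
    (hsum : ∀ m, ∑ q ∈ Finset.range (m + 1), Module.finrank κ (HH X.Dt (X.Fi (q + 1)) (X.Fi q) m) ≤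
      Module.finrank κ (X.HdR m))
    {β : ℕ → Type} [∀ m, Fintype (β m)] {lev : ∀ m, β m → ℕ} {z : ∀ m, β m → X.Ch}
    (had : IsAd X lev z) (y : X.Ch) (hy : y ∈ ZZ X.Dt (X.Fi 2) (X.Fi 1) 1) :
    ∃ c : {b : β 1 // 1 ≤ lev 1 b} → κ, y = ∑ b, c b • z 1 b.1 := by
  have hsum' := CovD.brd_sum hsum
  have hB1 : BB X.Dt (X.Fi 2) (X.Fi 1) 1 = ⊥ := by
    unfold BB
    have h1 : pr (X.Fi 1) 1 = ⊥ := CovD.Fi_bot (i := 1) (m := 0) Nat.zero_lt_one
    rw [h1, Submodule.map_bot, CovD.Fi_bot (by omega), bot_sup_eq]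
  have hB0 : BB X.Dt X.zs (X.Fi 1) 1 = ⊥ := by
    unfold BB
    have h1 : pr (X.Fi 1) 1 = ⊥ := CovD.Fi_bot (i := 1) (m := 0) Nat.zero_lt_one
    have h2 : X.zs 1 = ⊥ := rfl
    rw [h1, Submodule.map_bot, h2, bot_sup_eq]
  obtain ⟨e1⟩ := K2_fin hB1
  obtain ⟨e0⟩ := K2_fin hB0
  have hfd : FiniteDimensional κ ↥(ZZ X.Dt (X.Fi 2) (X.Fi 1) 1) := by
    have := hf 1 1
    exact LinearEquiv.finiteDimensional e1
  have hle : ZZ X.Dt X.zs (X.Fi 1) 1 ≤ ZZ X.Dt (X.Fi 2) (X.Fi 1) 1 := by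
    refine ZZ_mono (fun m => ?_) (fun m => le_rfl) 1
    exact bot_le
  have hd : Module.finrank κ ↥(ZZ X.Dt X.zs (X.Fi 1) 1) =
      Module.finrank κ ↥(ZZ X.Dt (X.Fi 2) (X.Fi 1) 1) := by
    have h1 : Module.finrank κ (X.FH 1 1) = Module.finrank κ (HH X.Dt X.zs (X.Fi 1) 1) :=
      LinearMap.finrank_range_of_inj (CovD.F_inj hf hsum' 1 1)
    have h2 := CovD.FH_finrank hf hsum' 1 1
    have h3 : ∑ a ∈ Finset.Ico 1 (1 + 2), X.hn a 1 = X.hn 1 1 := by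
      rw [Finset.sum_Ico_succ_top (by omega), CovD.hn_zero (by omega), add_zero,
        Finset.sum_Ico_succ_top (by omega), Finset.Ico_self, Finset.sum_empty, zero_add]
    have h4 : X.hn 1 1 = Module.finrank κ (HH X.Dt (X.Fi 2) (X.Fi 1) 1) := rfl
    rw [← e0.finrank_eq, ← e1.finrank_eq, ← h1, h2, h3, h4]
  have heq := Submodule.eq_of_le_of_finrank_eq hle hd
  have hy0 : X.Dt y = 0 := by
    rw [← heq] at hy
    exact (Submodule.mem_bot κ).1 hy.2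
  obtain ⟨c, hc, hcy⟩ := had.gen 1 1 y hy.1 hy0
  have hmem : ∑ b, c b • z 1 b ∈ X.Fi 1 1 := by
    refine Submodule.sum_mem _ fun b _ => ?_
    by_cases hb : lev 1 b < 1
    · rw [hc b hb, zero_smul]
      exact Submodule.zero_mem _
    · exact Submodule.smul_mem _ _ (CovD.Fi_anti (not_lt.1 hb) 1 (had.mem 1 b))
  have hDs : X.Dt (y - ∑ b, c b • z 1 b) = 0 := by
    rw [map_sub, hy0, map_sum, zero_sub, neg_eq_zero]
    refine Finset.sum_eq_zero fun b _ => ?_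
    rw [map_smul, had.coc, smul_zero]
  rw [← CovD.brd_pr] at hcy
  have h5 := CovD.F_strict hf hsum' 1 1 _ (Submodule.sub_mem _ hy.1 hmem) hDs hcy
  have h6 : pr (X.Fi 1) 1 = ⊥ := CovD.Fi_bot (i := 1) (m := 0) Nat.zero_lt_one
  rw [h6, Submodule.map_bot, Submodule.mem_bot, sub_eq_zero] at h5
  refine ⟨fun b => c b.1, ?_⟩
  rw [h5]
  rw [← Finset.sum_subtype (Finset.univ.filter fun b => 1 ≤ lev 1 b)
    (p := fun b => 1 ≤ lev 1 b) (fun b => by simp) (fun b => c b • z 1 b)]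
  refine (Finset.sum_subset (Finset.filter_subset _ _) fun b _ hb => ?_).symm
  rw [Finset.mem_filter, not_and] at hb
  rw [hc b (not_le.1 (hb (Finset.mem_univ b))), zero_smul]

end MPadcGP
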