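import Pool.Agent.Lib.MP_adc574_ag_EN.Int
import Pool.Agent.Lib.MP_adc574_ag_GP.BCe

/-!
# Block S: models of smooth algebras over finitely generated rings, definition
-/

set_option autoImplicit false

namespace MPadcGP

universe u v w

/-- A model over the ring `A₃ ⊆ k` of the `k`-algebra `S` with the subring `s₀ (B₀)`: a smooth `A₃`-algebra `S₃` with
`k ⊗ S₃ = S`, spanned by the image of `B₀`. -/
structure Mdl {k : Type u} [Field k] (A₃ : Subalgebra ℤ k) {B₀ : Type u} [CommRing B₀] {S : Type u} [CommRing S]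
    [Algebra k S] (s₀ : B₀ →+* S) where
  /-- The algebra. -/
  S₃ : Type u
  [cr : CommRing S₃]
  [al : Algebra A₃ S₃]
  [sm : Algebra.Smooth A₃ S₃]
  /-- The image of `B₀`. -/
  g : B₀ →+* S₃
  /-- The map to `S`. -/
  h : S₃ →+* S
  hg : ∀ b, h (g b) = s₀ b
  hb : HB A₃ k h
  bij : Function.Bijective (bcr hb)
  span : ∀ s : S₃, s ∈ Submodule.span A₃ (Set.range g)

attribute [instance] Mdl.cr Mdl.al Mdl.sm

end MPadcGP
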