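import Pool.Agent.Lib.MP_adc574_ag_EN.S0

/-!
# Leaf SA1: existence of the models
-/

set_option autoImplicit false

namespace MPadcGP

open TensorProduct

universe u v w

section SA1

variable {A B k : Type u} [CommRing A] [CommRing B] [Field k] [Algebra A B] [Algebra A k] [Algebra B k]
  [IsScalarTower A B k] {B₀ : Type u} [CommRing B₀] [Algebra A B₀] {S : Type u} [CommRing S] [Algebra k S]

/-- The map `B ⊗ B₀ → S`. -/
private noncomputable def SA1_h (e : S ≃ₐ[k] k ⊗[A] B₀) : B ⊗[A] B₀ →+* S :=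
  (e.symm : k ⊗[A] B₀ →+* S).comp
    (Algebra.TensorProduct.map (IsScalarTower.toAlgHom A B k) (AlgHom.id A B₀)).toRingHom

private theorem SA1_h_tmul (e : S ≃ₐ[k] k ⊗[A] B₀) (b : B) (x : B₀) :
    SA1_h (B := B) e (b ⊗ₜ[A] x) = e.symm (algebraMap B k b ⊗ₜ[A] x) := rfl

private theorem SA1_hb (e : S ≃ₐ[k] k ⊗[A] B₀) : HB B k (SA1_h (B := B) e) := by
  intro b
  rw [Algebra.TensorProduct.algebraMap_apply, SA1_h_tmul, ← e.symm.commutes,
    Algebra.TensorProduct.algebraMap_apply]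
  rfl

private theorem SA1_bcr (e : S ≃ₐ[k] k ⊗[A] B₀) (x : k ⊗[B] (B ⊗[A] B₀)) :
    bcr (SA1_hb (B := B) e) x =
      e.symm (TensorProduct.AlgebraTensorModule.cancelBaseChange A B k k B₀ x) := by
  induction x using TensorProduct.induction_on with
  | zero => simp only [map_zero]
  | add x y hx hy => rw [map_add, map_add, map_add, hx, hy]
  | tmul c y =>
    induction y using TensorProduct.induction_on with
    | zero => simp only [TensorProduct.tmul_zero, map_zero]
    | add x y hx hy => rw [TensorProduct.tmul_add, map_add, map_add, map_add, hx, hy]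
    | tmul b x =>
      rw [bcr_tmul, SA1_h_tmul, TensorProduct.AlgebraTensorModule.cancelBaseChange_tmul, ← map_smul,
        TensorProduct.smul_tmul', Algebra.smul_def b c, smul_eq_mul, mul_comm]

private theorem SA1_bij (e : S ≃ₐ[k] k ⊗[A] B₀) : Function.Bijective (bcr (SA1_hb (B := B) e)) := by
  have h1 : (fun x => bcr (SA1_hb (B := B) e) x) = fun x =>
      e.symm (TensorProduct.AlgebraTensorModule.cancelBaseChange A B k k B₀ x) :=
    funext fun x => SA1_bcr e x
  change Function.Bijective fun x => bcr (SA1_hb (B := B) e) x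
  rw [h1]
  exact e.symm.bijective.comp (TensorProduct.AlgebraTensorModule.cancelBaseChange A B k k B₀).bijective

private theorem SA1_span (s : B ⊗[A] B₀) :
    s ∈ Submodule.span B (Set.range (Algebra.TensorProduct.includeRight : B₀ →ₐ[A] B ⊗[A] B₀)) := by
  induction s using TensorProduct.induction_on with
  | zero => exact Submodule.zero_mem _
  | add x y hx hy => exact Submodule.add_mem _ hx hy
  | tmul b x =>
    have h1 : b ⊗ₜ[A] x = b • (Algebra.TensorProduct.includeRight : B₀ →ₐ[A] B ⊗[A] B₀) x := by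
      rw [Algebra.TensorProduct.includeRight_apply, TensorProduct.smul_tmul', smul_eq_mul, mul_one]
    rw [h1]
    exact Submodule.smul_mem _ _ (Submodule.subset_span ⟨x, rfl⟩)

end SA1

/-- LEAF SA1. Every ring `A₃ ⊇ A₀` has a model.

Proof. `S₃ = A₃ ⊗[A₀] B₀` (`A₃` is an `A₀`-algebra by `Subalgebra.inclusion`; put the instances
`(Subalgebra.inclusion h0).toRingHom.toAlgebra` and the scalar tower `A₀ A₃ k` with `IsScalarTower.of_algebraMap_eq`),
smooth over `A₃` by base change, `g b = 1 ⊗ b`, `h = e.symm ∘ (A₃ ⊗[A₀] B₀ → k ⊗[A₀] B₀)`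
(`Algebra.TensorProduct.map`), `k ⊗[A₃] (A₃ ⊗[A₀] B₀) = k ⊗[A₀] B₀` (`Algebra.TensorProduct.cancelBaseChange` or
`TensorProduct.AlgebraTensorModule.cancelBaseChange`); the composite of this isomorphism with `e.symm` is `bcr hb` (check on
`c ⊗ (a ⊗ b)`, `bcr_tmul`). -/
theorem exists_mdl {k : Type u} [Field k] {A₀ A₃ : Subalgebra ℤ k} (h0 : A₀ ≤ A₃) {B₀ : Type u} [CommRing B₀]
    [Algebra A₀ B₀] [Algebra.Smooth A₀ B₀] {S : Type u} [CommRing S] [Algebra k S] (e : S ≃ₐ[k] k ⊗[A₀] B₀)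
    (s₀ : B₀ →+* S) (hs₀ : ∀ b, e (s₀ b) = (1 : k) ⊗ₜ[A₀] b) : Nonempty (Mdl A₃ s₀) := by
  let : Algebra A₀ A₃ := (Subalgebra.inclusion h0).toRingHom.toAlgebra
  have : IsScalarTower A₀ A₃ k := IsScalarTower.of_algebraMap_eq fun _ => rfl
  exact ⟨{
    S₃ := A₃ ⊗[A₀] B₀
    g := (Algebra.TensorProduct.includeRight : B₀ →ₐ[A₀] A₃ ⊗[A₀] B₀).toRingHom
    h := SA1_h e
    hg := fun b => by
      change SA1_h e ((1 : A₃) ⊗ₜ[A₀] b) = s₀ b
      rw [SA1_h_tmul, map_one, ← hs₀, AlgEquiv.symm_apply_apply]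
    hb := SA1_hb e
    bij := SA1_bij e
    span := fun s => SA1_span s }⟩

end MPadcGP
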