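import Pool.Agent.Lib.MP_adc574_ag_EN.S0

/-!
# Leaf SA2: injectivity
-/

set_option autoImplicit false

namespace MPadcGP

open TensorProduct

universe u v w

/-- LEAF SA2. The maps from a model to `S` are injective on functions and on forms of degree one.

Proof. `S₃` is flat over `A₃` (smooth), `A₃ → k` is injective: `inj_of_bcl` (BCe.lean) with `bcr q.hb` (`bcr` is
`bcl` of `q.h`, injective by `q.bij`). Forms: `flat_fo (some 1)` (BCd.lean) and `bc_fo q.hb q.bij (some 1)` (the base change of
`FdO` in degree one is bijective), `inj_of_bcl` again. -/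
theorem Mdl.inj {k : Type u} [Field k] {A₃ : Subalgebra ℤ k} {B₀ : Type u} [CommRing B₀] {S : Type u} [CommRing S]
    [Algebra k S] {s₀ : B₀ →+* S} (q : Mdl A₃ s₀) :
    Function.Injective q.h ∧ ∀ e ∈ Fd A₃ q.S₃ 1, mp q.h q.hb.cc e = 0 → e = 0 := by
  have hinj : Function.Injective (algebraMap A₃ k) := Subtype.val_injective
  have hfl : Module.Flat A₃ q.S₃ := inferInstance
  constructor
  · rw [injective_iff_map_eq_zero]
    intro s hs
    exact inj_of_bcl hinj (q.h : q.S₃ →+ S) q.hb.smul q.bij.1 hs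
  · intro e he h0
    have hfo : Module.Flat A₃ ↥(FdO A₃ q.S₃ (some 1)) := flat_fo (some 1)
    have h1 := inj_of_bcl hinj (mpo q.hb (some 1)) (mpo_smul q.hb (some 1)) (bc_fo q.hb q.bij (some 1)).1
      (m := ⟨e, mem_FdO_some.2 he⟩) (Subtype.ext h0)
    exact congrArg Subtype.val h1

end MPadcGP
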