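import Pool.Agent.Lib.MP_adc574_ag_EN.S0
import Pool.Agent.Lib.MP_adc574_ag_EN.D1

/-!
# Leaf SA3: functionals on forms
-/

set_option autoImplicit false

namespace MPadcGP

open TensorProduct

universe u v w

/-- LEAF SA3. Functionals on the forms of degree one which detect finitely many independent forms.

Proof. `N = ↥(Fd A₀ B₀ 1)` is a finite `B₀`-module (`Fd A₀ B₀ 1 = ⋀[B₀]^1`, the range of `ExteriorAlgebra.ι B₀` on the finite
module `Ω[B₀⁄A₀]`; `B₀` is of finite type over `A₀`). By `bc_fo hb hbij (some 1)` (BCd.lean; `FdO A₀ B₀ (some 1)` is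
`Fd A₀ B₀ 1` as an `A₀`-module) `k ⊗[A₀] N → Fd k S 1`, `c ⊗ e ↦ c • mp s₀ e` is bijective; apply `en_det` to the preimages of
the `ω f`; `τ f` is the functional on `Fd k S 1` composed with the projection of `Fm k S` to the degree one (`pl 1`,
BCd.lean), as a `k`-linear map. -/
theorem exists_tau {k : Type u} [Field k] [IsAlgClosed k] {A₀ : Subalgebra ℤ k} (hA₀ : A₀.FG) {B₀ : Type u}
    [CommRing B₀] [Algebra A₀ B₀] [Algebra.Smooth A₀ B₀] {S : Type u} [CommRing S] [Algebra k S] {s₀ : B₀ →+* S}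
    (hb : HB A₀ k s₀) (hbij : Function.Bijective (bcr hb)) {F : Type} [Fintype F] [DecidableEq F] (ω : F → Fm k S)
    (hω1 : ∀ f, ω f ∈ Fd k S 1) (hω : LinearIndependent k ω) :
    ∃ (A' : Subalgebra ℤ k) (τ : F → (Fm k S →ₗ[k] k)), A'.FG ∧ A₀ ≤ A' ∧
      (∀ f, ∀ e ∈ Fd A₀ B₀ 1, τ f (mp s₀ hb.cc e) ∈ A') ∧ (Matrix.of fun f f' => τ f (ω f')).det ≠ 0 := by
  have hfin : Module.Finite B₀ ↥(Fd A₀ B₀ 1) := by
    have h1 : Module.Finite B₀ (⋀[B₀]^1 (Ω[B₀⁄A₀])) := inferInstance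
    exact h1
  let E : ↥(Fd A₀ B₀ 1) ≃ₗ[A₀] ↥(FdO A₀ B₀ (some 1)) :=
    { toFun := fun x => ⟨x.1, x.2⟩
      invFun := fun x => ⟨x.1, x.2⟩
      left_inv := fun x => rfl
      right_inv := fun x => rfl
      map_add' := fun x y => rfl
      map_smul' := fun a x => rfl }
  let Ψ : k ⊗[A₀] ↥(Fd A₀ B₀ 1) →ₗ[k] ↥(FdO k S (some 1)) :=
    (bcl (mpo hb (some 1)) (mpo_smul hb (some 1))) ∘ₗ (LinearEquiv.baseChange A₀ k _ _ E).toLinearMap
  have hΨ : Function.Bijective Ψ :=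
    (bc_fo hb hbij (some 1)).comp (LinearEquiv.baseChange A₀ k _ _ E).bijective
  have hΨ1 : ∀ x : ↥(Fd A₀ B₀ 1), Ψ ((1 : k) ⊗ₜ[A₀] x) = mpo hb (some 1) (E x) := by
    intro x
    show bcl (mpo hb (some 1)) (mpo_smul hb (some 1)) ((1 : k) ⊗ₜ[A₀] (E x)) = _
    rw [bcl_tmul, one_smul]
  let Ψe : k ⊗[A₀] ↥(Fd A₀ B₀ 1) ≃ₗ[k] ↥(FdO k S (some 1)) := LinearEquiv.ofBijective Ψ hΨ
  let ω₁ : F → ↥(FdO k S (some 1)) := fun f => ⟨ω f, hω1 f⟩
  have hω₁ : LinearIndependent k ω₁ := by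
    refine LinearIndependent.of_comp (FdO k S (some 1)).subtype ?_
    exact hω
  have hω₂ : LinearIndependent k fun f => Ψe.symm (ω₁ f) :=
    hω₁.map' Ψe.symm.toLinearMap (LinearEquiv.ker _)
  obtain ⟨A', τ', hA', hle, hval, hdet⟩ :=
    en_det (B₀ := B₀) (N := ↥(Fd A₀ B₀ 1)) hA₀ (fun f => Ψe.symm (ω₁ f)) hω₂
  refine ⟨A', fun f => (τ' f) ∘ₗ Ψe.symm.toLinearMap ∘ₗ (pl k S 1), hA', hle, ?_, ?_⟩
  · intro f e he
    have h1 : pl k S 1 (mp s₀ hb.cc e) = Ψe ((1 : k) ⊗ₜ[A₀] (⟨e, he⟩ : ↥(Fd A₀ B₀ 1))) := by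
      refine Eq.trans ?_ (hΨ1 ⟨e, he⟩).symm
      refine Subtype.ext ?_
      exact pj_of_mem (mp_mem hb.cc he)
    show τ' f (Ψe.symm (pl k S 1 (mp s₀ hb.cc e))) ∈ A'
    rw [h1, LinearEquiv.symm_apply_apply]
    exact hval f _
  · have h1 : ∀ f, pl k S 1 (ω f) = ω₁ f := fun f => Subtype.ext (pj_of_mem (hω1 f))
    have h2 : (Matrix.of fun f f' => ((τ' f) ∘ₗ Ψe.symm.toLinearMap ∘ₗ (pl k S 1)) (ω f')) =
        Matrix.of fun f f' => τ' f (Ψe.symm (ω₁ f')) := by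
      ext f f'
      show τ' f (Ψe.symm (pl k S 1 (ω f'))) = _
      rw [h1]
      rfl
    rw [h2]
    exact hdet

end MPadcGP
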