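import Pool.Agent.Lib.MP_adc574_ag_EN.S0

/-!
# Leaf SA4: functionals over the model
-/

set_option autoImplicit false

namespace MPadcGP

open TensorProduct

universe u v w

private theorem sa4_pj {A : Type u} {R : Type v} [CommRing A] [CommRing R] [Algebra A R] (q : ℕ) (a : A)
    (e : Fm A R) : pj A q (a • e) = a • pj A q e := by
  induction e using homog_ind with
  | h0 => rw [smul_zero, map_zero, smul_zero]
  | h1 r e he =>
    have h1 : a • e ∈ Fd A R r := by
      rw [smul_fm]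
      exact fz_mul_mem _ he
    rcases eq_or_ne r q with rfl | h
    · rw [pj_of_mem he, pj_of_mem h1]
    · rw [pj_of_ne he h, pj_of_ne h1 h, smul_zero]
  | h2 x y hx hy => rw [smul_add, map_add, map_add, smul_add, hx, hy]

private theorem sa4_key {k : Type u} [Field k] {A₃ : Subalgebra ℤ k} {B₀ : Type u} [CommRing B₀]
    {S : Type u} [CommRing S] [Algebra k S] {S₃ : Type u} [CommRing S₃] [Algebra A₃ S₃] (g : B₀ →+* S₃)
    (h : S₃ →+* S) (hb : HB A₃ k h) (τ : Fm k S →ₗ[k] k)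
    (hτ : ∀ b b' : B₀, τ (fz k (h (g b)) * df k (h (g b'))) ∈ A₃) (r t : S₃)
    (hr : r ∈ Submodule.span A₃ (Set.range g)) (ht : t ∈ Submodule.span A₃ (Set.range g)) :
    τ (fz k (h r) * df k (h t)) ∈ A₃ := by
  refine Submodule.span_induction (p := fun r _ => τ (fz k (h r) * df k (h t)) ∈ A₃) ?_ ?_ ?_ ?_ hr
  · rintro _ ⟨b, rfl⟩
    refine Submodule.span_induction (p := fun t _ => τ (fz k (h (g b)) * df k (h t)) ∈ A₃) ?_ ?_ ?_ ?_ ht
    · rintro _ ⟨b', rfl⟩
      exact hτ b b'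
    · show τ (fz k (h (g b)) * df k (h 0)) ∈ A₃
      rw [map_zero h, df_zero, mul_zero, map_zero]
      exact A₃.zero_mem
    · intro x y _ _ hx hy
      show τ (fz k (h (g b)) * df k (h (x + y))) ∈ A₃
      rw [map_add h, df_add, mul_add, map_add τ]
      exact A₃.add_mem hx hy
    · intro a x _ hx
      show τ (fz k (h (g b)) * df k (h (a • x))) ∈ A₃
      have h1 : df k (h (a • x)) = fz k (algebraMap k S (algebraMap A₃ k a)) * df k (h x) := by
        rw [hb.smul, Algebra.smul_def, df_mul, df_base, mul_zero, add_zero]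
      have h2 : fz k (h (g b)) * df k (h (a • x)) =
          (algebraMap A₃ k a) • (fz k (h (g b)) * df k (h x)) := by
        rw [h1, smul_fm, ← mul_assoc, ← mul_assoc, fz_comm]
      rw [h2, map_smul, smul_eq_mul]
      exact A₃.mul_mem a.2 hx
  · show τ (fz k (h 0) * df k (h t)) ∈ A₃
    rw [map_zero h, map_zero (fz k), zero_mul, map_zero]
    exact A₃.zero_mem
  · intro x y _ _ hx hy
    show τ (fz k (h (x + y)) * df k (h t)) ∈ A₃
    rw [map_add h, map_add (fz k), add_mul, map_add τ]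
    exact A₃.add_mem hx hy
  · intro a x _ hx
    show τ (fz k (h (a • x)) * df k (h t)) ∈ A₃
    have h2 : fz k (h (a • x)) * df k (h t) = (algebraMap A₃ k a) • (fz k (h x) * df k (h t)) := by
      rw [hb.smul, Algebra.smul_def, map_mul (fz k), smul_fm, mul_assoc]
    rw [h2, map_smul, smul_eq_mul]
    exact A₃.mul_mem a.2 hx

/-- LEAF SA4. A functional with values in `A₃` on the forms of `B₀` gives an `A₃`-linear functional on the forms of the
model.

Proof. Every element of `Fd A₃ S₃ 1` is a combination with coefficients in `A₃` of forms `mp q.g e`, `e ∈ Fd A₀ B₀ 1`: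
`Fd A₃ S₃ 1` is additively generated by the `fz r * df t` (`fd_ind` or `BrA.ofDegree_iff`), and for
`r = ∑ a_i g (b_i)`, `t = ∑ a'_j g (b'_j)` (`q.span`) this is `∑ a_i a'_j • mp q.g (fz b_i * df b'_j)`. Hence
`τ (mp q.h e) ∈ A₃` for all `e ∈ Fd A₃ S₃ 1` (`mp q.h (mp q.g e) = mp s₀ e`; use that only forms `fz b * df b'` occur).
`τ₃ e` is the value at `pj A₃ 1 e` (the projection to degree one, `pj_mem`, `pj_of_mem`). -/
theorem Mdl.exists_tau3 {k : Type u} [Field k] {A₀ A₃ : Subalgebra ℤ k} {B₀ : Type u} [CommRing B₀]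
    [Algebra A₀ B₀] {S : Type u} [CommRing S] [Algebra k S] {s₀ : B₀ →+* S} (hb : HB A₀ k s₀) (q : Mdl A₃ s₀)
    (τ : Fm k S →ₗ[k] k) (hτ : ∀ e ∈ Fd A₀ B₀ 1, τ (mp s₀ hb.cc e) ∈ A₃) :
    ∃ τ₃ : Fm A₃ q.S₃ →ₗ[A₃] A₃, ∀ e ∈ Fd A₃ q.S₃ 1, ((τ₃ e : A₃) : k) = τ (mp q.h q.hb.cc e) := by
  have hτ' : ∀ b b' : B₀, τ (fz k (q.h (q.g b)) * df k (q.h (q.g b'))) ∈ A₃ := by
    intro b b'
    have h1 := hτ (fz A₀ b * df A₀ b') (fz_mul_mem b (df_mem b'))
    rw [map_mul, mp_fz, mp_df] at h1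
    rw [q.hg, q.hg]
    exact h1
  have hmem : ∀ e ∈ Fd A₃ q.S₃ 1, τ (mp q.h q.hb.cc e) ∈ A₃ := by
    intro e he
    refine fd_ind (P := fun e => τ (mp q.h q.hb.cc e) ∈ A₃) ?_ ?_ ?_ he
    · rw [map_zero, map_zero]
      exact A₃.zero_mem
    · intro r t
      rw [wd_succ, wd_zero, mul_one, map_mul, mp_fz, mp_df]
      exact sa4_key q.g q.h q.hb τ hτ' r (t 0) (q.span r) (q.span (t 0))
    · intro a b ha hb'
      rw [map_add, map_add]
      exact A₃.add_mem ha hb'
  refine ⟨{ toFun := fun e => ⟨τ (mp q.h q.hb.cc (pj A₃ 1 e)), hmem _ (pj_mem 1 e)⟩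
            map_add' := ?_
            map_smul' := ?_ }, ?_⟩
  · intro x y
    apply Subtype.ext
    show τ (mp q.h q.hb.cc (pj A₃ 1 (x + y))) =
      τ (mp q.h q.hb.cc (pj A₃ 1 x)) + τ (mp q.h q.hb.cc (pj A₃ 1 y))
    rw [map_add, map_add, map_add]
  · intro a x
    apply Subtype.ext
    show τ (mp q.h q.hb.cc (pj A₃ 1 (a • x))) = (a : k) * τ (mp q.h q.hb.cc (pj A₃ 1 x))
    rw [sa4_pj, q.hb.mp_smul, map_smul, smul_eq_mul]
    rfl
  · intro e he
    show τ (mp q.h q.hb.cc (pj A₃ 1 e)) = τ (mp q.h q.hb.cc e)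
    rw [pj_of_mem he]

end MPadcGP
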