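import Pool.Agent.Lib.MP_adc574_ag_EN.SA1
import Pool.Agent.Lib.MP_adc574_ag_EN.SA2
import Pool.Agent.Lib.MP_adc574_ag_EN.SA3
import Pool.Agent.Lib.MP_adc574_ag_EN.SA4

/-!
# Leaf SA5: the models, with finitely many elements and functionals
-/

set_option autoImplicit false

namespace MPadcGP

open TensorProduct

universe u v w

/-- LEAF SA5. Models over all large rings, which contain finitely many given elements, and with functionals.

Proof. `Algebra.Smooth.exists_subalgebra_fg ℤ k S` gives `A₀`, `B₀`, `e : S ≃ k ⊗[A₀] B₀`; `s₀ b = e.symm (1 ⊗ b)`;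
`HB A₀ k s₀`, `bcr` is `e.symm`, bijective. `exists_tau` gives `A'`, `τ`. Each `t ∈ T` is `∑ c_i • s₀ (b_i)`
(`e t` is a sum of pure tensors); `A₂` is generated by `A'` and all these `c_i`. For `A₃ ⊇ A₂`: `exists_mdl`; `Mdl.inj`;
`t = h (∑ c_i • g (b_i))`; `Mdl.exists_tau3`: the matrix of the `τ₃ f (ω₃ f')` is mapped by `A₃ → k` to the matrix of
the `τ f (ω f')`. -/
theorem exists_model {k : Type u} [Field k] [IsAlgClosed k] {S : Type u} [CommRing S] [Algebra k S]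
    [Algebra.Smooth k S] (T : Finset S) {F : Type} [Fintype F] [DecidableEq F] (ω : F → Fm k S)
    (hω1 : ∀ f, ω f ∈ Fd k S 1) (hω : LinearIndependent k ω) :
    ∃ A₂ : Subalgebra ℤ k, A₂.FG ∧ ∀ A₃ : Subalgebra ℤ k, A₂ ≤ A₃ →
      ∃ (S₃ : Type u) (_ : CommRing S₃) (_ : Algebra A₃ S₃) (_ : Algebra.Smooth A₃ S₃) (h : S₃ →+* S) (hb : HB A₃ k h),
        Function.Injective h ∧ (∀ e ∈ Fd A₃ S₃ 1, mp h hb.cc e = 0 → e = 0) ∧ (∀ t ∈ T, ∃ s, h s = t) ∧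
          ∃ τ : F → (Fm A₃ S₃ →ₗ[A₃] A₃), ∀ ω₃ : F → Fm A₃ S₃, (∀ f, ω₃ f ∈ Fd A₃ S₃ 1) →
            (∀ f, mp h hb.cc (ω₃ f) = ω f) → (Matrix.of fun f f' => τ f (ω₃ f')).det ≠ 0 := by
  classical
  obtain ⟨A₀, B₀, _, _, hA₀, hsm, ⟨e⟩⟩ := Algebra.Smooth.exists_subalgebra_fg ℤ k S
  let s₀ : B₀ →+* S := (e.symm : k ⊗[A₀] B₀ →+* S).comp
    ((Algebra.TensorProduct.includeRight : B₀ →ₐ[A₀] k ⊗[A₀] B₀) : B₀ →+* k ⊗[A₀] B₀)
  have hs₀' : ∀ b, s₀ b = e.symm ((1 : k) ⊗ₜ[A₀] b) := fun b => rfl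
  have hs₀ : ∀ b, e (s₀ b) = (1 : k) ⊗ₜ[A₀] b := fun b => by rw [hs₀', AlgEquiv.apply_symm_apply]
  have hsm' : ∀ (c : k) (b : B₀), e.symm (c ⊗ₜ[A₀] b) = c • s₀ b := fun c b => by
    rw [hs₀', ← map_smul, TensorProduct.smul_tmul', smul_eq_mul, mul_one]
  have hb : HB A₀ k s₀ := fun a => by
    have h1 : (1 : k) ⊗ₜ[A₀] (algebraMap A₀ B₀ a) = (algebraMap A₀ k a) ⊗ₜ[A₀] (1 : B₀) := by
      rw [Algebra.algebraMap_eq_smul_one, ← TensorProduct.smul_tmul, ← Algebra.algebraMap_eq_smul_one]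
    have h2 : (algebraMap A₀ k a) ⊗ₜ[A₀] (1 : B₀) = algebraMap k (k ⊗[A₀] B₀) (algebraMap A₀ k a) := by
      rw [Algebra.TensorProduct.algebraMap_apply, Algebra.algebraMap_self_apply]
    rw [hs₀', h1, h2, AlgEquiv.commutes]
  have hbe : ∀ x, bcr hb x = e.symm x := fun x => by
    induction x using TensorProduct.induction_on with
    | zero => rw [map_zero, map_zero]
    | tmul c b => rw [bcr_tmul, hsm']
    | add x y hx hy => rw [map_add, map_add, hx, hy]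
  have hbij : Function.Bijective (bcr hb) := by
    have : (bcr hb : k ⊗[A₀] B₀ → S) = e.symm := funext hbe
    rw [this]
    exact e.symm.bijective
  obtain ⟨A', τ, hA', h0, hval, hdet⟩ := exists_tau hA₀ hb hbij ω hω1 hω
  have hfin : ∀ x : k ⊗[A₀] B₀, ∃ C : Finset k, ∀ A₃ : Subalgebra ℤ k, (∀ c ∈ C, c ∈ A₃) → ∀ q : Mdl A₃ s₀,
      ∃ s : q.S₃, q.h s = e.symm x := fun x => by
    induction x using TensorProduct.induction_on with
    | zero => exact ⟨∅, fun A₃ _ q => ⟨0, by rw [map_zero, map_zero]⟩⟩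
    | tmul c b =>
      refine ⟨{c}, fun A₃ hC q => ⟨(⟨c, hC c (Finset.mem_singleton_self c)⟩ : A₃) • q.g b, ?_⟩⟩
      rw [q.hb.smul, q.hg, hsm']
      rfl
    | add x y hx hy =>
      obtain ⟨C₁, h₁⟩ := hx
      obtain ⟨C₂, h₂⟩ := hy
      refine ⟨C₁ ∪ C₂, fun A₃ hC q => ?_⟩
      obtain ⟨s₁, e₁⟩ := h₁ A₃ (fun c hc => hC c (Finset.mem_union_left _ hc)) q
      obtain ⟨s₂, e₂⟩ := h₂ A₃ (fun c hc => hC c (Finset.mem_union_right _ hc)) q
      exact ⟨s₁ + s₂, by rw [map_add, map_add, e₁, e₂]⟩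
  choose C hC using hfin
  refine ⟨A' ⊔ Algebra.adjoin ℤ (↑(T.biUnion fun t => C (e t)) : Set k), hA'.sup (Subalgebra.fg_adjoin_finset _), fun A₃ h3 => ?_⟩
  have h3' : A' ≤ A₃ := le_trans le_sup_left h3
  obtain ⟨q⟩ := exists_mdl (A₃ := A₃) (le_trans h0 h3') e s₀ hs₀
  refine ⟨q.S₃, q.cr, q.al, q.sm, q.h, q.hb, q.inj.1, q.inj.2, fun t ht => ?_, ?_⟩
  · obtain ⟨s, hs⟩ := hC (e t) A₃ (fun c hc => h3 (le_sup_right (a := A')
      (Algebra.subset_adjoin (Finset.mem_coe.2 (Finset.mem_biUnion.2 ⟨t, ht, hc⟩))))) q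
    exact ⟨s, by rw [hs, AlgEquiv.symm_apply_apply]⟩
  · choose τ₃ hτ₃ using fun f => Mdl.exists_tau3 hb q (τ f) (fun x hx => h3' (hval f x hx))
    refine ⟨τ₃, fun ω₃ h1 h2 h => hdet ?_⟩
    have e1 : (Matrix.of fun f f' => τ f (ω f')) = (algebraMap A₃ k).mapMatrix (Matrix.of fun f f' => τ₃ f (ω₃ f')) := by
      ext f f'
      simp only [Matrix.of_apply, RingHom.mapMatrix_apply, Matrix.map_apply]
      rw [← h2 f']
      exact (hτ₃ f (ω₃ f') (h1 f')).symm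
    rw [e1, ← RingHom.map_det, h, map_zero]

end MPadcGP
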